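import Mathlib

/-!
Integral functions on a finite abelian group and their Fourier coefficients.
-/

set_option autoImplicit false

open Polynomial

namespace Pool.Agent.K6.H68.CC

/-- Galois conjugation of integral relations between roots of unity. -/
theorem conj_sum {G : Type} [Fintype G] {N t : ℕ} (hN : 0 < N) (ht : t.Coprime N) (χ : G → ℂ)
    (hχ : ∀ g, χ g ^ N = 1) (c : G → ℤ) (h : ∑ g, (c g : ℂ) * χ g ^ t = 0) :
    ∑ g, (c g : ℂ) * χ g = 0 := by
  classical
  have hN0 : NeZero N := ⟨hN.ne'⟩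
  have hζ := Complex.isPrimitiveRoot_exp N hN.ne'
  obtain ⟨ζ, hζdef⟩ : ∃ ζ, ζ = Complex.exp (2 * Real.pi * Complex.I / N) := ⟨_, rfl⟩
  rw [← hζdef] at hζ
  choose a ha using fun g => (hζ.eq_pow_of_pow_eq_one (hχ g))
  obtain ⟨A, hA⟩ : ∃ A : ℚ[X], A = ∑ g, C (c g : ℚ) * X ^ a g := ⟨_, rfl⟩
  have hev : ∀ x : ℂ, aeval x A = ∑ g, (c g : ℂ) * x ^ a g := by
    intro x
    rw [hA, map_sum]
    refine Finset.sum_congr rfl fun g _ => ?_
    rw [map_mul, map_pow, aeval_X, aeval_C]
    congr 1
  have hζt : IsPrimitiveRoot (ζ ^ t) N := hζ.pow_of_coprime t ht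
  have h1 : aeval (ζ ^ t) A = 0 := by
    rw [hev, ← h]
    refine Finset.sum_congr rfl fun g _ => ?_
    rw [← (ha g).2, ← pow_mul, ← pow_mul, mul_comm t (a g)]
  have h2 : minpoly ℚ (ζ ^ t) ∣ A := minpoly.dvd ℚ _ h1
  rw [← cyclotomic_eq_minpoly_rat hζt hN, cyclotomic_eq_minpoly_rat hζ hN] at h2
  obtain ⟨B, hB⟩ := h2
  have h3 : aeval ζ A = 0 := by
    rw [hB, map_mul, minpoly.aeval, zero_mul]
  rw [hev] at h3
  rw [← h3]
  refine Finset.sum_congr rfl fun g _ => ?_
  rw [(ha g).2]

/-- If all Fourier coefficients at the nontrivial characters are zero then the function is constant. -/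
theorem const_of_chars {G : Type} [Group G] [Fintype G] (hG : ∀ g h : G, g * h = h * g) (c : G → ℤ)
    (h : ∀ χ : G →* ℂ, χ ≠ 1 → ∑ g, (c g : ℂ) * χ g = 0) : ∀ g h, c g = c h := by
  classical
  let i0 : CommGroup G := { (inferInstance : Group G) with mul_comm := hG }
  have key : ∀ k : G, (Fintype.card G : ℂ) * (c k : ℂ) = ∑ g, (c g : ℂ) := by
    intro k
    have h1 : ∀ g : G, ∑ ψ : AddChar (Additive G) ℂ, ψ (Additive.ofMul (g * k⁻¹)) =
        if g = k then (Fintype.card G : ℂ) else 0 := by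
      intro g
      rw [AddChar.sum_apply_eq_ite]
      have h2 : Additive.ofMul (g * k⁻¹) = 0 ↔ g = k := by
        rw [ofMul_eq_zero, mul_inv_eq_one]
      by_cases h3 : g = k
      · rw [if_pos (h2.2 h3), if_pos h3, ← Nat.card_eq_fintype_card, ← Nat.card_eq_fintype_card]
        rfl
      · rw [if_neg (fun h4 => h3 (h2.1 h4)), if_neg h3]
    have h4 : (Fintype.card G : ℂ) * (c k : ℂ) =
        ∑ g, (c g : ℂ) * ∑ ψ : AddChar (Additive G) ℂ, ψ (Additive.ofMul (g * k⁻¹)) := by
      rw [Finset.sum_congr rfl fun g _ => by rw [h1 g]]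
      simp only [mul_ite, mul_zero]
      rw [Finset.sum_ite_eq' Finset.univ k, if_pos (Finset.mem_univ _), mul_comm]
    rw [h4]
    simp only [Finset.mul_sum]
    rw [Finset.sum_comm]
    rw [Finset.sum_eq_single (0 : AddChar (Additive G) ℂ)]
    · refine Finset.sum_congr rfl fun g _ => ?_
      rw [AddChar.zero_apply, mul_one]
    · intro ψ _ hψ
      let χ : G →* ℂ :=
        { toFun := fun g => ψ (Additive.ofMul g)
          map_one' := by
            rw [ofMul_one, AddChar.map_zero_eq_one]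
          map_mul' := fun a b => by
            rw [ofMul_mul, AddChar.map_add_eq_mul] }
      have hχ : χ ≠ 1 := by
        intro h5
        apply hψ
        ext a
        have h6 := congrArg (fun f : G →* ℂ => f (Additive.toMul a)) h5
        rw [AddChar.zero_apply]
        exact h6
      have h7 := h χ hχ
      have h8 : ∀ g : G, (c g : ℂ) * ψ (Additive.ofMul (g * k⁻¹)) =
          ψ (Additive.ofMul k⁻¹) * ((c g : ℂ) * χ g) := by
        intro g
        rw [ofMul_mul, AddChar.map_add_eq_mul]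
        change _ = _ * (_ * ψ (Additive.ofMul g))
        ring
      rw [Finset.sum_congr rfl fun g _ => h8 g, ← Finset.mul_sum, h7, mul_zero]
    · intro h5
      exact absurd (Finset.mem_univ _) h5
  intro g h'
  have h1 := (key g).trans (key h').symm
  have h2 : (Fintype.card G : ℂ) ≠ 0 := by
    exact_mod_cast Fintype.card_ne_zero
  have h3 := mul_left_cancel₀ h2 h1
  exact_mod_cast h3

end Pool.Agent.K6.H68.CC
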