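import Pool.Agent.K6.H68.CC.Base
import Pool.Agent.K6.H68.CC.Char

/-!
Correspondences which hit few fibres of an abelian cover.
-/

set_option autoImplicit false
set_option linter.overlappingInstances false
set_option linter.unusedSectionVars false
set_option linter.unusedDecidableInType false
set_option linter.unusedFintypeInType false
set_option linter.unusedVariables false
set_option maxHeartbeats 4000000
set_option synthInstance.maxHeartbeats 400000

open FF Module Pool.Agent.W602.GT Pool.Agent.N162.BC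

namespace Pool.Agent.K6.H68.CC

section

variable {K Ω : Type} [Field K] [Algebra ℂ K] [Field Ω] [Algebra ℂ Ω]

/-- The relation given by an eigenform. -/
theorem eigen_rel [IsAlgClosed Ω] [Algebra.EssFiniteType ℂ K] {n : ℕ}
    (hK : Algebra.trdeg ℂ K = (n : ℕ)) {q M : ℕ} {z : Fin q → K} {Ef : IntermediateField ℂ K}
    (hEf : Ef = IntermediateField.adjoin ℂ (Set.range z)) [FiniteDimensional Ef K] [IsGalois Ef K]
    {ω : (Fin n → Derivation ℂ K K) → K} (hω0 : ω ≠ 0) {χ : (K ≃ₐ[Ef] K) → ℂ}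
    (heig : ∀ (D : Fin n → Derivation ℂ Ef Ef) (D' : Fin n → Derivation ℂ K K),
      (∀ i (f : Ef), D' i (f : K) = (D i f : K)) →
        ∀ g : K ≃ₐ[Ef] K, g (ω D') = algebraMap ℂ K (χ g) * ω D')
    (hglob : ∀ a : Fin q → ℕ, ∑ l, a l ≤ M →
      GlobalForm n (fun D => (∏ l, z l ^ a l) * ω D))
    {c : (K →ₐ[ℂ] Ω) →₀ ℤ} (hc : NullTrace n c) [DecidableEq (Fin q → Ω)]
    (hcard : (c.support.image fun σ l => σ (z l)).card ≤ M + 1) (σ : K →ₐ[ℂ] Ω) :
    ∑ g : K ≃ₐ[Ef] K, (c (σ.comp ((g : K →ₐ[Ef] K).restrictScalars ℂ)) : ℂ) * χ g = 0 := by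
  classical
  have hzE : ∀ l, z l ∈ Ef := fun l => by
    rw [hEf]
    exact IntermediateField.subset_adjoin _ _ ⟨l, rfl⟩
  have hagree : ∀ {ρ ρ' : K →ₐ[ℂ] Ω}, (∀ l, ρ (z l) = ρ' (z l)) → ∀ e : Ef,
      ρ (e : K) = ρ' (e : K) := by
    intro ρ ρ' h e
    refine agree h ?_
    rw [← hEf]
    exact e.2
  have hωz := hglob (fun _ => 0) (by simp)
  simp only [pow_zero, Finset.prod_const_one, one_mul] at hωz
  have hω : IsPluri 1 ω := hωz.1
  have hEn : Algebra.trdeg ℂ Ef = (n : ℕ) := Pool.Agent.Y184.NT.trdeg_below (K := K) hK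
  have hessE : Algebra.EssFiniteType ℂ Ef := Pool.Agent.TH466.QG.ess_below (K := K)
  obtain ⟨y, E, hy, hE⟩ := Pool.Agent.Y172.exists_crd (k := ℂ) (K := Ef) hEn
  choose E' hE' using fun i => Pool.Agent.Y172.exists_lift (k := ℂ) (K := Ef) (L := K) hEn (E i)
  have hyK : IsTranscendenceBasis ℂ (fun j => algebraMap Ef K (y j)) := hy.algebraMap_comp
  have hE'd := Pool.Agent.Y172.lift_dual hE hE'
  have hw : ω E' ≠ 0 := by
    intro h0
    apply hω0
    funext D
    rw [Pool.Agent.Y172.pluri_coord hyK hE'd hω D, h0, mul_zero]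
    rfl
  -- the vector fields on Ω
  have hcharΩ : CharZero Ω := charZero_of_injective_algebraMap (algebraMap ℂ Ω).injective
  have hind : AlgebraicIndependent ℂ (fun j => σ (algebraMap Ef K (y j))) :=
    hyK.1.map' (f := σ) σ.injective
  obtain ⟨D, hD⟩ := exists_ders hind
  -- the relation
  have hrel : ∑ ρ ∈ c.support with (fun l => ρ (z l)) = fun l => σ (z l),
      (c ρ : Ω) * ρ (ω E') = 0 := by
    have h1 : ∀ a : Fin q → ℕ, ∑ l, a l ≤ M → ∑ ρ ∈ c.support, (∏ l, ρ (z l) ^ a l) *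
        ((c ρ : Ω) * ((Matrix.of fun i j => D i (ρ (algebraMap Ef K (y j)))).det *
          ρ (ω E'))) = 0 := by
      intro a ha
      have h2 := hc (fun D => (∏ l, z l ^ a l) * ω D) (hglob a ha) _ E' hyK hE'd D
      rw [← h2]
      refine Finset.sum_congr rfl fun ρ _ => ?_
      unfold pullback
      rw [map_mul, map_prod]
      simp only [map_pow]
      ring
    have h4 := isolate c.support (fun ρ l => ρ (z l)) _ h1 (fun l => σ (z l)) hcard
    rw [← h4]
    refine Finset.sum_congr rfl fun ρ hρ => ?_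
    have h5 : ∀ l, ρ (z l) = σ (z l) := fun l => congrFun (Finset.mem_filter.1 hρ).2 l
    have h6 : (Matrix.of fun i j => D i (ρ (algebraMap Ef K (y j)))) = 1 := by
      ext i j
      have h7 : ρ (algebraMap Ef K (y j)) = σ (algebraMap Ef K (y j)) := hagree h5 (y j)
      rw [Matrix.of_apply, Matrix.one_apply, h7, hD]
    rw [h6, Matrix.det_one, one_mul]
  -- the fibre is an orbit of the group
  let i1 : Algebra Ef Ω := (σ.toRingHom.comp (algebraMap Ef K)).toAlgebra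
  have hi1 : ∀ e : Ef, algebraMap Ef Ω e = σ (e : K) := fun e => rfl
  have i2 : IsScalarTower ℂ Ef Ω := IsScalarTower.of_algebraMap_eq fun c => by
    rw [hi1]
    exact (σ.commutes c).symm
  let σ1 : K →ₐ[Ef] Ω := { σ with commutes' := fun e => (hi1 e).symm }
  have hcE : CharZero Ef := charZero_of_injective_algebraMap (algebraMap ℂ _).injective
  let φ : (K ≃ₐ[Ef] K) → (K →ₐ[ℂ] Ω) := fun g => σ.comp ((g : K →ₐ[Ef] K).restrictScalars ℂ)
  have hφ : ∀ (g : K ≃ₐ[Ef] K) (a : K), φ g a = σ (g a) := fun g a => rfl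
  have hφinj : Function.Injective φ := by
    intro g g' hg
    ext a
    have h1 : φ g a = φ g' a := by rw [hg]
    rw [hφ, hφ] at h1
    exact σ.injective h1
  have hφz : ∀ g (e : Ef), φ g (e : K) = σ (e : K) := by
    intro g e
    rw [hφ]
    have h1 : g (e : K) = (e : K) := g.commutes e
    rw [h1]
  have hcardΩ : Fintype.card (K →ₐ[Ef] Ω) = Module.finrank Ef K := AlgHom.card _ _ _
  have hcardG : Fintype.card (K ≃ₐ[Ef] K) = Module.finrank Ef K := by
    rw [← Nat.card_eq_fintype_card]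
    exact IsGalois.card_aut_eq_finrank Ef K
  have hφsurj : ∀ ρ : K →ₐ[ℂ] Ω, (∀ l, ρ (z l) = σ (z l)) → ∃ g, φ g = ρ := by
    intro ρ hρ
    let ρ1 : K →ₐ[Ef] Ω := { ρ with commutes' := fun e => (hagree hρ e).trans (hi1 e).symm }
    have h1 : Function.Injective (fun g : K ≃ₐ[Ef] K => σ1.comp (g : K →ₐ[Ef] K)) := by
      intro g g' h23
      ext a
      have h24 := congrArg (fun f : K →ₐ[Ef] Ω => f a) h23
      exact σ1.injective h24
    have h2 : Function.Bijective (fun g : K ≃ₐ[Ef] K => σ1.comp (g : K →ₐ[Ef] K)) := by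
      rw [Fintype.bijective_iff_injective_and_card]
      exact ⟨h1, by rw [hcardG, hcardΩ]⟩
    obtain ⟨g, hg⟩ := h2.2 ρ1
    refine ⟨g, ?_⟩
    ext a
    have h3 := congrArg (fun f : K →ₐ[Ef] Ω => f a) hg
    exact h3
  have hsum : ∑ g : K ≃ₐ[Ef] K, (c (φ g) : Ω) * σ (g (ω E')) = 0 := by
    rw [← hrel]
    have h2 : ∑ g : K ≃ₐ[Ef] K, (c (φ g) : Ω) * (φ g) (ω E') =
        ∑ ρ' ∈ Finset.univ.image φ, (c ρ' : Ω) * ρ' (ω E') :=
      (Finset.sum_image (f := fun ρ' : K →ₐ[ℂ] Ω => (c ρ' : Ω) * ρ' (ω E'))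
        fun ρ _ ρ' _ h => hφinj h).symm
    refine Eq.trans ?_ (Eq.trans h2 ?_)
    · exact Finset.sum_congr rfl fun g _ => by rw [hφ]
    symm
    refine Finset.sum_subset ?_ ?_
    · intro ρ hρ
      have h3 : ∀ l, ρ (z l) = σ (z l) := fun l => congrFun (Finset.mem_filter.1 hρ).2 l
      obtain ⟨ρ', hρ'⟩ := hφsurj ρ h3
      exact Finset.mem_image.2 ⟨ρ', Finset.mem_univ _, hρ'⟩
    · intro ρ hρ hρn
      obtain ⟨ρ', -, rfl⟩ := Finset.mem_image.1 hρ
      have h3 : c (φ ρ') = 0 := by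
        by_contra hne
        apply hρn
        refine Finset.mem_filter.2 ⟨Finsupp.mem_support_iff.2 hne, funext fun l => ?_⟩
        exact hφz ρ' ⟨z l, hzE l⟩
      rw [h3, Int.cast_zero, zero_mul]
  have hfin : algebraMap ℂ Ω (∑ g : K ≃ₐ[Ef] K, (c (φ g) : ℂ) * χ g) * σ (ω E') = 0 := by
    rw [← hsum, map_sum, Finset.sum_mul]
    refine Finset.sum_congr rfl fun g _ => ?_
    rw [heig E E' (fun i f => hE' i f) g, map_mul, map_mul, AlgHom.commutes, map_intCast]
    ring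
  rcases mul_eq_zero.1 hfin with h | h
  · exact (map_eq_zero (algebraMap ℂ Ω)).1 h
  · exact absurd ((map_eq_zero σ).1 h) hw

/-- **Few fibres of an abelian cover.** -/
theorem main3 [IsAlgClosed Ω] [Algebra.EssFiniteType ℂ K] {n : ℕ}
    (hK : Algebra.trdeg ℂ K = (n : ℕ)) {q M : ℕ} {z : Fin q → K} {Ef : IntermediateField ℂ K}
    (hEf : Ef = IntermediateField.adjoin ℂ (Set.range z)) [FiniteDimensional Ef K] [IsGalois Ef K]
    (hG : ∀ g h : K ≃ₐ[Ef] K, g * h = h * g)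
    (hforms : ∀ χ : (K ≃ₐ[Ef] K) →* ℂ, χ ≠ 1 → ∃ t : ℕ, t.Coprime (Module.finrank Ef K) ∧
      ∃ ω : (Fin n → Derivation ℂ K K) → K, ω ≠ 0 ∧
        (∀ (D : Fin n → Derivation ℂ Ef Ef) (D' : Fin n → Derivation ℂ K K),
          (∀ i (f : Ef), D' i (f : K) = (D i f : K)) →
            ∀ g : K ≃ₐ[Ef] K, g (ω D') = algebraMap ℂ K (χ g ^ t) * ω D') ∧
        ∀ a : Fin q → ℕ, ∑ l, a l ≤ M → GlobalForm n (fun D => (∏ l, z l ^ a l) * ω D))
    {c : (K →ₐ[ℂ] Ω) →₀ ℤ} (hc : NullTrace n c)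
    (hcard : Set.ncard {u : Fin q → Ω | ∃ σ : K →ₐ[ℂ] Ω, c σ ≠ 0 ∧ u = fun l => σ (z l)} ≤ M + 1) :
    ∃ c₁ : (Ef →ₐ[ℂ] Ω) →₀ ℤ, NullTrace n c₁ ∧ (∀ σ : K →ₐ[ℂ] Ω, c σ = c₁ (σ.comp Ef.val)) ∧
      ((∃ (F : IntermediateField ℂ Ef) (t : Ef), Transcendental F t ∧
        IntermediateField.adjoin F {t} = ⊤) → c ∈ Rat K Ω) := by
  classical
  have hcard' : (c.support.image fun σ l => σ (z l)).card ≤ M + 1 := by
    refine le_trans (le_of_eq ?_) hcard
    rw [← Set.ncard_coe_finset]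
    congr 1
    ext u
    rw [Finset.coe_image, Set.mem_image, Set.mem_ofPred_eq]
    constructor
    · rintro ⟨σ, hσ, rfl⟩
      exact ⟨σ, Finsupp.mem_support_iff.1 hσ, rfl⟩
    · rintro ⟨σ, hσ, rfl⟩
      exact ⟨σ, Finsupp.mem_support_iff.2 hσ, rfl⟩
  have hcE : CharZero Ef := charZero_of_injective_algebraMap (algebraMap ℂ _).injective
  have hcardG : Fintype.card (K ≃ₐ[Ef] K) = Module.finrank Ef K := by
    rw [← Nat.card_eq_fintype_card]
    exact IsGalois.card_aut_eq_finrank Ef K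
  have h1 : ∀ σ τ : K →ₐ[ℂ] Ω, (∀ e : Ef, σ (e : K) = τ (e : K)) → c σ = c τ := by
    intro σ τ h
    have hconst := const_of_chars hG
      (fun g => c (σ.comp ((g : K →ₐ[Ef] K).restrictScalars ℂ))) (fun χ hχ => by
        obtain ⟨t, ht, ω, hω0, heig, hglob⟩ := hforms χ hχ
        refine conj_sum (N := Module.finrank Ef K) (t := t) Module.finrank_pos ht χ ?_ _ ?_
        · intro g
          rw [← map_pow, ← hcardG, pow_card_eq_one, map_one]
        · exact eigen_rel hK hEf hω0 heig hglob hc hcard' σ)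
    -- `τ = σ ∘ g`
    let i1 : Algebra Ef Ω := (σ.toRingHom.comp (algebraMap Ef K)).toAlgebra
    have hi1 : ∀ e : Ef, algebraMap Ef Ω e = σ (e : K) := fun e => rfl
    let σ1 : K →ₐ[Ef] Ω := { σ with commutes' := fun e => (hi1 e).symm }
    let τ1 : K →ₐ[Ef] Ω := { τ with commutes' := fun e => (h e).symm.trans (hi1 e).symm }
    have hcardΩ : Fintype.card (K →ₐ[Ef] Ω) = Module.finrank Ef K := AlgHom.card _ _ _
    have h1 : Function.Injective (fun g : K ≃ₐ[Ef] K => σ1.comp (g : K →ₐ[Ef] K)) := by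
      intro g g' h23
      ext a
      have h24 := congrArg (fun f : K →ₐ[Ef] Ω => f a) h23
      exact σ1.injective h24
    have h2 : Function.Bijective (fun g : K ≃ₐ[Ef] K => σ1.comp (g : K →ₐ[Ef] K)) := by
      rw [Fintype.bijective_iff_injective_and_card]
      exact ⟨h1, by rw [hcardG, hcardΩ]⟩
    obtain ⟨g, hg⟩ := h2.2 τ1
    have h3 : σ.comp ((g : K →ₐ[Ef] K).restrictScalars ℂ) = τ := by
      ext a
      have h3 := congrArg (fun f : K →ₐ[Ef] Ω => f a) hg
      exact h3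
    have h4 : σ.comp (((1 : K ≃ₐ[Ef] K) : K →ₐ[Ef] K).restrictScalars ℂ) = σ := by
      ext a
      rfl
    have h5 := hconst 1 g
    simp only [h3, h4] at h5
    exact h5
  obtain ⟨c₁, hc₁, hcc⟩ := descend hK Ef hc h1
  refine ⟨c₁, hc₁, hcc, ?_⟩
  rintro ⟨F, t, ht, htop⟩
  exact rat_pulled Ef F t ht htop h1

end

end Pool.Agent.K6.H68.CC
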