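import Pool.Agent.K6.H68.CC.Char

/-!
The characters of a finite abelian group with a given kernel.
-/

set_option autoImplicit false

namespace Pool.Agent.K6.H68.CC

/-- the characters of a finite group are finitely many -/
theorem finite_chars {G : Type} [Group G] [Finite G] : Finite (G →* ℂ) := by
  classical
  have hG : Fintype G := Fintype.ofFinite G
  obtain ⟨N, hN⟩ : ∃ N, N = Fintype.card G := ⟨_, rfl⟩
  have hN0 : 0 < N := by
    rw [hN]
    exact Fintype.card_pos
  have hfin : Finite {x : ℂ // x ^ N = 1} := by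
    have h1 : Set.Finite {x : ℂ | x ^ N = 1} := by
      have h2 : {x : ℂ | x ^ N = 1} ⊆ ((Polynomial.X ^ N - Polynomial.C 1 : Polynomial ℂ).rootSet ℂ) := by
        intro x hx
        rw [Polynomial.mem_rootSet]
        refine ⟨Polynomial.X_pow_sub_C_ne_zero hN0 1, ?_⟩
        rw [map_sub, map_pow, Polynomial.aeval_X, Polynomial.aeval_C, map_one, sub_eq_zero]
        exact hx
      exact (Polynomial.rootSet_finite _ _).subset h2
    exact h1.to_subtype
  refine Finite.of_injective (fun χ : G →* ℂ => fun g : G => (⟨χ g, by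
    rw [← map_pow, hN, pow_card_eq_one, map_one]⟩ : {x : ℂ // x ^ N = 1})) ?_
  intro χ χ' h
  ext g
  have h1 := congrFun h g
  exact congrArg Subtype.val h1

/-- the sum over all characters -/
theorem sum_chars {G : Type} [Group G] [Fintype G] [Fintype (G →* ℂ)] [DecidableEq G]
    (hG : ∀ g h : G, g * h = h * g) (g : G) :
    ∑ χ : G →* ℂ, χ g = if g = 1 then (Fintype.card G : ℂ) else 0 := by
  classical
  let i0 : CommGroup G := { (inferInstance : Group G) with mul_comm := hG }
  have h1 := AddChar.sum_apply_eq_ite (Additive.ofMul g)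
  have h2 : ∑ χ : G →* ℂ, χ g = ∑ ψ : AddChar (Additive G) ℂ, ψ (Additive.ofMul g) := by
    let e : (G →* ℂ) ≃ AddChar (Additive G) ℂ :=
      { toFun := fun χ => ⟨fun a => χ (Additive.toMul a), χ.map_one, fun a b => χ.map_mul _ _⟩
        invFun := fun ψ =>
          { toFun := fun g => ψ (Additive.ofMul g)
            map_one' := by
              rw [ofMul_one, AddChar.map_zero_eq_one]
            map_mul' := fun a b => by
              rw [ofMul_mul, AddChar.map_add_eq_mul] }
        left_inv := fun χ => by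
          ext g
          rfl
        right_inv := fun ψ => by
          ext g
          rfl }
    exact Fintype.sum_equiv e _ _ fun χ => rfl
  rw [h2, h1]
  by_cases h3 : g = 1
  · rw [if_pos h3, if_pos (by rw [h3]; rfl), ← Nat.card_eq_fintype_card,
      ← Nat.card_eq_fintype_card]
    rfl
  · rw [if_neg h3, if_neg (fun h4 => h3 (ofMul_eq_zero.1 h4))]

/-- the sum over the characters which are trivial on `H` is an integer -/
theorem sum_ge_int {G : Type} [Group G] [Fintype G] [Fintype (G →* ℂ)] (H : Subgroup G) (g : G)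
    [DecidablePred fun χ : G →* ℂ => H ≤ χ.ker] :
    ∃ k : ℤ, (k : ℂ) = ∑ χ : G →* ℂ with H ≤ χ.ker, χ g := by
  classical
  by_cases h : ∀ χ : G →* ℂ, H ≤ χ.ker → χ g = 1
  · refine ⟨(Finset.univ.filter fun χ : G →* ℂ => H ≤ χ.ker).card, ?_⟩
    rw [Finset.sum_congr rfl fun χ hχ => h χ (Finset.mem_filter.1 hχ).2, Finset.sum_const,
      nsmul_eq_mul, mul_one]
    push_cast
    rfl
  · push Not at h
    obtain ⟨χ0, h0, h1⟩ := h
    refine ⟨0, ?_⟩
    have hinv : ∀ x : G, χ0 x * χ0 x⁻¹ = 1 := fun x => by
      rw [← map_mul, mul_inv_cancel, map_one]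
    have h2 : χ0 g * ∑ χ : G →* ℂ with H ≤ χ.ker, χ g = ∑ χ : G →* ℂ with H ≤ χ.ker, χ g := by
      rw [Finset.mul_sum]
      let χ1 : G →* ℂ :=
        { toFun := fun x => χ0 x⁻¹
          map_one' := by rw [inv_one, map_one]
          map_mul' := fun a b => by rw [mul_inv_rev, map_mul, mul_comm] }
      refine Finset.sum_bij' (fun χ _ => χ0 * χ) (fun χ _ => χ1 * χ) ?_ ?_ ?_ ?_ ?_
      · intro χ hχ
        rw [Finset.mem_filter] at hχ ⊢
        refine ⟨Finset.mem_univ _, fun x hx => ?_⟩
        have h3 := h0 hx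
        have h4 := hχ.2 hx
        rw [MonoidHom.mem_ker] at h3 h4 ⊢
        rw [MonoidHom.mul_apply, h3, h4, mul_one]
      · intro χ hχ
        rw [Finset.mem_filter] at hχ ⊢
        refine ⟨Finset.mem_univ _, fun x hx => ?_⟩
        have h3 := h0 (H.inv_mem hx)
        have h4 := hχ.2 hx
        rw [MonoidHom.mem_ker] at h3 h4 ⊢
        rw [MonoidHom.mul_apply, h4, mul_one]
        exact h3
      · intro χ _
        ext x
        change χ0 x⁻¹ * (χ0 x * χ x) = χ x
        rw [← mul_assoc, mul_comm (χ0 x⁻¹), hinv, one_mul]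
      · intro χ _
        ext x
        change χ0 x * (χ0 x⁻¹ * χ x) = χ x
        rw [← mul_assoc, hinv, one_mul]
      · intro χ _
        rfl
    have h3 : (χ0 g - 1) * ∑ χ : G →* ℂ with H ≤ χ.ker, χ g = 0 := by
      rw [sub_mul, h2, one_mul, sub_self]
    rcases mul_eq_zero.1 h3 with h4 | h4
    · exact absurd (sub_eq_zero.1 h4) h1
    · rw [h4, Int.cast_zero]

/-- the sum over the characters with kernel `H` is an integer -/
theorem sum_eq_int {G : Type} [Group G] [Fintype G] [Fintype (G →* ℂ)] [DecidableEq (Subgroup G)]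
    (g : G) (H : Subgroup G) : ∃ k : ℤ, (k : ℂ) = ∑ χ : G →* ℂ with χ.ker = H, χ g := by
  classical
  have hfin : Fintype (Subgroup G) := Fintype.ofFinite _
  induction H using WellFoundedGT.induction with
  | ind H ih =>
    choose f hf using ih
    obtain ⟨k, hk⟩ := sum_ge_int H g
    have h1 : ∑ χ : G →* ℂ with H ≤ χ.ker, χ g =
        ∑ H' : Subgroup G with H ≤ H', ∑ χ : G →* ℂ with χ.ker = H', χ g := by
      rw [← Finset.sum_fiberwise_of_maps_to (s := Finset.univ.filter fun χ : G →* ℂ => H ≤ χ.ker)
        (t := Finset.univ.filter fun H' : Subgroup G => H ≤ H') (g := fun χ => χ.ker)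
        (fun χ hχ => Finset.mem_filter.2 ⟨Finset.mem_univ _, (Finset.mem_filter.1 hχ).2⟩)]
      refine Finset.sum_congr rfl fun H' hH' => ?_
      refine Finset.sum_congr ?_ fun _ _ => rfl
      ext χ
      simp only [Finset.mem_filter, Finset.mem_univ, true_and]
      constructor
      · rintro ⟨-, h⟩
        exact h
      · intro h
        refine ⟨?_, h⟩
        rw [h]
        exact (Finset.mem_filter.1 hH').2
    have h2 : ∑ H' : Subgroup G with H ≤ H', ∑ χ : G →* ℂ with χ.ker = H', χ g =
        (∑ χ : G →* ℂ with χ.ker = H, χ g) +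
          ∑ H' : Subgroup G with H < H', ∑ χ : G →* ℂ with χ.ker = H', χ g := by
      have h3 : (Finset.univ.filter fun H' : Subgroup G => H ≤ H') =
          insert H (Finset.univ.filter fun H' : Subgroup G => H < H') := by
        ext H'
        simp only [Finset.mem_filter, Finset.mem_univ, true_and, Finset.mem_insert]
        rw [le_iff_eq_or_lt]
        constructor
        · rintro (h | h)
          · exact Or.inl h.symm
          · exact Or.inr h
        · rintro (h | h)
          · exact Or.inl h.symm
          · exact Or.inr h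
      rw [h3, Finset.sum_insert]
      simp
    refine ⟨k - ∑ H' ∈ (Finset.univ.filter fun H' : Subgroup G => H < H').attach,
      f H'.1 (Finset.mem_filter.1 H'.2).2, ?_⟩
    rw [Int.cast_sub, hk, h1, h2, Int.cast_sum]
    have h4 : ∑ H' ∈ (Finset.univ.filter fun H' : Subgroup G => H < H').attach,
        ((f H'.1 (Finset.mem_filter.1 H'.2).2 : ℤ) : ℂ) =
          ∑ H' : Subgroup G with H < H', ∑ χ : G →* ℂ with χ.ker = H', χ g := by
      rw [← Finset.sum_attach (Finset.univ.filter fun H' : Subgroup G => H < H')]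
      exact Finset.sum_congr rfl fun H' _ => hf _ _
    rw [h4]
    ring

end Pool.Agent.K6.H68.CC
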