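import Pool.Agent.K6.H68.CC.Abel
import Pool.Agent.K6.H68.CC.Char2

/-!
Correspondences which hit few fibres of an abelian cover, with ruled quotients.
-/

set_option autoImplicit false
set_option linter.overlappingInstances false
set_option linter.unusedSectionVars false
set_option linter.unusedDecidableInType false
set_option linter.unusedFintypeInType false
set_option linter.unusedVariables false
set_option maxHeartbeats 4000000
set_option synthInstance.maxHeartbeats 400000

open FF Module Pool.Agent.W602.GT Pool.Agent.N162.BC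

namespace Pool.Agent.K6.H68.CC

section

variable {K Ω : Type} [Field K] [Algebra ℂ K] [Field Ω] [Algebra ℂ Ω]

/-- The embeddings which agree on the fixed field of `H` are an orbit of `H`. -/
theorem orbit_of_agree [IsAlgClosed Ω] {Ef : IntermediateField ℂ K} [FiniteDimensional Ef K]
    [IsGalois Ef K]
    (H : Subgroup (K ≃ₐ[Ef] K)) {σ τ : K →ₐ[ℂ] Ω}
    (h : ∀ e : IntermediateField.fixedField H, σ (e : K) = τ (e : K)) :
    ∃ g ∈ H, τ = σ.comp ((g : K →ₐ[Ef] K).restrictScalars ℂ) := by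
  classical
  obtain ⟨L, hL⟩ : ∃ L, L = IntermediateField.fixedField H := ⟨_, rfl⟩
  have hfix : L.fixingSubgroup = H := by
    rw [hL]
    exact IntermediateField.fixingSubgroup_fixedField H
  rw [← hL] at h
  have hgal : IsGalois L K := by
    rw [hL]
    infer_instance
  have hcE : CharZero Ef := charZero_of_injective_algebraMap (algebraMap ℂ _).injective
  have hcL : CharZero L := charZero_of_injective_algebraMap (algebraMap Ef L).injective
  let i1 : Algebra L Ω := (σ.toRingHom.comp (algebraMap L K)).toAlgebra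
  have hi1 : ∀ e : L, algebraMap L Ω e = σ (e : K) := fun e => rfl
  let σ1 : K →ₐ[L] Ω := { σ with commutes' := fun e => (hi1 e).symm }
  let τ1 : K →ₐ[L] Ω := { τ with commutes' := fun e => (h e).symm.trans (hi1 e).symm }
  have hcardΩ : Fintype.card (K →ₐ[L] Ω) = Module.finrank L K := AlgHom.card _ _ _
  have hcardG : Fintype.card (K ≃ₐ[L] K) = Module.finrank L K := by
    rw [← Nat.card_eq_fintype_card]
    exact IsGalois.card_aut_eq_finrank L K
  have h1 : Function.Injective (fun g : K ≃ₐ[L] K => σ1.comp (g : K →ₐ[L] K)) := by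
    intro g g' h23
    ext a
    have h24 := congrArg (fun f : K →ₐ[L] Ω => f a) h23
    exact σ1.injective h24
  have h2 : Function.Bijective (fun g : K ≃ₐ[L] K => σ1.comp (g : K →ₐ[L] K)) := by
    rw [Fintype.bijective_iff_injective_and_card]
    exact ⟨h1, by rw [hcardG, hcardΩ]⟩
  obtain ⟨g, hg⟩ := h2.2 τ1
  refine ⟨g.restrictScalars Ef, ?_, ?_⟩
  · rw [← hfix, IntermediateField.mem_fixingSubgroup_iff]
    intro x hx
    exact g.commutes ⟨x, hx⟩
  · ext a
    have h3 := congrArg (fun f : K →ₐ[L] Ω => f a) hg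
    exact h3.symm

/-- **Few fibres of an abelian cover, with ruled quotients.** -/
theorem main4 [IsAlgClosed Ω] [Algebra.EssFiniteType ℂ K] {n : ℕ}
    (hK : Algebra.trdeg ℂ K = (n : ℕ)) {q M : ℕ} {z : Fin q → K} {Ef : IntermediateField ℂ K}
    (hEf : Ef = IntermediateField.adjoin ℂ (Set.range z)) [FiniteDimensional Ef K] [IsGalois Ef K]
    (hG : ∀ g h : K ≃ₐ[Ef] K, g * h = h * g)
    (hforms : ∀ χ : (K ≃ₐ[Ef] K) →* ℂ, (∃ t : ℕ, t.Coprime (Module.finrank Ef K) ∧
      ∃ ω : (Fin n → Derivation ℂ K K) → K, ω ≠ 0 ∧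
        (∀ (D : Fin n → Derivation ℂ Ef Ef) (D' : Fin n → Derivation ℂ K K),
          (∀ i (f : Ef), D' i (f : K) = (D i f : K)) →
            ∀ g : K ≃ₐ[Ef] K, g (ω D') = algebraMap ℂ K (χ g ^ t) * ω D') ∧
        ∀ a : Fin q → ℕ, ∑ l, a l ≤ M → GlobalForm n (fun D => (∏ l, z l ^ a l) * ω D)) ∨
      ∃ (F : IntermediateField ℂ ((IntermediateField.fixedField χ.ker).restrictScalars ℂ))
        (t : (IntermediateField.fixedField χ.ker).restrictScalars ℂ), Transcendental F t ∧
        IntermediateField.adjoin F {t} = ⊤)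
    {c : (K →ₐ[ℂ] Ω) →₀ ℤ} (hc : NullTrace n c)
    (hcard : Set.ncard {u : Fin q → Ω | ∃ σ : K →ₐ[ℂ] Ω, c σ ≠ 0 ∧ u = fun l => σ (z l)} ≤ M + 1) :
    Module.finrank Ef K • c ∈ Rat K Ω := by
  classical
  have hcard' : (c.support.image fun σ l => σ (z l)).card ≤ M + 1 := by
    refine le_trans (le_of_eq ?_) hcard
    rw [← Set.ncard_coe_finset]
    congr 1
    ext u
    rw [Finset.coe_image, Set.mem_image, Set.mem_ofPred_eq]
    constructor
    · rintro ⟨σ, hσ, rfl⟩
      exact ⟨σ, Finsupp.mem_support_iff.1 hσ, rfl⟩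
    · rintro ⟨σ, hσ, rfl⟩
      exact ⟨σ, Finsupp.mem_support_iff.2 hσ, rfl⟩
  have hcE : CharZero Ef := charZero_of_injective_algebraMap (algebraMap ℂ _).injective
  have hcardG : Fintype.card (K ≃ₐ[Ef] K) = Module.finrank Ef K := by
    rw [← Nat.card_eq_fintype_card]
    exact IsGalois.card_aut_eq_finrank Ef K
  have hfinG : Finite ((K ≃ₐ[Ef] K) →* ℂ) := finite_chars
  have hfinG' : Fintype ((K ≃ₐ[Ef] K) →* ℂ) := Fintype.ofFinite _
  have hfinS : Fintype (Subgroup (K ≃ₐ[Ef] K)) := Fintype.ofFinite _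
  choose r hr using fun (H : Subgroup (K ≃ₐ[Ef] K)) (g : K ≃ₐ[Ef] K) => sum_eq_int g H
  -- the components
  let φ : (K ≃ₐ[Ef] K) → (K →ₐ[ℂ] Ω) → (K →ₐ[ℂ] Ω) := fun g σ =>
    σ.comp ((g : K →ₐ[Ef] K).restrictScalars ℂ)
  have hφ : ∀ g σ (a : K), φ g σ a = σ (g a) := fun g σ a => rfl
  have hφinj : ∀ g, Function.Injective (φ g) := by
    intro g σ τ h
    ext a
    have h1 : φ g σ (g.symm a) = φ g τ (g.symm a) := by rw [h]
    rw [hφ, hφ, AlgEquiv.apply_symm_apply] at h1
    exact h1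
  obtain ⟨B, hB⟩ : ∃ B : Subgroup (K ≃ₐ[Ef] K) → ((K →ₐ[ℂ] Ω) →₀ ℤ),
      ∀ H σ, B H σ = ∑ g, r H g * c (φ g σ) := by
    refine ⟨fun H => ∑ g, r H g • c.comapDomain (φ g) (hφinj g).injOn, fun H σ => ?_⟩
    rw [Finsupp.finsetSum_apply]
    refine Finset.sum_congr rfl fun g _ => ?_
    rw [Finsupp.smul_apply, Finsupp.comapDomain_apply, smul_eq_mul]
  -- their sum
  have hsum : ∀ σ, ∑ H, B H σ = (Module.finrank Ef K : ℤ) * c σ := by
    intro σ
    have h1 : ∀ g : K ≃ₐ[Ef] K, ∑ H, (r H g : ℂ) = if g = 1 then (Fintype.card (K ≃ₐ[Ef] K) : ℂ)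
        else 0 := by
      intro g
      rw [← sum_chars hG g, Finset.sum_congr rfl fun H _ => hr H g]
      exact Finset.sum_fiberwise _ _ _
    have h2 : ((∑ H, B H σ : ℤ) : ℂ) = ((Module.finrank Ef K : ℤ) * c σ : ℤ) := by
      simp only [hB]
      push_cast
      rw [Finset.sum_comm]
      have h3 : ∀ g : K ≃ₐ[Ef] K, ∑ H, (r H g : ℂ) * (c (φ g σ) : ℂ) =
          if g = 1 then (Fintype.card (K ≃ₐ[Ef] K) : ℂ) * (c (φ g σ) : ℂ) else 0 := by
        intro g
        rw [← Finset.sum_mul, h1]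
        split_ifs
        · rfl
        · rw [zero_mul]
      rw [Finset.sum_congr rfl fun g _ => h3 g, Finset.sum_ite_eq' Finset.univ 1,
        if_pos (Finset.mem_univ _), hcardG]
      rfl
    exact_mod_cast h2
  have hsum' : Module.finrank Ef K • c = ∑ H, B H := by
    ext σ
    rw [Finsupp.finsetSum_apply, hsum, Finsupp.smul_apply, nsmul_eq_mul]
  rw [hsum']
  refine sum_mem fun H _ => ?_
  by_cases hchar : ∃ χ : (K ≃ₐ[Ef] K) →* ℂ, χ.ker = H ∧ ¬ ∃ t : ℕ,
      t.Coprime (Module.finrank Ef K) ∧ ∃ ω : (Fin n → Derivation ℂ K K) → K, ω ≠ 0 ∧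
        (∀ (D : Fin n → Derivation ℂ Ef Ef) (D' : Fin n → Derivation ℂ K K),
          (∀ i (f : Ef), D' i (f : K) = (D i f : K)) →
            ∀ g : K ≃ₐ[Ef] K, g (ω D') = algebraMap ℂ K (χ g ^ t) * ω D') ∧
        ∀ a : Fin q → ℕ, ∑ l, a l ≤ M → GlobalForm n (fun D => (∏ l, z l ^ a l) * ω D)
  · obtain ⟨χ, rfl, hχ⟩ := hchar
    obtain ⟨F, t, ht, htop⟩ := (hforms χ).resolve_left hχ
    have hfd : FiniteDimensional ((IntermediateField.fixedField χ.ker).restrictScalars ℂ) K :=
      inferInstanceAs (FiniteDimensional (IntermediateField.fixedField χ.ker) K)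
    refine rat_pulled ((IntermediateField.fixedField χ.ker).restrictScalars ℂ) F t ht htop ?_
    intro σ τ h
    obtain ⟨g0, hg0, rfl⟩ := orbit_of_agree χ.ker h
    rw [hB, hB]
    have hinv : ∀ g, r χ.ker (g0 * g) = r χ.ker g := by
      intro g
      have h1 : (r χ.ker (g0 * g) : ℂ) = (r χ.ker g : ℂ) := by
        rw [hr, hr]
        refine Finset.sum_congr rfl fun ψ hψ => ?_
        have h2 : g0 ∈ ψ.ker := by
          rw [(Finset.mem_filter.1 hψ).2]
          exact hg0
        rw [map_mul, MonoidHom.mem_ker.1 h2, one_mul]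
      exact_mod_cast h1
    refine Eq.trans ?_ (Fintype.sum_equiv (Equiv.mulLeft g0)
      (fun g => r χ.ker g * c (φ g (σ.comp ((g0 : K →ₐ[Ef] K).restrictScalars ℂ))))
      (fun g => r χ.ker g * c (φ g σ)) ?_).symm
    · rfl
    · intro g
      rw [Equiv.coe_mulLeft, hinv]
      rfl
  · push Not at hchar
    have h0 : B H = 0 := by
      ext σ
      rw [Finsupp.zero_apply]
      have h1 : ((B H σ : ℤ) : ℂ) = 0 := by
        rw [hB]
        push_cast
        rw [Finset.sum_congr rfl fun g _ => by rw [hr H g, Finset.sum_mul], Finset.sum_comm]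
        refine Finset.sum_eq_zero fun χ hχ => ?_
        obtain ⟨t, ht, ω, hω0, heig, hglob⟩ := hchar χ (Finset.mem_filter.1 hχ).2
        have h2 := conj_sum (N := Module.finrank Ef K) (t := t) Module.finrank_pos ht χ (by
          intro g
          rw [← map_pow, ← hcardG, pow_card_eq_one, map_one]) (fun g => c (φ g σ))
          (eigen_rel hK hEf hω0 heig hglob hc hcard' σ)
        rw [← h2]
        exact Finset.sum_congr rfl fun g _ => mul_comm _ _
      exact_mod_cast h1
    rw [h0]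
    exact zero_mem _

end

end Pool.Agent.K6.H68.CC
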