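import Pool.Agent.K6.H68.CC.Key

/-!
Integral relations between the conjugates of the elements `y ^ j / f'(y)`.
-/

set_option autoImplicit false

open Polynomial Module

namespace Pool.Agent.K6.H68.CC

section

variable {E K : Type} [Field E] [Field K] [Algebra E K] [CharZero E] [FiniteDimensional E K]

/-- Euler's formulas -/
theorem euler_sum {y : K} (hy : Algebra.adjoin E {y} = ⊤) {r : ℕ} (hr : r < finrank E K) :
    ∑ σ : K →ₐ[E] AlgebraicClosure E, σ (y ^ r / aeval y (derivative (minpoly E y))) =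
      if r = finrank E K - 1 then 1 else 0 := by
  have hint : IsIntegral E y := Algebra.IsIntegral.isIntegral y
  have hdeg : (minpoly E y).natDegree = finrank E K := by
    rw [← Field.primitive_element_iff_minpoly_natDegree_eq, ← IntermediateField.toSubalgebra_inj,
      IntermediateField.adjoin_simple_toSubalgebra_of_isAlgebraic hint.isAlgebraic, hy]
    rfl
  have h1 := sum_smul_minpolyDiv_eq_X_pow (AlgebraicClosure E) hy hr
  have h2 := congrArg (fun p => p.coeff (finrank E K - 1)) h1
  simp only [finsetSum_coeff, coeff_map, coeff_smul, smul_eq_mul, coeff_X_pow] at h2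
  have h3 : (minpolyDiv E y).coeff (finrank E K - 1) = 1 := by
    rw [← hdeg, ← natDegree_minpolyDiv]
    exact minpolyDiv_monic hint
  simp only [h3, mul_one] at h2
  rw [if_congr (Eq.comm (a := r)) rfl rfl, ← h2]
  rfl

theorem poly_of_rel {y : K} (hy : Algebra.adjoin E {y} = ⊤)
    (v : (K →ₐ[E] AlgebraicClosure E) → ℤ) {J : ℕ}
    (hrel : ∀ j ≤ J, ∑ σ : K →ₐ[E] AlgebraicClosure E, (v σ : AlgebraicClosure E) *
      σ (y ^ j / aeval y (derivative (minpoly E y))) = 0) :
    ∃ p : (AlgebraicClosure E)[X], p.natDegree ≤ finrank E K - 2 - J ∧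
      ∀ σ : K →ₐ[E] AlgebraicClosure E, p.eval (σ y) = v σ := by
  classical
  have hcard : Fintype.card (K →ₐ[E] AlgebraicClosure E) = finrank E K := AlgHom.card _ _ _
  have hx : Function.Injective (fun σ : K →ₐ[E] AlgebraicClosure E => σ y) := by
    intro σ τ h
    exact AlgHom.ext_of_adjoin_eq_top hy (fun _ hx => by
      rw [Set.mem_singleton_iff.1 hx]
      exact h)
  obtain ⟨p, hp⟩ : ∃ p, p = Lagrange.interpolate Finset.univ
    (fun σ : K →ₐ[E] AlgebraicClosure E => σ y) (fun σ => (v σ : AlgebraicClosure E)) := ⟨_, rfl⟩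
  have hpe : ∀ σ : K →ₐ[E] AlgebraicClosure E, p.eval (σ y) = v σ := by
    intro σ
    rw [hp]
    exact Lagrange.eval_interpolate_at_node (s := Finset.univ) (i := σ)
      (v := fun σ : K →ₐ[E] AlgebraicClosure E => σ y) (fun σ => (v σ : AlgebraicClosure E))
      hx.injOn (Finset.mem_univ σ)
  refine ⟨p, ?_, hpe⟩
  by_contra hcon
  push Not at hcon
  have hp0 : p ≠ 0 := by
    rintro h0
    rw [h0, natDegree_zero] at hcon
    omega
  have hdN : p.natDegree < finrank E K := by
    rw [natDegree_lt_iff_degree_lt hp0, hp, ← hcard]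
    exact Lagrange.degree_interpolate_lt _ hx.injOn
  obtain ⟨i, hi⟩ : ∃ i, i = finrank E K - 1 - p.natDegree := ⟨_, rfl⟩
  have h1 := hrel i (by omega)
  have h2 : ∑ σ : K →ₐ[E] AlgebraicClosure E, (v σ : AlgebraicClosure E) *
      σ (y ^ i / aeval y (derivative (minpoly E y))) = p.leadingCoeff := by
    have h3 : ∀ σ : K →ₐ[E] AlgebraicClosure E, (v σ : AlgebraicClosure E) *
        σ (y ^ i / aeval y (derivative (minpoly E y))) =
        ∑ k ∈ Finset.range (p.natDegree + 1), p.coeff k *
          σ (y ^ (k + i) / aeval y (derivative (minpoly E y))) := by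
      intro σ
      rw [← hpe, eval_eq_sum_range, Finset.sum_mul]
      refine Finset.sum_congr rfl fun k _ => ?_
      rw [map_div₀, map_div₀, map_pow, map_pow, pow_add]
      ring
    rw [Finset.sum_congr rfl fun σ _ => h3 σ, Finset.sum_comm,
      Finset.sum_eq_single p.natDegree]
    · rw [← Finset.mul_sum, euler_sum hy (by omega), if_pos (by omega), mul_one]
      rfl
    · intro k hk hkne
      have := Finset.mem_range.1 hk
      rw [← Finset.mul_sum, euler_sum hy (by omega), if_neg (by omega), mul_zero]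
    · intro h
      exact absurd (Finset.mem_range.2 (Nat.lt_succ_self _)) h
  rw [h2] at h1
  exact hp0 (leadingCoeff_eq_zero.1 h1)

/-- **Integral relations.** -/
theorem core2 [Algebra ℂ E] {y : K} (hy : Algebra.adjoin E {y} = ⊤)
    (hder : ∀ a : AlgebraicClosure E,
      (∀ D : Derivation ℂ (AlgebraicClosure E) (AlgebraicClosure E), D a = 0) →
      ∃ b : ℂ, algebraMap ℂ (AlgebraicClosure E) b = a)
    (v : (K →ₐ[E] AlgebraicClosure E) → ℤ) {J : ℕ} (hJ : finrank E K ≤ 2 * J + 3)
    (hrel : ∀ j ≤ J, ∑ σ : K →ₐ[E] AlgebraicClosure E, (v σ : AlgebraicClosure E) *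
      σ (y ^ j / aeval y (derivative (minpoly E y))) = 0)
    (σ τ : K →ₐ[E] AlgebraicClosure E) : v σ = v τ := by
  obtain ⟨p, hp, hpe⟩ := poly_of_rel hy v hrel
  have h0 : 0 < finrank E K := Module.finrank_pos
  refine key (fun σ τ h => ?_) hder v hpe (by omega) σ τ
  exact AlgHom.ext_of_adjoin_eq_top hy (fun _ hx => by
    rw [Set.mem_singleton_iff.1 hx]
    exact h)

end

end Pool.Agent.K6.H68.CC
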