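import Pool.Agent.K6.H68.CC.Base
import Pool.Agent.K6.H68.CC.Interp

/-!
Correspondences which hit few fibres of a finite map, without hypotheses on the monodromy.
-/

set_option autoImplicit false
set_option linter.overlappingInstances false
set_option linter.unusedSectionVars false
set_option linter.unusedDecidableInType false
set_option linter.unusedFintypeInType false
set_option linter.unusedVariables false
set_option maxHeartbeats 4000000
set_option synthInstance.maxHeartbeats 400000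

open FF Module Pool.Agent.W602.GT Pool.Agent.N162.BC Pool.Agent.W603.LV Polynomial

namespace Pool.Agent.K6.H68.CC

/-- elements which are killed by all derivations -/
theorem const_of_der {A : Type} [Field A] [Algebra ℂ A] (a : A)
    (h : ∀ D : Derivation ℂ A A, D a = 0) : ∃ b : ℂ, algebraMap ℂ A b = a := by
  by_cases ha : IsAlgebraic ℂ a
  · obtain ⟨b, hb⟩ := Pool.Agent.W602.GT.const_of_algebraic ha
    exact ⟨b, hb.symm⟩
  · exfalso
    have h1 : AlgebraicIndependent ℂ (fun _ : Fin 1 => a) :=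
      algebraicIndependent_unique_type_iff.2 ha
    obtain ⟨D, hD⟩ := exists_ders h1
    have h2 := hD 0 0
    rw [h, if_pos rfl] at h2
    exact zero_ne_one h2

section

variable {K Ω : Type} [Field K] [Algebra ℂ K] [Field Ω] [Algebra ℂ Ω]

/-- **The main step.** -/
theorem step2 [IsAlgClosed Ω] [Algebra.EssFiniteType ℂ K] {n : ℕ}
    (hK : Algebra.trdeg ℂ K = (n : ℕ)) {q M J : ℕ} {z : Fin q → K} {y : K}
    [FiniteDimensional (IntermediateField.adjoin ℂ (Set.range z)) K]
    (hy : Algebra.adjoin (IntermediateField.adjoin ℂ (Set.range z)) {y} = ⊤)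
    (hJ : Module.finrank (IntermediateField.adjoin ℂ (Set.range z)) K ≤ 2 * J + 3)
    {η : (Fin n → Derivation ℂ K K) → K} (hη0 : η ≠ 0)
    (hpull : ∀ (D : Fin n → Derivation ℂ (IntermediateField.adjoin ℂ (Set.range z))
      (IntermediateField.adjoin ℂ (Set.range z))) (D' : Fin n → Derivation ℂ K K),
      (∀ i (f : IntermediateField.adjoin ℂ (Set.range z)), D' i (f : K) = (D i f : K)) →
        η D' ∈ IntermediateField.adjoin ℂ (Set.range z))
    (hglob : ∀ (a : Fin q → ℕ) (j : ℕ), ∑ l, a l ≤ M → j ≤ J →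
      GlobalForm n (fun D => (∏ l, z l ^ a l) * y ^ j * (η D / aeval y (derivative
        (minpoly (IntermediateField.adjoin ℂ (Set.range z)) y)))))
    {c : (K →ₐ[ℂ] Ω) →₀ ℤ} (hc : NullTrace n c) [DecidableEq (Fin q → Ω)]
    (hcard : (c.support.image fun σ l => σ (z l)).card ≤ M + 1)
    {σ τ : K →ₐ[ℂ] Ω} (h : ∀ l, σ (z l) = τ (z l)) : c σ = c τ := by
  classical
  obtain ⟨Ef, hEf⟩ : ∃ Ef : IntermediateField ℂ K, Ef = IntermediateField.adjoin ℂ (Set.range z) :=
    ⟨_, rfl⟩
  have hzE : ∀ l, z l ∈ Ef := fun l => by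
    rw [hEf]
    exact IntermediateField.subset_adjoin _ _ ⟨l, rfl⟩
  have hagree : ∀ {ρ ρ' : K →ₐ[ℂ] Ω}, (∀ l, ρ (z l) = ρ' (z l)) → ∀ e : Ef,
      ρ (e : K) = ρ' (e : K) := by
    intro ρ ρ' h e
    refine agree h ?_
    rw [← hEf]
    exact e.2
  rw [← hEf] at hy hJ hpull hglob
  have hfd : FiniteDimensional Ef K := by
    rw [hEf]
    infer_instance
  have hEn : Algebra.trdeg ℂ Ef = (n : ℕ) := Pool.Agent.Y184.NT.trdeg_below (K := K) hK
  have hessE : Algebra.EssFiniteType ℂ Ef := Pool.Agent.TH466.QG.ess_below (K := K)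
  obtain ⟨x, E, hx, hE⟩ := Pool.Agent.Y172.exists_crd (k := ℂ) (K := Ef) hEn
  choose E' hE' using fun i => Pool.Agent.Y172.exists_lift (k := ℂ) (K := Ef) (L := K) hEn (E i)
  have hxK : IsTranscendenceBasis ℂ (fun j => algebraMap Ef K (x j)) := hx.algebraMap_comp
  have hE'd := Pool.Agent.Y172.lift_dual hE hE'
  have hcE : CharZero Ef := charZero_of_injective_algebraMap (algebraMap ℂ _).injective
  have hcK : CharZero K := charZero_of_injective_algebraMap (algebraMap ℂ _).injective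
  have hcA : CharZero (AlgebraicClosure Ef) := charZero_of_injective_algebraMap
    (algebraMap Ef (AlgebraicClosure Ef)).injective
  obtain ⟨g, hg⟩ : ∃ g : K, g = aeval y (derivative (minpoly Ef y)) := ⟨_, rfl⟩
  have hint : IsIntegral Ef y := Algebra.IsIntegral.isIntegral y
  have hg0 : g ≠ 0 := by
    rw [hg]
    exact (minpoly.irreducible hint).separable.aeval_derivative_ne_zero (minpoly.aeval Ef y)
  rw [← hg] at hglob
  -- the coefficient of `η`
  obtain ⟨e0, he0⟩ : ∃ e0 : Ef, (e0 : K) = η E' := ⟨⟨η E', hpull E E' hE'⟩, rfl⟩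
  have he0ne : (e0 : K) ≠ 0 := by
    intro h0
    apply hη0
    have h1 := (hglob (fun _ => 0) 0 (by simp) (Nat.zero_le _)).1
    simp only [pow_zero, Finset.prod_const_one, one_mul] at h1
    funext D
    have h2 := Pool.Agent.Y172.pluri_coord hxK hE'd h1 D
    rw [← he0, h0, zero_div, mul_zero] at h2
    rcases div_eq_zero_iff.1 h2 with h3 | h3
    · exact h3
    · exact absurd h3 hg0
  -- the vector fields on Ω
  have hcharΩ : CharZero Ω := charZero_of_injective_algebraMap (algebraMap ℂ Ω).injective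
  have hind : AlgebraicIndependent ℂ (fun j => σ (algebraMap Ef K (x j))) :=
    hxK.1.map' (f := σ) σ.injective
  obtain ⟨D, hD⟩ := exists_ders hind
  -- the relations
  have hrel0 : ∀ θ : (Fin n → Derivation ℂ K K) → K, (∀ a : Fin q → ℕ, ∑ l, a l ≤ M →
      GlobalForm n (fun D => (∏ l, z l ^ a l) * θ D)) →
      ∑ ρ ∈ c.support with (fun l => ρ (z l)) = fun l => σ (z l),
      (c ρ : Ω) * ρ (θ E') = 0 := by
    intro θ hθ
    have h1 : ∀ a : Fin q → ℕ, ∑ l, a l ≤ M → ∑ ρ ∈ c.support, (∏ l, ρ (z l) ^ a l) *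
        ((c ρ : Ω) * ((Matrix.of fun i j => D i (ρ (algebraMap Ef K (x j)))).det *
          ρ (θ E'))) = 0 := by
      intro a ha
      have h2 := hc (fun D => (∏ l, z l ^ a l) * θ D) (hθ a ha) _ E' hxK hE'd D
      rw [← h2]
      refine Finset.sum_congr rfl fun ρ _ => ?_
      unfold pullback
      rw [map_mul, map_prod]
      simp only [map_pow]
      ring
    have h4 := isolate c.support (fun ρ l => ρ (z l)) _ h1 (fun l => σ (z l)) hcard
    rw [← h4]
    refine Finset.sum_congr rfl fun ρ hρ => ?_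
    have h5 : ∀ l, ρ (z l) = σ (z l) := fun l => congrFun (Finset.mem_filter.1 hρ).2 l
    have h6 : (Matrix.of fun i j => D i (ρ (algebraMap Ef K (x j)))) = 1 := by
      ext i j
      have h7 : ρ (algebraMap Ef K (x j)) = σ (algebraMap Ef K (x j)) := hagree h5 (x j)
      rw [Matrix.of_apply, Matrix.one_apply, h7, hD]
    rw [h6, Matrix.det_one, one_mul]
  have hrel : ∀ j ≤ J, ∑ ρ ∈ c.support with (fun l => ρ (z l)) = fun l => σ (z l),
      (c ρ : Ω) * ρ (y ^ j / g) = 0 := by
    intro j hj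
    have h1 := hrel0 (fun D => y ^ j * (η D / g)) (fun a ha => by
      have h2 := hglob a j ha hj
      have h3 : (fun D : Fin n → Derivation ℂ K K => (∏ l, z l ^ a l) * (y ^ j * (η D / g))) =
          fun D => (∏ l, z l ^ a l) * y ^ j * (η D / g) := by
        funext D
        ring
      rw [h3]
      exact h2)
    have h4 : σ (e0 : K) ≠ 0 := by simpa using he0ne
    have h5 : σ (e0 : K) * ∑ ρ ∈ c.support with (fun l => ρ (z l)) = fun l => σ (z l),
        (c ρ : Ω) * ρ (y ^ j / g) = 0 := by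
      rw [← h1, Finset.mul_sum]
      refine Finset.sum_congr rfl fun ρ hρ => ?_
      have h6 : ∀ l, ρ (z l) = σ (z l) := fun l => congrFun (Finset.mem_filter.1 hρ).2 l
      rw [← hagree h6 e0, ← he0, map_div₀, map_mul, map_div₀]
      ring
    rcases mul_eq_zero.1 h5 with h6 | h6
    · exact absurd h6 h4
    · exact h6
  -- the structure over ℂ(z)
  let i1 : Algebra Ef Ω := (σ.toRingHom.comp (algebraMap Ef K)).toAlgebra
  have hi1 : ∀ e : Ef, algebraMap Ef Ω e = σ (e : K) := fun e => rfl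
  have i2 : IsScalarTower ℂ Ef Ω := IsScalarTower.of_algebraMap_eq fun c => by
    rw [hi1]
    exact (σ.commutes c).symm
  let ι : AlgebraicClosure Ef →ₐ[Ef] Ω := IsAlgClosed.lift
  let φ : (K →ₐ[Ef] AlgebraicClosure Ef) → (K →ₐ[ℂ] Ω) := fun ρ => (ι.comp ρ).restrictScalars ℂ
  have hφ : ∀ ρ (a : K), φ ρ a = ι (ρ a) := fun ρ a => rfl
  have hφinj : Function.Injective φ := by
    intro ρ ρ' hρ
    ext a
    have h1 : φ ρ a = φ ρ' a := by rw [hρ]
    rw [hφ, hφ] at h1
    exact ι.injective h1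
  have hφz : ∀ ρ (e : Ef), φ ρ (e : K) = σ (e : K) := by
    intro ρ e
    rw [hφ]
    have h1 : ρ (e : K) = algebraMap Ef _ e := ρ.commutes e
    rw [h1, ι.commutes, hi1]
  have hcardA : Fintype.card (K →ₐ[Ef] AlgebraicClosure Ef) = Module.finrank Ef K :=
    AlgHom.card _ _ _
  have hcardΩ : Fintype.card (K →ₐ[Ef] Ω) = Module.finrank Ef K := AlgHom.card _ _ _
  have hφsurj : ∀ ρ : K →ₐ[ℂ] Ω, (∀ l, ρ (z l) = σ (z l)) → ∃ ρ', φ ρ' = ρ := by
    intro ρ hρ
    let ρ1 : K →ₐ[Ef] Ω := { ρ with commutes' := fun e => (hagree hρ e).trans (hi1 e).symm }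
    have h1 : Function.Injective (fun ρ' : K →ₐ[Ef] AlgebraicClosure Ef => ι.comp ρ') := by
      intro ρ2 ρ3 h23
      apply hφinj
      change (ι.comp ρ2).restrictScalars ℂ = (ι.comp ρ3).restrictScalars ℂ
      exact congrArg (fun f : K →ₐ[Ef] Ω => f.restrictScalars ℂ) h23
    have h2 : Function.Bijective (fun ρ' : K →ₐ[Ef] AlgebraicClosure Ef => ι.comp ρ') := by
      rw [Fintype.bijective_iff_injective_and_card]
      exact ⟨h1, by rw [hcardA, hcardΩ]⟩
    obtain ⟨ρ', hρ'⟩ := h2.2 ρ1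
    refine ⟨ρ', ?_⟩
    ext a
    have h3 : (ι.comp ρ') a = ρ1 a := by
      have := congrArg (fun f : K →ₐ[Ef] Ω => f a) hρ'
      exact this
    exact h3
  have hsum : ∀ w : K, ∑ ρ ∈ c.support with (fun l => ρ (z l)) = (fun l => σ (z l)),
      (c ρ : Ω) * ρ w = 0 →
      ∑ ρ : K →ₐ[Ef] AlgebraicClosure Ef, (c (φ ρ) : AlgebraicClosure Ef) * ρ w = 0 := by
    intro w hw
    refine (map_eq_zero ι).1 ?_
    rw [map_sum, ← hw]
    have h1 : ∀ ρ : K →ₐ[Ef] AlgebraicClosure Ef,
        ι ((c (φ ρ) : AlgebraicClosure Ef) * ρ w) = (c (φ ρ) : Ω) * (φ ρ) w := by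
      intro ρ
      rw [map_mul, map_intCast, hφ]
    rw [Finset.sum_congr rfl fun ρ _ => h1 ρ]
    have h2 : ∑ ρ : K →ₐ[Ef] AlgebraicClosure Ef, (c (φ ρ) : Ω) * (φ ρ) w =
        ∑ ρ' ∈ Finset.univ.image φ, (c ρ' : Ω) * ρ' w :=
      (Finset.sum_image (f := fun ρ' : K →ₐ[ℂ] Ω => (c ρ' : Ω) * ρ' w)
        fun ρ _ ρ' _ h => hφinj h).symm
    rw [h2]
    symm
    refine Finset.sum_subset ?_ ?_
    · intro ρ hρ
      have h3 : ∀ l, ρ (z l) = σ (z l) := fun l => congrFun (Finset.mem_filter.1 hρ).2 l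
      obtain ⟨ρ', hρ'⟩ := hφsurj ρ h3
      exact Finset.mem_image.2 ⟨ρ', Finset.mem_univ _, hρ'⟩
    · intro ρ hρ hρn
      obtain ⟨ρ', -, rfl⟩ := Finset.mem_image.1 hρ
      have h3 : c (φ ρ') = 0 := by
        by_contra hne
        apply hρn
        refine Finset.mem_filter.2 ⟨Finsupp.mem_support_iff.2 hne, funext fun l => ?_⟩
        exact hφz ρ' ⟨z l, hzE l⟩
      rw [h3, Int.cast_zero, zero_mul]
  obtain ⟨σ', hσ'⟩ := hφsurj σ fun _ => rfl
  obtain ⟨τ', hτ'⟩ := hφsurj τ fun l => (h l).symm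
  have hfin := core2 hy (fun a ha => const_of_der a ha) (fun ρ => c (φ ρ)) hJ
    (fun j hj => by
      rw [← hg]
      exact hsum _ (hrel j hj)) σ' τ'
  simp only [hσ', hτ'] at hfin
  exact hfin

/-- **Few fibres, any monodromy.** -/
theorem main2 [IsAlgClosed Ω] [Algebra.EssFiniteType ℂ K] {n : ℕ}
    (hK : Algebra.trdeg ℂ K = (n : ℕ)) {q M J : ℕ} {z : Fin q → K} {y : K}
    [FiniteDimensional (IntermediateField.adjoin ℂ (Set.range z)) K]
    (hy : IntermediateField.adjoin ℂ (insert y (Set.range z)) = ⊤)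
    (hJ : Module.finrank (IntermediateField.adjoin ℂ (Set.range z)) K ≤ 2 * J + 3)
    {η : (Fin n → Derivation ℂ K K) → K} (hη0 : η ≠ 0)
    (hpull : ∀ (D : Fin n → Derivation ℂ (IntermediateField.adjoin ℂ (Set.range z))
      (IntermediateField.adjoin ℂ (Set.range z))) (D' : Fin n → Derivation ℂ K K),
      (∀ i (f : IntermediateField.adjoin ℂ (Set.range z)), D' i (f : K) = (D i f : K)) →
        η D' ∈ IntermediateField.adjoin ℂ (Set.range z))
    (hglob : ∀ (a : Fin q → ℕ) (j : ℕ), ∑ l, a l ≤ M → j ≤ J →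
      GlobalForm n (fun D => (∏ l, z l ^ a l) * y ^ j * (η D / aeval y (derivative
        (minpoly (IntermediateField.adjoin ℂ (Set.range z)) y)))))
    {c : (K →ₐ[ℂ] Ω) →₀ ℤ} (hc : NullTrace n c)
    (hcard : Set.ncard {u : Fin q → Ω | ∃ σ : K →ₐ[ℂ] Ω, c σ ≠ 0 ∧ u = fun l => σ (z l)} ≤ M + 1) :
    ∃ c₁ : ((IntermediateField.adjoin ℂ (Set.range z)) →ₐ[ℂ] Ω) →₀ ℤ, NullTrace n c₁ ∧
      (∀ σ : K →ₐ[ℂ] Ω, c σ = c₁ (σ.comp (IntermediateField.adjoin ℂ (Set.range z)).val)) ∧
      ((∃ (F : IntermediateField ℂ (IntermediateField.adjoin ℂ (Set.range z)))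
        (t : IntermediateField.adjoin ℂ (Set.range z)), Transcendental F t ∧
        IntermediateField.adjoin F {t} = ⊤) → c ∈ Rat K Ω) := by
  classical
  have hcard' : (c.support.image fun σ l => σ (z l)).card ≤ M + 1 := by
    refine le_trans (le_of_eq ?_) hcard
    rw [← Set.ncard_coe_finset]
    congr 1
    ext u
    rw [Finset.coe_image, Set.mem_image, Set.mem_ofPred_eq]
    constructor
    · rintro ⟨σ, hσ, rfl⟩
      exact ⟨σ, Finsupp.mem_support_iff.1 hσ, rfl⟩
    · rintro ⟨σ, hσ, rfl⟩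
      exact ⟨σ, Finsupp.mem_support_iff.2 hσ, rfl⟩
  have hyA : Algebra.adjoin (IntermediateField.adjoin ℂ (Set.range z)) {y} = ⊤ := by
    have h1 : IntermediateField.adjoin (IntermediateField.adjoin ℂ (Set.range z)) {y} = ⊤ := by
      rw [eq_top_iff]
      intro a _
      obtain ⟨G, hG⟩ : ∃ G : IntermediateField (IntermediateField.adjoin ℂ (Set.range z)) K,
        G = IntermediateField.adjoin (IntermediateField.adjoin ℂ (Set.range z)) {y} := ⟨_, rfl⟩
      rw [← hG]
      have h2 : a ∈ IntermediateField.adjoin ℂ (insert y (Set.range z)) := by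
        rw [hy]
        trivial
      induction h2 using IntermediateField.adjoin_induction with
      | mem e he =>
        rcases he with rfl | ⟨i, rfl⟩
        · rw [hG]
          exact IntermediateField.mem_adjoin_simple_self _ _
        · exact G.algebraMap_mem ⟨z i, IntermediateField.subset_adjoin _ _ ⟨i, rfl⟩⟩
      | algebraMap b => exact G.algebraMap_mem (algebraMap ℂ _ b)
      | add a b _ _ ha hb => exact add_mem (ha trivial) (hb trivial)
      | inv a _ ha => exact inv_mem (ha trivial)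
      | mul a b _ _ ha hb => exact mul_mem (ha trivial) (hb trivial)
    have hint : IsIntegral (IntermediateField.adjoin ℂ (Set.range z)) y :=
      Algebra.IsIntegral.isIntegral y
    rw [← IntermediateField.adjoin_simple_toSubalgebra_of_isAlgebraic hint.isAlgebraic, h1]
    rfl
  have h1 : ∀ σ τ : K →ₐ[ℂ] Ω, (∀ e : IntermediateField.adjoin ℂ (Set.range z),
      σ (e : K) = τ (e : K)) → c σ = c τ := fun σ τ h =>
    step2 hK hyA hJ hη0 hpull hglob hc hcard' fun l =>
      h ⟨z l, IntermediateField.subset_adjoin _ _ ⟨l, rfl⟩⟩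
  obtain ⟨c₁, hc₁, hcc⟩ := descend hK (IntermediateField.adjoin ℂ (Set.range z)) hc h1
  refine ⟨c₁, hc₁, hcc, ?_⟩
  rintro ⟨F, t, ht, htop⟩
  exact rat_pulled (IntermediateField.adjoin ℂ (Set.range z)) F t ht htop h1

end

end Pool.Agent.K6.H68.CC
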