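import Pool.Agent.K6.H68.CC.Fin
import Pool.Agent.N162.PR.Lift

/-!
Correspondences which hit few fibres of a generically finite map: maps to arbitrary varieties.
-/

set_option autoImplicit false
set_option linter.overlappingInstances false
set_option linter.unusedSectionVars false
set_option linter.unusedDecidableInType false
set_option linter.unusedFintypeInType false
set_option linter.unusedVariables false
set_option maxHeartbeats 4000000
set_option synthInstance.maxHeartbeats 400000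

open FF Module Pool.Agent.W602.GT Pool.Agent.N162.BC Pool.Agent.W603.LV

namespace Pool.Agent.K6.H68.CC

section pull

variable {E K : Type} [Field E] [Field K] [Algebra ℂ E] [Algebra ℂ K] [Algebra E K]
  [IsScalarTower ℂ E K] {n : ℕ}

/-- the pullback of a form -/
noncomputable def pull (z : Fin n → E) (F : Fin n → Derivation ℂ E E)
    (ω : (Fin n → Derivation ℂ E E) → E) (D : Fin n → Derivation ℂ K K) : K :=
  (Matrix.of fun i j => D i (algebraMap E K (z j))).det * algebraMap E K (ω F)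

theorem pull_pluri (z : Fin n → E) (F : Fin n → Derivation ℂ E E)
    (ω : (Fin n → Derivation ℂ E E) → E) : IsPluri 1 (pull (K := K) z F ω) := by
  intro A D
  unfold pull
  have h1 : (Matrix.of fun i j => (∑ k, A i k • D k) (algebraMap E K (z j))) =
      A * Matrix.of fun i j => D i (algebraMap E K (z j)) := by
    ext i j
    rw [Matrix.mul_apply, Matrix.of_apply]
    have h2 : ∀ (s : Finset (Fin n)) (y : K), (∑ k ∈ s, A i k • D k) y =
        ∑ k ∈ s, A i k * D k y := by
      intro s y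
      induction s using Finset.induction_on with
      | empty => simp
      | insert a s ha ih =>
        rw [Finset.sum_insert ha, Finset.sum_insert ha, Derivation.add_apply, ih,
          Derivation.smul_apply, smul_eq_mul]
    exact h2 _ _
  rw [h1, Matrix.det_mul, pow_one, mul_assoc]

/-- pullbacks of global forms are global forms -/
theorem pull_global [FiniteDimensional E K] [Algebra.EssFiniteType ℂ E]
    (hn : Algebra.trdeg ℂ E = (n : ℕ)) {z : Fin n → E} {F : Fin n → Derivation ℂ E E}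
    (hz : IsTranscendenceBasis ℂ z) (hF : ∀ i j, F i (z j) = if i = j then 1 else 0)
    {η : (Fin n → Derivation ℂ E E) → E} (hη : GlobalForm n η) :
    GlobalForm n (pull (K := K) z F η) := by
  refine ⟨pull_pluri z F η, fun Q hQ D hD => ?_⟩
  obtain ⟨P, e, hPQ⟩ := Pool.Agent.Y172.exists_below (K := E) Q
  have hP : Divisorial n P := Pool.Agent.Y172.divisorial_down hPQ hQ
  obtain ⟨y, G, i0, hl⟩ := Pool.Agent.Y172.exists_loc hn hP
  have hch : pull z F η D = (Matrix.of fun i j => D i (algebraMap E K (y j))).det *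
      algebraMap E K (η G) := by
    have h1 := Pool.Agent.W73.PG.PULL.form_eq (L := K) z y hz hl.bas F G hF hl.dual η hη.1 D
    rw [pow_one, pow_one] at h1
    exact h1
  change Q.Reg (pull z F η D)
  rw [hch]
  have h1 := Pool.Agent.Y172.pull_reg hPQ hl hD (m := 1) (ω := η) (b := 0)
    (hη.2 P hP G fun i => hl.pres i)
  rw [pow_one, mul_zero, add_zero] at h1
  refine h1.mono ?_
  have := hPQ.1
  push_cast
  omega

end pull

section

variable {K Ω : Type} [Field K] [Algebra ℂ K] [Field Ω] [Algebra ℂ Ω]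

/-- **The main step**, for maps to an arbitrary variety. -/
theorem step' [IsAlgClosed Ω] [Algebra.EssFiniteType ℂ K] {n : ℕ}
    (hK : Algebra.trdeg ℂ K = (n : ℕ)) {q M : ℕ} {z : Fin q → K}
    [FiniteDimensional (IntermediateField.adjoin ℂ (Set.range z)) K]
    (hmon : (Module.finrank (IntermediateField.adjoin ℂ (Set.range z)) K).Prime ∨
      DoublyTransitive (IntermediateField.adjoin ℂ (Set.range z)) K)
    {ω : (Fin n → Derivation ℂ K K) → K}
    (hnp : ∃ (D : Fin n → Derivation ℂ (IntermediateField.adjoin ℂ (Set.range z))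
      (IntermediateField.adjoin ℂ (Set.range z))) (D' : Fin n → Derivation ℂ K K),
      (∀ i (f : IntermediateField.adjoin ℂ (Set.range z)), D' i (f : K) = (D i f : K)) ∧
        ω D' ∉ IntermediateField.adjoin ℂ (Set.range z))
    (hglob : ∀ a : Fin q → ℕ, ∑ l, a l ≤ M →
      GlobalForm n (fun D => (∏ l, z l ^ a l) * ω D))
    {c : (K →ₐ[ℂ] Ω) →₀ ℤ} (hc : NullTrace n c) [DecidableEq (Fin q → Ω)]
    (hcard : (c.support.image fun σ l => σ (z l)).card ≤ M + 1)
    {σ τ : K →ₐ[ℂ] Ω} (h : ∀ l, σ (z l) = τ (z l)) : c σ = c τ := by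
  classical
  obtain ⟨Ef, hEf⟩ : ∃ Ef : IntermediateField ℂ K, Ef = IntermediateField.adjoin ℂ (Set.range z) :=
    ⟨_, rfl⟩
  have hzE : ∀ l, z l ∈ Ef := fun l => by
    rw [hEf]
    exact IntermediateField.subset_adjoin _ _ ⟨l, rfl⟩
  have hagree : ∀ {ρ ρ' : K →ₐ[ℂ] Ω}, (∀ l, ρ (z l) = ρ' (z l)) → ∀ e : Ef,
      ρ (e : K) = ρ' (e : K) := by
    intro ρ ρ' h e
    refine agree h ?_
    rw [← hEf]
    exact e.2
  have hωz := hglob (fun _ => 0) (by simp)
  simp only [pow_zero, Finset.prod_const_one, one_mul] at hωz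
  have hω : IsPluri 1 ω := hωz.1
  rw [← hEf] at hmon hnp
  have hfd : FiniteDimensional Ef K := by
    rw [hEf]
    infer_instance
  have hEn : Algebra.trdeg ℂ Ef = (n : ℕ) := Pool.Agent.Y184.NT.trdeg_below (K := K) hK
  have hessE : Algebra.EssFiniteType ℂ Ef := Pool.Agent.TH466.QG.ess_below (K := K)
  obtain ⟨y, E, hy, hE⟩ := Pool.Agent.Y172.exists_crd (k := ℂ) (K := Ef) hEn
  choose E' hE' using fun i => Pool.Agent.Y172.exists_lift (k := ℂ) (K := Ef) (L := K) hEn (E i)
  have hyK : IsTranscendenceBasis ℂ (fun j => algebraMap Ef K (y j)) := hy.algebraMap_comp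
  have hE'd := Pool.Agent.Y172.lift_dual hE hE'
  have hcE : CharZero Ef := charZero_of_injective_algebraMap (algebraMap ℂ _).injective
  have hcK : CharZero K := charZero_of_injective_algebraMap (algebraMap ℂ _).injective
  have hcA : CharZero (AlgebraicClosure Ef) := charZero_of_injective_algebraMap
    (algebraMap Ef (AlgebraicClosure Ef)).injective
  obtain ⟨N, hN⟩ : ∃ N, N = Module.finrank Ef K := ⟨_, rfl⟩
  have hN0 : N ≠ 0 := by
    rw [hN]
    exact Module.finrank_pos.ne'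
  obtain ⟨t, ht⟩ : ∃ t, t = Algebra.trace Ef K (ω E') := ⟨_, rfl⟩
  obtain ⟨w, hwdef⟩ : ∃ w : K, w = (N : K) * ω E' - algebraMap Ef K t := ⟨_, rfl⟩
  have hw : w ≠ 0 := by
    intro h0
    obtain ⟨D, D', hDD, hnot⟩ := hnp
    apply hnot
    have h1 : ω E' = algebraMap Ef K ((N : Ef)⁻¹ * t) := by
      have h2 : (N : K) * ω E' = algebraMap Ef K t := by
        rw [hwdef, sub_eq_zero] at h0
        exact h0
      have h3 : (N : K) ≠ 0 := Nat.cast_ne_zero.2 hN0
      rw [map_mul, map_inv₀, map_natCast, ← h2]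
      field_simp
    rw [Pool.Agent.Y172.pluri_coord hyK hE'd hω D', pow_one, h1]
    have h4 : (Matrix.of fun i j => D' i (algebraMap Ef K (y j))) =
        (Matrix.of fun i j => D i (y j)).map (algebraMap Ef K) := by
      ext i j
      exact hDD i (y j)
    have h5 : ((Matrix.of fun i j => D i (y j)).map (algebraMap Ef K)).det =
        algebraMap Ef K (Matrix.of fun i j => D i (y j)).det :=
      (RingHom.map_det (algebraMap Ef K) _).symm
    rw [h4, h5, ← map_mul]
    exact ((Matrix.of fun i j => D i (y j)).det * ((N : Ef)⁻¹ * t) : Ef).2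
  have htr : Algebra.trace Ef K w = 0 := by
    have h1 : (N : K) * ω E' = (N : Ef) • ω E' := by
      rw [Algebra.smul_def, map_natCast]
    rw [hwdef, map_sub, Algebra.trace_algebraMap, h1, map_smul, ← ht, ← hN, smul_eq_mul,
      nsmul_eq_mul, sub_self]
  -- the vector fields on Ω
  have hcharΩ : CharZero Ω := charZero_of_injective_algebraMap (algebraMap ℂ Ω).injective
  have hind : AlgebraicIndependent ℂ (fun j => σ (algebraMap Ef K (y j))) :=
    hyK.1.map' (f := σ) σ.injective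
  obtain ⟨D, hD⟩ := exists_ders hind
  -- the relations
  have hrel0 : ∀ θ : (Fin n → Derivation ℂ K K) → K, (∀ a : Fin q → ℕ, ∑ l, a l ≤ M →
      GlobalForm n (fun D => (∏ l, z l ^ a l) * θ D)) →
      ∑ ρ ∈ c.support with (fun l => ρ (z l)) = fun l => σ (z l),
      (c ρ : Ω) * ρ (θ E') = 0 := by
    intro θ hθ
    have h1 : ∀ a : Fin q → ℕ, ∑ l, a l ≤ M → ∑ ρ ∈ c.support, (∏ l, ρ (z l) ^ a l) *
        ((c ρ : Ω) * ((Matrix.of fun i j => D i (ρ (algebraMap Ef K (y j)))).det *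
          ρ (θ E'))) = 0 := by
      intro a ha
      have h2 := hc (fun D => (∏ l, z l ^ a l) * θ D) (hθ a ha) _ E' hyK hE'd D
      rw [← h2]
      refine Finset.sum_congr rfl fun ρ _ => ?_
      unfold pullback
      rw [map_mul, map_prod]
      simp only [map_pow]
      ring
    have h4 := isolate c.support (fun ρ l => ρ (z l)) _ h1 (fun l => σ (z l)) hcard
    rw [← h4]
    refine Finset.sum_congr rfl fun ρ hρ => ?_
    have h5 : ∀ l, ρ (z l) = σ (z l) := fun l => congrFun (Finset.mem_filter.1 hρ).2 l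
    have h6 : (Matrix.of fun i j => D i (ρ (algebraMap Ef K (y j)))) = 1 := by
      ext i j
      have h7 : ρ (algebraMap Ef K (y j)) = σ (algebraMap Ef K (y j)) := hagree h5 (y j)
      rw [Matrix.of_apply, Matrix.one_apply, h7, hD]
    rw [h6, Matrix.det_one, one_mul]
  have hrel1 := hrel0 ω hglob
  have hrel2 : ∑ ρ ∈ c.support with (fun l => ρ (z l)) = fun l => σ (z l),
      (c ρ : Ω) * ρ (algebraMap Ef K t) = 0 := by
    have h1 := hrel0 (pull (K := K) y E (stdForm y t)) (fun a ha => by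
      obtain ⟨za, hza⟩ : ∃ za : Ef, (za : K) = ∏ l, z l ^ a l := by
        have h2 : ∏ l, z l ^ a l ∈ Ef := Ef.toSubfield.prod_mem fun l _ =>
          Ef.toSubfield.pow_mem (hzE l) _
        exact ⟨⟨_, h2⟩, rfl⟩
      have h3 := Pool.Agent.N162.PR.tr_global hEn hy hE hE' (hglob a ha)
      have h4 := pull_global (K := K) hEn hy hE h3
      have h5 : (fun D : Fin n → Derivation ℂ K K => (∏ l, z l ^ a l) *
          pull (K := K) y E (stdForm y t) D) =
          pull (K := K) y E (stdForm y (Algebra.trace Ef K ((∏ l, z l ^ a l) * ω E'))) := by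
        funext D
        unfold pull
        rw [stdForm_dual _ _ hE, stdForm_dual _ _ hE, ← hza]
        have h6 : Algebra.trace Ef K ((za : K) * ω E') = za * t := by
          have h7 : (za : K) * ω E' = za • ω E' := by
            rw [Algebra.smul_def]
            rfl
          rw [h7, map_smul, ← ht, smul_eq_mul]
        rw [h6, map_mul]
        have h8 : algebraMap Ef K za = (za : K) := rfl
        rw [h8]
        ring
      rw [h5]
      exact h4)
    have h9 : pull (K := K) y E (stdForm y t) E' = algebraMap Ef K t := by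
      unfold pull
      have h10 : (Matrix.of fun i j => E' i (algebraMap Ef K (y j))) = 1 := by
        ext i j
        rw [Matrix.of_apply, Matrix.one_apply, hE'd]
      rw [h10, Matrix.det_one, one_mul, stdForm_dual _ _ hE]
    rw [h9] at h1
    exact h1
  have hrel : ∑ ρ ∈ c.support with (fun l => ρ (z l)) = fun l => σ (z l),
      (c ρ : Ω) * ρ w = 0 := by
    have h1 : ∀ ρ : K →ₐ[ℂ] Ω, (c ρ : Ω) * ρ w = (N : Ω) * ((c ρ : Ω) * ρ (ω E')) -
        (c ρ : Ω) * ρ (algebraMap Ef K t) := by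
      intro ρ
      rw [hwdef, map_sub, map_mul, map_natCast]
      ring
    rw [Finset.sum_congr rfl fun ρ _ => h1 ρ, Finset.sum_sub_distrib, ← Finset.mul_sum, hrel1,
      hrel2, mul_zero, sub_zero]
  -- the structure over ℂ(z)
  let i1 : Algebra Ef Ω := (σ.toRingHom.comp (algebraMap Ef K)).toAlgebra
  have hi1 : ∀ e : Ef, algebraMap Ef Ω e = σ (e : K) := fun e => rfl
  have i2 : IsScalarTower ℂ Ef Ω := IsScalarTower.of_algebraMap_eq fun c => by
    rw [hi1]
    exact (σ.commutes c).symm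
  let ι : AlgebraicClosure Ef →ₐ[Ef] Ω := IsAlgClosed.lift
  let φ : (K →ₐ[Ef] AlgebraicClosure Ef) → (K →ₐ[ℂ] Ω) := fun ρ => (ι.comp ρ).restrictScalars ℂ
  have hφ : ∀ ρ (a : K), φ ρ a = ι (ρ a) := fun ρ a => rfl
  have hφinj : Function.Injective φ := by
    intro ρ ρ' hρ
    ext a
    have h1 : φ ρ a = φ ρ' a := by rw [hρ]
    rw [hφ, hφ] at h1
    exact ι.injective h1
  have hφz : ∀ ρ (e : Ef), φ ρ (e : K) = σ (e : K) := by
    intro ρ e
    rw [hφ]
    have h1 : ρ (e : K) = algebraMap Ef _ e := ρ.commutes e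
    rw [h1, ι.commutes, hi1]
  have hcardA : Fintype.card (K →ₐ[Ef] AlgebraicClosure Ef) = Module.finrank Ef K :=
    AlgHom.card _ _ _
  have hcardΩ : Fintype.card (K →ₐ[Ef] Ω) = Module.finrank Ef K := AlgHom.card _ _ _
  have hφsurj : ∀ ρ : K →ₐ[ℂ] Ω, (∀ l, ρ (z l) = σ (z l)) → ∃ ρ', φ ρ' = ρ := by
    intro ρ hρ
    let ρ1 : K →ₐ[Ef] Ω := { ρ with commutes' := fun e => (hagree hρ e).trans (hi1 e).symm }
    have h1 : Function.Injective (fun ρ' : K →ₐ[Ef] AlgebraicClosure Ef => ι.comp ρ') := by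
      intro ρ2 ρ3 h23
      apply hφinj
      change (ι.comp ρ2).restrictScalars ℂ = (ι.comp ρ3).restrictScalars ℂ
      exact congrArg (fun f : K →ₐ[Ef] Ω => f.restrictScalars ℂ) h23
    have h2 : Function.Bijective (fun ρ' : K →ₐ[Ef] AlgebraicClosure Ef => ι.comp ρ') := by
      rw [Fintype.bijective_iff_injective_and_card]
      exact ⟨h1, by rw [hcardA, hcardΩ]⟩
    obtain ⟨ρ', hρ'⟩ := h2.2 ρ1
    refine ⟨ρ', ?_⟩
    ext a
    have h3 : (ι.comp ρ') a = ρ1 a := by
      have := congrArg (fun f : K →ₐ[Ef] Ω => f a) hρ'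
      exact this
    exact h3
  have hsum : ∑ ρ : K →ₐ[Ef] AlgebraicClosure Ef, (c (φ ρ) : AlgebraicClosure Ef) * ρ w = 0 := by
    refine (map_eq_zero ι).1 ?_
    rw [map_sum, ← hrel]
    have h1 : ∀ ρ : K →ₐ[Ef] AlgebraicClosure Ef,
        ι ((c (φ ρ) : AlgebraicClosure Ef) * ρ w) = (c (φ ρ) : Ω) * (φ ρ) w := by
      intro ρ
      rw [map_mul, map_intCast, hφ]
    rw [Finset.sum_congr rfl fun ρ _ => h1 ρ]
    have h2 : ∑ ρ : K →ₐ[Ef] AlgebraicClosure Ef, (c (φ ρ) : Ω) * (φ ρ) w =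
        ∑ ρ' ∈ Finset.univ.image φ, (c ρ' : Ω) * ρ' w :=
      (Finset.sum_image (f := fun ρ' : K →ₐ[ℂ] Ω => (c ρ' : Ω) * ρ' w)
        fun ρ _ ρ' _ h => hφinj h).symm
    rw [h2]
    symm
    refine Finset.sum_subset ?_ ?_
    · intro ρ hρ
      have h3 : ∀ l, ρ (z l) = σ (z l) := fun l => congrFun (Finset.mem_filter.1 hρ).2 l
      obtain ⟨ρ', hρ'⟩ := hφsurj ρ h3
      exact Finset.mem_image.2 ⟨ρ', Finset.mem_univ _, hρ'⟩
    · intro ρ hρ hρn
      obtain ⟨ρ', -, rfl⟩ := Finset.mem_image.1 hρ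
      have h3 : c (φ ρ') = 0 := by
        by_contra hne
        apply hρn
        refine Finset.mem_filter.2 ⟨Finsupp.mem_support_iff.2 hne, funext fun l => ?_⟩
        exact hφz ρ' ⟨z l, hzE l⟩
      rw [h3, Int.cast_zero, zero_mul]
  have hζ : ∀ N : ℕ, 0 < N → ∃ ζ : AlgebraicClosure Ef, IsPrimitiveRoot ζ N := by
    intro N hN
    let f : ℂ →+* AlgebraicClosure Ef := (algebraMap Ef (AlgebraicClosure Ef)).comp
      (algebraMap ℂ Ef)
    exact ⟨_, (Complex.isPrimitiveRoot_exp N hN.ne').map_of_injective f.injective⟩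
  obtain ⟨σ', hσ'⟩ := hφsurj σ fun _ => rfl
  obtain ⟨τ', hτ'⟩ := hφsurj τ fun l => (h l).symm
  have hfin := core hmon hζ hw htr (fun ρ => c (φ ρ)) hsum σ' τ'
  simp only [hσ', hτ'] at hfin
  exact hfin

/-- A cycle with null trace which is pulled back is the pullback of a cycle with null trace. -/
theorem descend [IsAlgClosed Ω] {n : ℕ} (hK : Algebra.trdeg ℂ K = (n : ℕ))
    [Algebra.EssFiniteType ℂ K] (Ef : IntermediateField ℂ K) [FiniteDimensional Ef K]
    {c : (K →ₐ[ℂ] Ω) →₀ ℤ} (hc : NullTrace n c)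
    (h : ∀ σ τ : K →ₐ[ℂ] Ω, (∀ e : Ef, σ (e : K) = τ (e : K)) → c σ = c τ) :
    ∃ c₁ : (Ef →ₐ[ℂ] Ω) →₀ ℤ, NullTrace n c₁ ∧ ∀ σ : K →ₐ[ℂ] Ω, c σ = c₁ (σ.comp Ef.val) := by
  classical
  have hEn : Algebra.trdeg ℂ Ef = (n : ℕ) := Pool.Agent.Y184.NT.trdeg_below (K := K) hK
  have hessE : Algebra.EssFiniteType ℂ Ef := Pool.Agent.TH466.QG.ess_below (K := K)
  have hcharΩ : CharZero Ω := charZero_of_injective_algebraMap (algebraMap ℂ Ω).injective
  have hlift : ∀ q : Ef →ₐ[ℂ] Ω, ∃ σ : K →ₐ[ℂ] Ω, σ.comp Ef.val = q := by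
    intro q
    let i1 : Algebra Ef Ω := q.toRingHom.toAlgebra
    have i2 : IsScalarTower ℂ Ef Ω := IsScalarTower.of_algebraMap_eq fun a =>
      (q.commutes a).symm
    let ρ : K →ₐ[Ef] Ω := IsAlgClosed.lift
    refine ⟨ρ.restrictScalars ℂ, ?_⟩
    ext e
    exact ρ.commutes e
  choose lift hl using hlift
  have hres : ∀ σ : K →ₐ[ℂ] Ω, c (lift (σ.comp Ef.val)) = c σ := by
    intro σ
    refine h _ _ fun e => ?_
    exact DFunLike.congr_fun (hl (σ.comp Ef.val)) e
  obtain ⟨c1, hc1⟩ : ∃ c1 : (Ef →ₐ[ℂ] Ω) →₀ ℤ, ∀ q, c1 q = c (lift q) := by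
    refine ⟨Finsupp.onFinset (c.support.image fun σ => σ.comp Ef.val) (fun q => c (lift q))
      fun q hq => ?_, fun q => rfl⟩
    rw [Finset.mem_image]
    exact ⟨lift q, Finsupp.mem_support_iff.2 hq, hl q⟩
  have hc1' : ∀ σ : K →ₐ[ℂ] Ω, c1 (σ.comp Ef.val) = c σ := fun σ => by rw [hc1, hres]
  refine ⟨c1, ?_, fun σ => (hc1' σ).symm⟩
  -- the preimage of `c1` is `c`
  obtain ⟨c', hc', -, hsum, -⟩ := Pool.Agent.N162.PR.exists_lift_cycle (K' := K) c1
  have hcc : c' = c := by
    ext σ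
    rw [hc', ← hc1' σ]
    rfl
  rw [hcc] at hsum
  intro η hη z F hz hF D
  choose F' hF' using fun i => Pool.Agent.Y172.exists_lift (k := ℂ) (K := Ef) (L := K) hEn (F i)
  have hzK : IsTranscendenceBasis ℂ (fun j => algebraMap Ef K (z j)) := hz.algebraMap_comp
  have hFd := Pool.Agent.Y172.lift_dual hF hF'
  have h1 := hc (pull (K := K) z F η) (pull_global hEn hz hF hη) _ F' hzK hFd D
  have h2 : ∀ σ : K →ₐ[ℂ] Ω, pullback σ (fun j => algebraMap Ef K (z j)) F'
      (pull (K := K) z F η) D = pullback (restr Ef Ω σ) z F η D := by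
    intro σ
    unfold pullback pull
    have h3 : (Matrix.of fun i j => F' i (algebraMap Ef K (z j))) = 1 := by
      ext i j
      rw [Matrix.of_apply, Matrix.one_apply, hFd]
    rw [h3, Matrix.det_one, one_mul]
    rfl
  have h4 := hsum (fun q _ => (c1 q : Ω) * pullback q z F η D) 1
  have h5 : ∑ σ ∈ c.support, (c1 (restr Ef Ω σ) : Ω) * pullback (restr Ef Ω σ) z F η D *
      σ 1 = 0 := by
    rw [← h1]
    refine Finset.sum_congr rfl fun σ _ => ?_
    rw [map_one, mul_one, h2]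
    congr 2
    exact hc1' σ
  have h6 : Algebra.trace Ef K (1 : K) = (Module.finrank Ef K : Ef) := by
    have h7 := Algebra.trace_algebraMap (R := Ef) (S := K) (1 : Ef)
    rw [map_one, nsmul_one] at h7
    exact h7
  rw [h6, h5] at h4
  have h8 : ∑ q ∈ c1.support, (c1 q : Ω) * pullback q z F η D *
      q ((Module.finrank Ef K : Ef)) = (Module.finrank Ef K : Ω) *
        ∑ q ∈ c1.support, (c1 q : Ω) * pullback q z F η D := by
    rw [Finset.mul_sum]
    refine Finset.sum_congr rfl fun q _ => ?_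
    rw [map_natCast]
    ring
  rw [h8] at h4
  rcases mul_eq_zero.1 h4.symm with h9 | h9
  · exfalso
    have h10 : 0 < Module.finrank Ef K := Module.finrank_pos
    exact (Nat.cast_ne_zero (R := Ω)).2 h10.ne' h9
  · exact h9

/-- on a ruled variety all global forms are zero, so that they are not pulled back -/
theorem not_pulled [Algebra.EssFiniteType ℂ K] {n : ℕ} (hK : Algebra.trdeg ℂ K = (n : ℕ))
    (Ef : IntermediateField ℂ K) [FiniteDimensional Ef K]
    (hruled : ∃ (F : IntermediateField ℂ Ef) (t : Ef), Transcendental F t ∧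
        IntermediateField.adjoin F {t} = ⊤)
    {ω : (Fin n → Derivation ℂ K K) → K} (hω : GlobalForm n ω) (hω0 : ω ≠ 0) :
    ∃ (D : Fin n → Derivation ℂ Ef Ef) (D' : Fin n → Derivation ℂ K K),
      (∀ i (f : Ef), D' i (f : K) = (D i f : K)) ∧ ω D' ∉ Ef := by
  classical
  have hEn : Algebra.trdeg ℂ Ef = (n : ℕ) := Pool.Agent.Y184.NT.trdeg_below (K := K) hK
  have hessE : Algebra.EssFiniteType ℂ Ef := Pool.Agent.TH466.QG.ess_below (K := K)
  have hpg : GenusZero Ef n := by
    refine genusZero_of_uniruled hEn (Pool.Agent.TH466.QG.uniruled_below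
      (F := Ef) (K := Ef) hEn ?_)
    obtain ⟨F, t, ht, htop⟩ := hruled
    exact ⟨F, t, ht, htop⟩
  obtain ⟨y, E, hy, hE⟩ := Pool.Agent.Y172.exists_crd (k := ℂ) (K := Ef) hEn
  choose E' hE' using fun i => Pool.Agent.Y172.exists_lift (k := ℂ) (K := Ef) (L := K) hEn (E i)
  have hyK : IsTranscendenceBasis ℂ (fun j => algebraMap Ef K (y j)) := hy.algebraMap_comp
  have hE'd := Pool.Agent.Y172.lift_dual hE hE'
  refine ⟨E, E', hE', fun hmem => ?_⟩
  have htr : Algebra.trace Ef K (ω E') = 0 :=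
    Pool.Agent.Y692.NT.t_Tr Ef K n hEn hpg ω hω.1 hω.2 E E' hE'
  have hcE : CharZero Ef := charZero_of_injective_algebraMap (algebraMap ℂ _).injective
  have h1 : Algebra.trace Ef K (ω E') = Module.finrank Ef K • (⟨ω E', hmem⟩ : Ef) :=
    Algebra.trace_algebraMap (R := Ef) (S := K) (⟨ω E', hmem⟩ : Ef)
  rw [htr, nsmul_eq_mul] at h1
  rcases mul_eq_zero.1 h1.symm with h2 | h2
  · have h3 : 0 < Module.finrank Ef K := Module.finrank_pos
    exact (Nat.cast_ne_zero (R := Ef)).2 h3.ne' h2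
  · apply hω0
    funext D
    have h3 : ω E' = 0 := congrArg (fun e : Ef => (e : K)) h2
    rw [Pool.Agent.Y172.pluri_coord hyK hE'd hω.1 D, h3, mul_zero]
    rfl

/-- **Few fibres of a generically finite map to an arbitrary variety.** -/
theorem main' [IsAlgClosed Ω] [Algebra.EssFiniteType ℂ K] {n : ℕ}
    (hK : Algebra.trdeg ℂ K = (n : ℕ)) {q M : ℕ} {z : Fin q → K}
    [FiniteDimensional (IntermediateField.adjoin ℂ (Set.range z)) K]
    (hmon : (Module.finrank (IntermediateField.adjoin ℂ (Set.range z)) K).Prime ∨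
      DoublyTransitive (IntermediateField.adjoin ℂ (Set.range z)) K)
    {ω : (Fin n → Derivation ℂ K K) → K}
    (hnp : ∃ (D : Fin n → Derivation ℂ (IntermediateField.adjoin ℂ (Set.range z))
      (IntermediateField.adjoin ℂ (Set.range z))) (D' : Fin n → Derivation ℂ K K),
      (∀ i (f : IntermediateField.adjoin ℂ (Set.range z)), D' i (f : K) = (D i f : K)) ∧
        ω D' ∉ IntermediateField.adjoin ℂ (Set.range z))
    (hglob : ∀ a : Fin q → ℕ, ∑ l, a l ≤ M →
      GlobalForm n (fun D => (∏ l, z l ^ a l) * ω D))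
    {c : (K →ₐ[ℂ] Ω) →₀ ℤ} (hc : NullTrace n c)
    (hcard : Set.ncard {u : Fin q → Ω | ∃ σ : K →ₐ[ℂ] Ω, c σ ≠ 0 ∧ u = fun l => σ (z l)} ≤ M + 1) :
    ∃ c₁ : ((IntermediateField.adjoin ℂ (Set.range z)) →ₐ[ℂ] Ω) →₀ ℤ, NullTrace n c₁ ∧
      (∀ σ : K →ₐ[ℂ] Ω, c σ = c₁ (σ.comp (IntermediateField.adjoin ℂ (Set.range z)).val)) ∧
      ((∃ (F : IntermediateField ℂ (IntermediateField.adjoin ℂ (Set.range z)))
        (t : IntermediateField.adjoin ℂ (Set.range z)), Transcendental F t ∧
        IntermediateField.adjoin F {t} = ⊤) → c ∈ Rat K Ω) := by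
  classical
  have hcard' : (c.support.image fun σ l => σ (z l)).card ≤ M + 1 := by
    refine le_trans (le_of_eq ?_) hcard
    rw [← Set.ncard_coe_finset]
    congr 1
    ext u
    rw [Finset.coe_image, Set.mem_image, Set.mem_ofPred_eq]
    constructor
    · rintro ⟨σ, hσ, rfl⟩
      exact ⟨σ, Finsupp.mem_support_iff.1 hσ, rfl⟩
    · rintro ⟨σ, hσ, rfl⟩
      exact ⟨σ, Finsupp.mem_support_iff.2 hσ, rfl⟩
  have h1 : ∀ σ τ : K →ₐ[ℂ] Ω, (∀ e : IntermediateField.adjoin ℂ (Set.range z),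
      σ (e : K) = τ (e : K)) → c σ = c τ := fun σ τ h =>
    step' hK hmon hnp hglob hc hcard' fun l =>
      h ⟨z l, IntermediateField.subset_adjoin _ _ ⟨l, rfl⟩⟩
  obtain ⟨c₁, hc₁, hcc⟩ := descend hK (IntermediateField.adjoin ℂ (Set.range z)) hc h1
  refine ⟨c₁, hc₁, hcc, ?_⟩
  rintro ⟨F, t, ht, htop⟩
  exact rat_pulled (IntermediateField.adjoin ℂ (Set.range z)) F t ht htop h1

end

end Pool.Agent.K6.H68.CC
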