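import Mathlib

/-!
Transcendental elements over a field which is generated by a set.
-/

set_option autoImplicit false

namespace Pool.Agent.K6.H68.CC

open scoped IntermediateField.algebraAdjoinAdjoin in
theorem transc_adjoin {k E : Type} [Field k] [Field E] [Algebra k E] {S : Set E} {t : E}
    (h : Transcendental (Algebra.adjoin k S) t) :
    Transcendental (IntermediateField.adjoin k S) t := by
  intro h2
  apply h
  exact (IsFractionRing.isAlgebraic_iff (Algebra.adjoin k S)
    (IntermediateField.adjoin k S) E).2 h2

theorem top_aux {k E : Type} [Field k] [Field E] [Algebra k E] {m : ℕ} {z : Fin (m + 1) → E}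
    (htop : IntermediateField.adjoin k (Set.range z) = ⊤) (F : IntermediateField k E)
    (hF : ∀ i, i ≠ 0 → z i ∈ F) : IntermediateField.adjoin F {z 0} = ⊤ := by
  rw [eq_top_iff]
  intro y _
  obtain ⟨G, hG⟩ : ∃ G : IntermediateField F E, G = IntermediateField.adjoin F {z 0} := ⟨_, rfl⟩
  rw [← hG]
  have h0 : z 0 ∈ G := by
    rw [hG]
    exact IntermediateField.mem_adjoin_simple_self _ _
  have h1 : y ∈ IntermediateField.adjoin k (Set.range z) := by
    rw [htop]
    trivial
  induction h1 using IntermediateField.adjoin_induction with
  | mem e he =>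
    obtain ⟨i, rfl⟩ := he
    by_cases hi : i = 0
    · rw [hi]
      exact h0
    · exact G.algebraMap_mem ⟨z i, hF i hi⟩
  | algebraMap c => exact G.algebraMap_mem (algebraMap k F c)
  | add a b _ _ ha hb => exact add_mem (ha trivial) (hb trivial)
  | inv a _ ha => exact inv_mem (ha trivial)
  | mul a b _ _ ha hb => exact mul_mem (ha trivial) (hb trivial)

/-- a field generated by algebraically independent elements -/
theorem ruled_aux {k E : Type} [Field k] [Field E] [Algebra k E] {m : ℕ} {z : Fin (m + 1) → E}
    (hind : AlgebraicIndependent k z) (htop : IntermediateField.adjoin k (Set.range z) = ⊤) :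
    ∃ (F : IntermediateField k E) (t : E), Transcendental F t ∧
        IntermediateField.adjoin F {t} = ⊤ := by
  refine ⟨IntermediateField.adjoin k (z '' {0}ᶜ), z 0, ?_, top_aux htop _ fun i hi => ?_⟩
  · exact transc_adjoin ((AlgebraicIndependent.iff_transcendental_adjoin_image 0).1 hind).2
  · exact IntermediateField.subset_adjoin _ _ ⟨i, by simpa using hi, rfl⟩

end Pool.Agent.K6.H68.CC
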