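import Pool.Agent.R882.CovMain
import Pool.Agent.N162.BC.Defs
import Pool.Agent.K6.H68.CC.Transc

/-!
Smooth covers of projective space: the canonical forms.
-/

set_option autoImplicit false
set_option linter.overlappingInstances false
set_option linter.unusedSectionVars false
set_option linter.unusedVariables false
set_option maxHeartbeats 4000000
set_option synthInstance.maxHeartbeats 400000

open FF Module MvPolynomial Pool.Agent.W602.GT Pool.Agent.W603.LV Pool.Agent.N162.BC
  Pool.Agent.Y184.NT

namespace Pool.Agent.K6.H68.CC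

section

variable {K : Type} [Field K] [Algebra ℂ K]

/-- the canonical forms `z ^ a Res` of a smooth cover -/
theorem cover_forms {n N k M : ℕ} {a : Fin N → MvPolynomial (Fin (n + 1)) ℂ}
    (ha : ∀ i : Fin N, (a i).IsHomogeneous ((N - i) * k)) (hs : Sm (Pool.Agent.R882.WR.eqn a))
    {x : Fin (n + 1) → K} {y : K} (hx0 : x 0 = 1)
    (hxy : y ^ N + ∑ i, aeval x (a i) * y ^ (i : ℕ) = 0)
    (hgen : IntermediateField.adjoin ℂ (insert y (Set.range x)) = ⊤)
    (hK : Algebra.trdeg ℂ K = (n : ℕ)) (hM : M + n + 1 + k ≤ N * k) :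
    ∃ ω : (Fin n → Derivation ℂ K K) → K, ω ≠ 0 ∧ ∀ b : Fin n → ℕ, ∑ l, b l ≤ M →
      GlobalForm n (fun D => (∏ l, x l.succ ^ b l) * ω D) := by
  classical
  have hrange : Set.range (Fin.cons y x : Fin (n + 2) → K) = insert y (Set.range x) :=
    Fin.range_cons y x
  have hessK : Algebra.EssFiniteType ℂ K := by
    rw [← IntermediateField.fg_top_iff]
    exact ⟨Finset.univ.image (Fin.cons y x : Fin (n + 2) → K), by
      rw [Finset.coe_image, Finset.coe_univ, Set.image_univ, hrange, hgen]⟩
  obtain ⟨c, hc⟩ := Pool.Agent.R882.WR.exists_c (F := Pool.Agent.R882.WR.eqn a) hs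
    (Z := (Fin.cons y x : Fin (n + 2) → K)) (j0 := Fin.succ 0) (by
      rw [Fin.cons_succ]
      exact hx0)
  obtain ⟨z, E, hz, hE⟩ := Pool.Agent.Y172.exists_crd (k := ℂ) (K := K) hK
  have hEind : LinearIndependent K E := by
    rw [Fintype.linearIndependent_iff]
    intro g hg j
    have h1 : (∑ i, g i • E i) (z j) = 0 := by
      rw [hg]
      rfl
    rw [Pool.Agent.Y988.NT.sum_der] at h1
    rw [Finset.sum_eq_single j] at h1
    · rw [hE, if_pos rfl, mul_one] at h1
      exact h1
    · intro i _ hi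
      rw [hE, if_neg hi, mul_zero]
    · intro h
      exact absurd (Finset.mem_univ _) h
  have hZ : aeval (Fin.cons y x : Fin (n + 2) → K) (Pool.Agent.R882.WR.eqn a) = 0 := by
    rw [Pool.Agent.R882.WR.aeval_eqn]
    exact hxy
  refine ⟨fun D => (Pool.Agent.R882.WR.wrows (Pool.Agent.R882.WR.wt k) c
      (Fin.cons y x : Fin (n + 2) → K) D).det, ?_, ?_⟩
  · intro h0
    refine Pool.Agent.R882.WR.wres_ne (Pool.Agent.R882.WR.eqn_wh ha) hZ hc (j0 := Fin.succ 0) (by
      rw [Fin.cons_succ]
      exact hx0) (by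
      change (1 : ℕ) ≠ 0
      exact one_ne_zero) (by rw [hrange, hgen]) hEind ?_
    exact congrFun h0 E
  · intro b hb
    refine ⟨Pool.Agent.R882.WR.wrows_pluri _ _ _ _, fun P _ => ?_⟩
    obtain ⟨s, hs'⟩ : ∃ s, s = N * k - (k + (n + 1)) - ∑ l, b l := ⟨_, rfl⟩
    obtain ⟨A, hA⟩ : ∃ A : MvPolynomial (Fin (n + 2)) ℂ,
      A = (∏ l : Fin n, X l.succ.succ ^ b l) * X (Fin.succ 0) ^ s := ⟨_, rfl⟩
    have hAw : A.IsWeightedHomogeneous (Pool.Agent.R882.WR.wt k) (∑ l, b l + s) := by
      rw [hA]
      refine IsWeightedHomogeneous.mul ?_ ?_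
      · have h1 := IsWeightedHomogeneous.prod (R := ℂ) (w := Pool.Agent.R882.WR.wt (n := n) k)
          Finset.univ (fun l : Fin n => (X l.succ.succ : MvPolynomial (Fin (n + 2)) ℂ) ^ b l)
          (fun l => b l) (fun l _ => by
            have h2 := (isWeightedHomogeneous_X ℂ (Pool.Agent.R882.WR.wt (n := n) k)
              (l.succ.succ : Fin (n + 2))).pow (b l)
            have h3 : b l • Pool.Agent.R882.WR.wt k (l.succ.succ : Fin (n + 2)) = b l := by
              change b l * 1 = b l
              rw [mul_one]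
            rwa [h3] at h2)
        exact h1
      · have h2 := (isWeightedHomogeneous_X ℂ (Pool.Agent.R882.WR.wt (n := n) k)
          (Fin.succ 0 : Fin (n + 2))).pow s
        have h3 : s • Pool.Agent.R882.WR.wt k (Fin.succ 0 : Fin (n + 2)) = s := by
          change s * 1 = s
          rw [mul_one]
        rwa [h3] at h2
    have h4 := Pool.Agent.R882.WR.cover_reg ha hs hAw (by omega) (c := c) hZ ⟨0, by
      rw [Fin.cons_succ, hx0]
      exact one_ne_zero⟩ hc P
    have h5 : aeval (Fin.cons y x : Fin (n + 2) → K) A = ∏ l, x l.succ ^ b l := by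
      rw [hA, map_mul, map_prod, map_pow, aeval_X, Fin.cons_succ, hx0, one_pow, mul_one]
      refine Finset.prod_congr rfl fun l _ => ?_
      rw [map_pow, aeval_X, Fin.cons_succ]
    rw [h5] at h4
    exact h4

/-- smooth covers are finite over projective space, and its function field is purely
transcendental -/
theorem cover_finite {n N : ℕ} {a : Fin N → MvPolynomial (Fin (n + 1)) ℂ}
    {x : Fin (n + 1) → K} {y : K} (hx0 : x 0 = 1)
    (hxy : y ^ N + ∑ i, aeval x (a i) * y ^ (i : ℕ) = 0)
    (hgen : IntermediateField.adjoin ℂ (insert y (Set.range x)) = ⊤)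
    (hK : Algebra.trdeg ℂ K = (n : ℕ)) :
    FiniteDimensional (IntermediateField.adjoin ℂ (Set.range fun i : Fin n => x i.succ)) K ∧
      AlgebraicIndependent ℂ (fun i : Fin n => x i.succ) := by
  have hN0 : N ≠ 0 := by
    rintro rfl
    simp at hxy
  obtain ⟨hfin, -⟩ := Pool.Agent.R882.WR.fin_x (E := IntermediateField.adjoin ℂ
    (Set.range fun i : Fin n => x i.succ)) (fun j => by
      refine Fin.cases ?_ (fun i => ?_) j
      · change x 0 ∈ _
        rw [hx0]
        exact one_mem _
      · exact IntermediateField.subset_adjoin ℂ _ ⟨i, rfl⟩) hN0 hxy hgen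
  refine ⟨hfin, ?_⟩
  have halg : ∀ τ : K, IsAlgebraic (IntermediateField.adjoin ℂ
      (Set.range fun i : Fin n => x i.succ)) τ := fun τ =>
    (Algebra.IsIntegral.isIntegral τ).isAlgebraic
  have h1 := Pool.Agent.W619.PQ.alg_adjoin halg
  exact (Algebra.IsAlgebraic.isTranscendenceBasis_of_lift_le_trdeg_of_finite ℂ
    (fun i : Fin n => x i.succ) (by rw [hK]; simp)).1

/-- the field generated by algebraically independent elements is ruled -/
theorem ruled_of_indep {n : ℕ} (hn : 1 ≤ n) {z : Fin n → K} (hz : AlgebraicIndependent ℂ z) :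
    ∃ (F : IntermediateField ℂ (IntermediateField.adjoin ℂ (Set.range z)))
      (t : IntermediateField.adjoin ℂ (Set.range z)), Transcendental F t ∧
        IntermediateField.adjoin F {t} = ⊤ := by
  classical
  obtain ⟨m, rfl⟩ : ∃ m, n = m + 1 := ⟨n - 1, by omega⟩
  obtain ⟨z', hz'⟩ : ∃ z' : Fin (m + 1) → IntermediateField.adjoin ℂ (Set.range z),
    ∀ i, (z' i : K) = z i := ⟨fun i => ⟨z i, IntermediateField.subset_adjoin _ _ ⟨i, rfl⟩⟩,
      fun _ => rfl⟩
  have hind : AlgebraicIndependent ℂ z' := by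
    refine AlgebraicIndependent.of_comp (IntermediateField.adjoin ℂ (Set.range z)).val ?_
    have h1 : ((IntermediateField.adjoin ℂ (Set.range z)).val ∘ z') = z := funext hz'
    rw [h1]
    exact hz
  have htop : IntermediateField.adjoin ℂ (Set.range z') = ⊤ := by
    apply IntermediateField.map_injective (IntermediateField.adjoin ℂ (Set.range z)).val
    rw [IntermediateField.adjoin_map, ← AlgHom.fieldRange_eq_map, IntermediateField.fieldRange_val,
      ← Set.range_comp]
    congr 2
    exact funext hz'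
  exact ruled_aux hind htop

end

end Pool.Agent.K6.H68.CC
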