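import Pool.Agent.K6.H68.CC.Any
import Pool.Agent.K6.H68.CC.Cover

/-!
Smooth covers of projective space: the canonical forms in terms of the minimal polynomial.
-/

set_option autoImplicit false
set_option linter.overlappingInstances false
set_option linter.unusedSectionVars false
set_option linter.unusedVariables false
set_option maxHeartbeats 4000000
set_option synthInstance.maxHeartbeats 400000

open FF Module MvPolynomial Pool.Agent.W602.GT Pool.Agent.W603.LV Pool.Agent.N162.BC
  Pool.Agent.Y184.NT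

namespace Pool.Agent.K6.H68.CC

section

variable {K : Type} [Field K] [Algebra ℂ K]

theorem pderiv_zero_rename {n : ℕ} (p : MvPolynomial (Fin (n + 1)) ℂ) :
    pderiv (0 : Fin (n + 2)) (rename Fin.succ p) = 0 := by
  induction p using MvPolynomial.induction_on with
  | C a => simp
  | add p q hp hq => rw [map_add, map_add, hp, hq, add_zero]
  | mul_X p i hp =>
    rw [map_mul, rename_X, pderiv_mul, hp, zero_mul, zero_add, pderiv_X_of_ne (Fin.succ_ne_zero i),
      mul_zero]

theorem aeval_pderiv_eqn {n N : ℕ} (a : Fin N → MvPolynomial (Fin (n + 1)) ℂ)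
    (x : Fin (n + 1) → K) (y : K) :
    aeval (Fin.cons y x : Fin (n + 2) → K) (pderiv 0 (Pool.Agent.R882.WR.eqn a)) =
      N * y ^ (N - 1) + ∑ i, aeval x (a i) * ((i : ℕ) * y ^ ((i : ℕ) - 1)) := by
  rw [Pool.Agent.R882.WR.eqn, map_add, map_sum, map_add, map_sum, Derivation.leibniz_pow,
    pderiv_X_self]
  congr 1
  · simp
  · refine Finset.sum_congr rfl fun i _ => ?_
    rw [pderiv_mul, pderiv_zero_rename, zero_mul, zero_add, Derivation.leibniz_pow, pderiv_X_self,
      map_mul, aeval_rename]
    have h1 : ((Fin.cons y x : Fin (n + 2) → K) ∘ Fin.succ) = x := by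
      funext j
      simp
    rw [h1]
    simp

/-- the derivative of the minimal polynomial -/
theorem deriv_minpoly {n N : ℕ} {a : Fin N → MvPolynomial (Fin (n + 1)) ℂ}
    {x : Fin (n + 1) → K} {y : K} {E : IntermediateField ℂ K} [FiniteDimensional E K]
    (hx : ∀ j, x j ∈ E) (hxy : y ^ N + ∑ i, aeval x (a i) * y ^ (i : ℕ) = 0)
    (hgen : IntermediateField.adjoin ℂ (insert y (Set.range x)) = ⊤)
    (hN : Module.finrank E K = N) :
    aeval (Fin.cons y x : Fin (n + 2) → K) (pderiv 0 (Pool.Agent.R882.WR.eqn a)) =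
      Polynomial.aeval y (Polynomial.derivative (minpoly E y)) := by
  classical
  obtain ⟨x', hx'⟩ : ∃ x' : Fin (n + 1) → E, ∀ j, (x' j : K) = x j :=
    ⟨fun j => ⟨x j, hx j⟩, fun _ => rfl⟩
  have ha : ∀ i, algebraMap E K (aeval x' (a i)) = aeval x (a i) := by
    intro i
    have h1 := MvPolynomial.aeval_algebraMap_apply (R := ℂ) (A := E) K x' (a i)
    have h2 : (fun j => algebraMap E K (x' j)) = x := by
      funext j
      exact hx' j
    rw [← h1]
    congr 1
    rw [← h2]
    rfl
  obtain ⟨q, hq⟩ : ∃ q : Polynomial E,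
    q = ∑ i : Fin N, Polynomial.C (aeval x' (a i)) * Polynomial.X ^ (i : ℕ) := ⟨_, rfl⟩
  have hdeg : q.degree < N := by
    rw [hq]
    refine lt_of_le_of_lt (Polynomial.degree_sum_le _ _) ?_
    refine (Finset.sup_lt_iff (WithBot.bot_lt_coe N)).2 fun i _ => ?_
    exact lt_of_le_of_lt (Polynomial.degree_C_mul_X_pow_le _ _) (WithBot.coe_lt_coe.2 i.2)
  have hmonic : (Polynomial.X ^ N + q).Monic := Polynomial.monic_X_pow_add hdeg
  have hnat : (Polynomial.X ^ N + q).natDegree = N := by
    rw [Polynomial.natDegree_add_eq_left_of_degree_lt (by rwa [Polynomial.degree_X_pow]),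
      Polynomial.natDegree_X_pow]
  have h0 : Polynomial.aeval y (Polynomial.X ^ N + q) = 0 := by
    rw [map_add, map_pow, Polynomial.aeval_X, hq, map_sum, ← hxy]
    congr 1
    refine Finset.sum_congr rfl fun i _ => ?_
    rw [map_mul, map_pow, Polynomial.aeval_X, Polynomial.aeval_C, ha i]
  have hint : IsIntegral E y := Algebra.IsIntegral.isIntegral y
  have htop : IntermediateField.adjoin E {y} = ⊤ := Pool.Agent.R882.WR.gen_y hx hgen
  have hmd : (minpoly E y).natDegree = N := by
    rw [← hN]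
    exact (Field.primitive_element_iff_minpoly_natDegree_eq E y).1 htop
  have hmin : minpoly E y = Polynomial.X ^ N + q := by
    refine (Polynomial.eq_of_monic_of_dvd_of_natDegree_le (minpoly.monic hint) hmonic
      (minpoly.dvd _ _ h0) ?_).symm
    rw [hnat, hmd]
  rw [hmin, aeval_pderiv_eqn, Polynomial.derivative_add, map_add, Polynomial.derivative_X_pow, hq,
    Polynomial.derivative_sum, map_sum]
  congr 1
  · simp
  · refine Finset.sum_congr rfl fun i _ => ?_
    rw [Polynomial.derivative_C_mul, Polynomial.derivative_X_pow, map_mul, Polynomial.aeval_C, ha,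
      map_mul, map_pow, Polynomial.aeval_X]
    simp

/-- the residue form -/
theorem wrows_det {n k : ℕ} {x : Fin (n + 1) → K} {y g : K} (hx0 : x 0 = 1)
    (D : Fin n → Derivation ℂ K K) :
    (Pool.Agent.R882.WR.wrows (Pool.Agent.R882.WR.wt k)
      (Fin.cons (1 / g) (fun _ => 0) : Fin (n + 2) → K) (Fin.cons y x : Fin (n + 2) → K) D).det =
      (Matrix.of fun i j : Fin n => D i (x j.succ)).det / g := by
  rw [Matrix.det_succ_row_zero, Finset.sum_eq_single 0]
  · rw [Matrix.det_succ_column_zero, Finset.sum_eq_single 0]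
    · have h1 : Pool.Agent.R882.WR.wrows (Pool.Agent.R882.WR.wt k)
          (Fin.cons (1 / g) (fun _ => 0) : Fin (n + 2) → K) (Fin.cons y x : Fin (n + 2) → K) D 0 0 =
          1 / g := rfl
      have h2 : (Matrix.submatrix (Matrix.submatrix (Pool.Agent.R882.WR.wrows
          (Pool.Agent.R882.WR.wt k) (Fin.cons (1 / g) (fun _ => 0) : Fin (n + 2) → K)
          (Fin.cons y x : Fin (n + 2) → K) D) Fin.succ (Fin.succAbove 0))
          (Fin.succAbove 0) Fin.succ) = (Matrix.of fun i j : Fin n => D i (x j.succ)) := by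
        ext i j
        rfl
      have h3 : (Matrix.submatrix (Pool.Agent.R882.WR.wrows
          (Pool.Agent.R882.WR.wt k) (Fin.cons (1 / g) (fun _ => 0) : Fin (n + 2) → K)
          (Fin.cons y x : Fin (n + 2) → K) D) Fin.succ (Fin.succAbove 0)) 0 0 = 1 := by
        change ((1 : ℕ) : K) * x 0 = 1
        rw [hx0, Nat.cast_one, mul_one]
      rw [h1, h2, h3]
      simp only [Fin.val_zero, pow_zero, one_mul]
      ring
    · intro i _ hi
      obtain ⟨i', rfl⟩ := Fin.exists_succ_eq.2 hi
      have h3 : (Matrix.submatrix (Pool.Agent.R882.WR.wrows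
          (Pool.Agent.R882.WR.wt k) (Fin.cons (1 / g) (fun _ => 0) : Fin (n + 2) → K)
          (Fin.cons y x : Fin (n + 2) → K) D) Fin.succ (Fin.succAbove 0)) i'.succ 0 = 0 := by
        change D i' (x 0) = 0
        rw [hx0]
        exact (D i').map_one_eq_zero
      rw [h3, mul_zero, zero_mul]
    · intro h
      exact absurd (Finset.mem_univ _) h
  · intro j _ hj
    obtain ⟨j', rfl⟩ := Fin.exists_succ_eq.2 hj
    have h3 : Pool.Agent.R882.WR.wrows (Pool.Agent.R882.WR.wt k)
        (Fin.cons (1 / g) (fun _ => 0) : Fin (n + 2) → K) (Fin.cons y x : Fin (n + 2) → K) D 0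
        j'.succ = 0 := rfl
    rw [h3, mul_zero, zero_mul]
  · intro h
    exact absurd (Finset.mem_univ _) h

/-- the canonical forms `z ^ b y ^ j dz / f'(y)` of a smooth cover -/
theorem cover_forms2 {n N k : ℕ} {a : Fin N → MvPolynomial (Fin (n + 1)) ℂ}
    (ha : ∀ i : Fin N, (a i).IsHomogeneous ((N - i) * k)) (hs : Sm (Pool.Agent.R882.WR.eqn a))
    {x : Fin (n + 1) → K} {y : K} (hx0 : x 0 = 1)
    (hxy : y ^ N + ∑ i, aeval x (a i) * y ^ (i : ℕ) = 0)
    (hgen : IntermediateField.adjoin ℂ (insert y (Set.range x)) = ⊤)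
    [FiniteDimensional (IntermediateField.adjoin ℂ (Set.range fun i : Fin n => x i.succ)) K]
    (hN : Module.finrank (IntermediateField.adjoin ℂ (Set.range fun i : Fin n => x i.succ)) K = N)
    (b : Fin n → ℕ) (j : ℕ) (hb : ∑ l, b l + j * k + (k + (n + 1)) ≤ N * k) :
    GlobalForm n (fun D => (∏ l, x l.succ ^ b l) * y ^ j *
      ((Matrix.of fun i l : Fin n => D i (x l.succ)).det / Polynomial.aeval y
        (Polynomial.derivative (minpoly
          (IntermediateField.adjoin ℂ (Set.range fun i : Fin n => x i.succ)) y)))) := by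
  classical
  have hx : ∀ j, x j ∈ IntermediateField.adjoin ℂ (Set.range fun i : Fin n => x i.succ) := by
    intro j
    refine Fin.cases ?_ (fun i => ?_) j
    · rw [hx0]
      exact one_mem _
    · exact IntermediateField.subset_adjoin ℂ _ ⟨i, rfl⟩
  have hderiv := deriv_minpoly hx hxy hgen hN
  obtain ⟨E, hE⟩ : ∃ E : IntermediateField ℂ K,
    E = IntermediateField.adjoin ℂ (Set.range fun i : Fin n => x i.succ) := ⟨_, rfl⟩
  rw [← hE] at hderiv hN ⊢
  have hfd : FiniteDimensional E K := by
    rw [hE]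
    infer_instance
  have hcE : CharZero E := charZero_of_injective_algebraMap (algebraMap ℂ _).injective
  have hint : IsIntegral E y := Algebra.IsIntegral.isIntegral y
  obtain ⟨g, hg⟩ : ∃ g : K, g = Polynomial.aeval y (Polynomial.derivative (minpoly E y)) :=
    ⟨_, rfl⟩
  have hg0 : g ≠ 0 := by
    rw [hg]
    exact (minpoly.irreducible hint).separable.aeval_derivative_ne_zero (minpoly.aeval E y)
  rw [← hg] at hderiv ⊢
  have hZ : aeval (Fin.cons y x : Fin (n + 2) → K) (Pool.Agent.R882.WR.eqn a) = 0 := by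
    rw [Pool.Agent.R882.WR.aeval_eqn]
    exact hxy
  have hc : ∑ l, aeval (Fin.cons y x : Fin (n + 2) → K) (pderiv l (Pool.Agent.R882.WR.eqn a)) *
      (Fin.cons (1 / g) (fun _ => 0) : Fin (n + 2) → K) l = 1 := by
    rw [Fin.sum_univ_succ, hderiv, Fin.cons_zero]
    simp only [Fin.cons_succ, mul_zero, Finset.sum_const_zero, add_zero]
    field_simp
  obtain ⟨s, hs'⟩ : ∃ s, s = N * k - (k + (n + 1)) - (∑ l, b l + j * k) := ⟨_, rfl⟩
  obtain ⟨A, hA⟩ : ∃ A : MvPolynomial (Fin (n + 2)) ℂ,
    A = (∏ l : Fin n, X l.succ.succ ^ b l) * X 0 ^ j * X (Fin.succ 0) ^ s := ⟨_, rfl⟩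
  have hAw : A.IsWeightedHomogeneous (Pool.Agent.R882.WR.wt k) (∑ l, b l + j * k + s) := by
    rw [hA]
    refine IsWeightedHomogeneous.mul (IsWeightedHomogeneous.mul ?_ ?_) ?_
    · have h1 := IsWeightedHomogeneous.prod (R := ℂ) (w := Pool.Agent.R882.WR.wt (n := n) k)
        Finset.univ (fun l : Fin n => (X l.succ.succ : MvPolynomial (Fin (n + 2)) ℂ) ^ b l)
        (fun l => b l) (fun l _ => by
          have h2 := (isWeightedHomogeneous_X ℂ (Pool.Agent.R882.WR.wt (n := n) k)
            (l.succ.succ : Fin (n + 2))).pow (b l)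
          have h3 : b l • Pool.Agent.R882.WR.wt k (l.succ.succ : Fin (n + 2)) = b l := by
            change b l * 1 = b l
            rw [mul_one]
          rwa [h3] at h2)
      exact h1
    · have h2 := (isWeightedHomogeneous_X ℂ (Pool.Agent.R882.WR.wt (n := n) k)
        (0 : Fin (n + 2))).pow j
      exact h2
    · have h2 := (isWeightedHomogeneous_X ℂ (Pool.Agent.R882.WR.wt (n := n) k)
        (Fin.succ 0 : Fin (n + 2))).pow s
      have h3 : s • Pool.Agent.R882.WR.wt k (Fin.succ 0 : Fin (n + 2)) = s := by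
        change s * 1 = s
        rw [mul_one]
      rwa [h3] at h2
  have h5 : aeval (Fin.cons y x : Fin (n + 2) → K) A = (∏ l, x l.succ ^ b l) * y ^ j := by
    rw [hA, map_mul, map_mul, map_prod, map_pow, map_pow, aeval_X, aeval_X, Fin.cons_succ, hx0,
      one_pow, mul_one, Fin.cons_zero]
    congr 1
    refine Finset.prod_congr rfl fun l _ => ?_
    rw [map_pow, aeval_X, Fin.cons_succ]
  have h6 : (fun D : Fin n → Derivation ℂ K K => (∏ l, x l.succ ^ b l) * y ^ j *
      ((Matrix.of fun i l : Fin n => D i (x l.succ)).det / g)) = fun D =>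
        aeval (Fin.cons y x : Fin (n + 2) → K) A * (Pool.Agent.R882.WR.wrows
          (Pool.Agent.R882.WR.wt k) (Fin.cons (1 / g) (fun _ => 0) : Fin (n + 2) → K)
          (Fin.cons y x : Fin (n + 2) → K) D).det := by
    funext D
    rw [h5, wrows_det hx0]
  rw [h6]
  refine ⟨Pool.Agent.R882.WR.wrows_pluri _ _ _ _, fun P _ => ?_⟩
  exact Pool.Agent.R882.WR.cover_reg ha hs hAw (by omega) hZ ⟨0, by
    rw [Fin.cons_succ, hx0]
    exact one_ne_zero⟩ hc P

/-- the form `dx_1 ∧ ⋯ ∧ dx_n` is not zero, and is pulled back from the base -/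
theorem det_form {n : ℕ} {z : Fin n → K} (hz : AlgebraicIndependent ℂ z) :
    (fun D : Fin n → Derivation ℂ K K => (Matrix.of fun i l : Fin n => D i (z l)).det) ≠ 0 ∧
    ∀ (D : Fin n → Derivation ℂ (IntermediateField.adjoin ℂ (Set.range z))
      (IntermediateField.adjoin ℂ (Set.range z))) (D' : Fin n → Derivation ℂ K K),
      (∀ i (f : IntermediateField.adjoin ℂ (Set.range z)), D' i (f : K) = (D i f : K)) →
        (Matrix.of fun i l : Fin n => D' i (z l)).det ∈ IntermediateField.adjoin ℂ (Set.range z) := by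
  constructor
  · intro h0
    obtain ⟨D, hD⟩ := exists_ders hz
    have h1 := congrFun h0 D
    have h2 : (Matrix.of fun i l : Fin n => D i (z l)) = 1 := by
      ext i l
      rw [Matrix.of_apply, hD, Matrix.one_apply]
    simp only [h2, Matrix.det_one] at h1
    exact one_ne_zero h1
  · intro D D' hDD
    obtain ⟨E, hE⟩ : ∃ E : IntermediateField ℂ K, E = IntermediateField.adjoin ℂ (Set.range z) :=
      ⟨_, rfl⟩
    have h1 : ∀ l, z l ∈ IntermediateField.adjoin ℂ (Set.range z) := fun l =>
      IntermediateField.subset_adjoin _ _ ⟨l, rfl⟩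
    have h2 : (Matrix.of fun i l : Fin n => D' i (z l)) =
        (Matrix.of fun i l : Fin n => D i ⟨z l, h1 l⟩).map
          (algebraMap (IntermediateField.adjoin ℂ (Set.range z)) K) := by
      ext i l
      exact hDD i ⟨z l, h1 l⟩
    have h3 : ((Matrix.of fun i l : Fin n => D i ⟨z l, h1 l⟩).map
          (algebraMap (IntermediateField.adjoin ℂ (Set.range z)) K)).det =
        algebraMap _ K (Matrix.of fun i l : Fin n => D i ⟨z l, h1 l⟩).det :=
      (RingHom.map_det (algebraMap (IntermediateField.adjoin ℂ (Set.range z)) K) _).symm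
    rw [h2, h3]
    exact ((Matrix.of fun i l : Fin n => D i ⟨z l, h1 l⟩).det).2

end

end Pool.Agent.K6.H68.CC
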