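import Mathlib

/-!
Kummer extensions of several elements, over a field which contains the complex numbers.
-/

set_option autoImplicit false
set_option linter.unusedSectionVars false
set_option linter.unusedVariables false

open Polynomial

namespace Pool.Agent.K6.H68.CC

section

variable {K : Type} [Field K] [Algebra ℂ K]

/-- Kummer extensions -/
theorem kummer (E : IntermediateField ℂ K) {c : ℕ} {w : Fin c → K} {N : Fin c → ℕ}
    (hN : ∀ k, 0 < N k) (hw0 : ∀ k, w k ≠ 0) (hw : ∀ k, w k ^ N k ∈ E)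
    (hgen : ∀ a : K, a ∈ IntermediateField.adjoin E (Set.range w)) :
    FiniteDimensional E K ∧ IsGalois E K ∧ (∀ g h : K ≃ₐ[E] K, g * h = h * g) ∧
    ∃ θ : Fin c → (K ≃ₐ[E] K) →* ℂ, (∀ k g, θ k g ^ N k = 1) ∧
      (∀ k (g : K ≃ₐ[E] K), g (w k) = algebraMap ℂ K (θ k g) * w k) ∧
        ∀ g, (∀ k, θ k g = 1) → g = 1 := by
  classical
  have htop : IntermediateField.adjoin E (Set.range w) = ⊤ := by
    rw [eq_top_iff]
    exact fun a _ => hgen a
  have hroot : ∀ k, aeval (w k) (X ^ N k - C (⟨w k ^ N k, hw k⟩ : E)) = 0 := by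
    intro k
    rw [map_sub, map_pow, aeval_X, aeval_C]
    exact sub_self _
  have hmonic : ∀ k, (X ^ N k - C (⟨w k ^ N k, hw k⟩ : E)).Monic := fun k =>
    monic_X_pow_sub_C _ (hN k).ne'
  have hint : ∀ k, IsIntegral E (w k) := fun k => ⟨_, hmonic k, hroot k⟩
  have hfin : FiniteDimensional E K := by
    have h1 : FiniteDimensional E (IntermediateField.adjoin E (Set.range w)) :=
      IntermediateField.finiteDimensional_adjoin fun x hx => by
        obtain ⟨k, rfl⟩ := hx
        exact hint k
    rw [htop] at h1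
    exact Module.Finite.equiv (IntermediateField.topEquiv (F := E) (E := K)).toLinearEquiv
  have hcE : CharZero E := charZero_of_injective_algebraMap (algebraMap ℂ _).injective
  have hsplits : ∀ k, ((minpoly E (w k)).map (algebraMap E K)).Splits := by
    intro k
    have h1 : (X ^ N k - C (w k ^ N k) : K[X]).Splits := by
      have hζ : IsPrimitiveRoot (algebraMap ℂ K (Complex.exp (2 * Real.pi * Complex.I / N k)))
          (N k) := (Complex.isPrimitiveRoot_exp (N k) (hN k).ne').map_of_injective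
            (algebraMap ℂ K).injective
      exact X_pow_sub_C_splits_of_isPrimitiveRoot hζ rfl
    refine Splits.of_dvd h1 (monic_X_pow_sub_C _ (hN k).ne').ne_zero ?_
    have h2 : (X ^ N k - C (w k ^ N k) : K[X]) =
        (X ^ N k - C (⟨w k ^ N k, hw k⟩ : E)).map (algebraMap E K) := by
      rw [Polynomial.map_sub, Polynomial.map_pow, Polynomial.map_X, Polynomial.map_C]
      rfl
    rw [h2]
    exact Polynomial.map_dvd _ (minpoly.dvd _ _ (hroot k))
  have hnormal : Normal E K := by
    rw [normal_iff]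
    intro a
    refine ⟨Algebra.IsIntegral.isIntegral a, ?_⟩
    refine IntermediateField.splits_of_mem_adjoin (F := E) (K := K) (L := K)
      (S := Set.range w) (splits := ?_) (hx := hgen a)
    rintro _ ⟨k, rfl⟩
    exact ⟨hint k, hsplits k⟩
  have hsep : Algebra.IsSeparable E K := inferInstance
  have hgal : IsGalois E K := ⟨⟩
  -- the characters
  have hθ : ∀ k (g : K ≃ₐ[E] K), ∃ θ : ℂ, θ ^ N k = 1 ∧ g (w k) = algebraMap ℂ K θ * w k := by
    intro k g
    have hζ : IsPrimitiveRoot (algebraMap ℂ K (Complex.exp (2 * Real.pi * Complex.I / N k)))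
        (N k) := (Complex.isPrimitiveRoot_exp (N k) (hN k).ne').map_of_injective
          (algebraMap ℂ K).injective
    have hN0 : NeZero (N k) := ⟨(hN k).ne'⟩
    have h1 : (g (w k) / w k) ^ N k = 1 := by
      have h2 : g (w k ^ N k) = w k ^ N k := g.commutes ⟨w k ^ N k, hw k⟩
      rw [div_pow, ← map_pow, h2, div_self (pow_ne_zero _ (hw0 k))]
    obtain ⟨i, -, hi⟩ := hζ.eq_pow_of_pow_eq_one h1
    refine ⟨Complex.exp (2 * Real.pi * Complex.I / N k) ^ i, ?_, ?_⟩
    · rw [← pow_mul, mul_comm i (N k), pow_mul, (Complex.isPrimitiveRoot_exp (N k) (hN k).ne').pow_eq_one,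
        one_pow]
    · rw [map_pow, hi, div_mul_cancel₀ _ (hw0 k)]
  choose θ hθ1 hθ2 using hθ
  have hmul : ∀ k g h, θ k (g * h) = θ k g * θ k h := by
    intro k g h
    apply (algebraMap ℂ K).injective
    apply mul_right_cancel₀ (hw0 k)
    rw [← hθ2, map_mul, AlgEquiv.mul_apply, hθ2 k h, map_mul, hθ2 k g]
    have h3 : g (algebraMap ℂ K (θ k h)) = algebraMap ℂ K (θ k h) :=
      g.commutes (algebraMap ℂ E (θ k h))
    rw [h3]
    ring
  have hone : ∀ k, θ k 1 = 1 := by
    intro k
    apply (algebraMap ℂ K).injective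
    apply mul_right_cancel₀ (hw0 k)
    rw [← hθ2, map_one, one_mul]
    rfl
  have hext : ∀ g h : K ≃ₐ[E] K, (∀ k, g (w k) = h (w k)) → g = h := by
    intro g h hgh
    ext a
    refine IntermediateField.adjoin_induction (p := fun a _ => g a = h a) E ?_ ?_ ?_ ?_ ?_ (hgen a)
    · rintro _ ⟨k, rfl⟩
      exact hgh k
    · intro e
      rw [g.commutes, h.commutes]
    · intro a b _ _ ha hb
      rw [map_add, map_add, ha, hb]
    · intro a _ ha
      rw [map_inv₀, map_inv₀, ha]
    · intro a b _ _ ha hb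
      rw [map_mul, map_mul, ha, hb]
  refine ⟨hfin, hgal, ?_, fun k => { toFun := θ k, map_one' := hone k, map_mul' := hmul k }, hθ1,
    hθ2, ?_⟩
  · intro g h
    refine hext _ _ fun k => ?_
    rw [hθ2, hθ2, hmul, hmul, mul_comm (θ k g)]
  · intro g hg
    refine hext _ _ fun k => ?_
    have h1 : θ k g = 1 := hg k
    rw [hθ2, h1, map_one, one_mul]
    rfl

end

end Pool.Agent.K6.H68.CC
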