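import Mathlib

/-!
Characters of finite groups which are monomials, and units.
-/

set_option autoImplicit false

namespace Pool.Agent.K6.H68.CC

/-- every character is a monomial in characters which separate points -/
theorem char_mono {G : Type} [Group G] [Fintype G] {ι : Type} [Fintype ι] (θ : ι → G →* ℂ)
    (N : ι → ℕ) (hN : ∀ k, 0 < N k) (hθ : ∀ k g, θ k g ^ N k = 1)
    (hsep : ∀ g, (∀ k, θ k g = 1) → g = 1) (χ : G →* ℂ) :
    ∃ s : ι → ℕ, (∀ k, s k < N k) ∧ ∀ g, χ g = ∏ k, θ k g ^ s k := by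
  classical
  by_contra hcon
  push Not at hcon
  have hinv : ∀ x : G, χ x * χ x⁻¹ = 1 := fun x => by
    rw [← map_mul, mul_inv_cancel, map_one]
  have h1 : ∀ s ∈ Fintype.piFinset (fun k => Finset.range (N k)),
      ∑ g, χ g⁻¹ * ∏ k, θ k g ^ s k = 0 := by
    intro s hs
    rw [Fintype.mem_piFinset] at hs
    obtain ⟨g0, hg0⟩ := hcon s fun k => Finset.mem_range.1 (hs k)
    have h2 : (χ g0⁻¹ * ∏ k, θ k g0 ^ s k) * ∑ g, χ g⁻¹ * ∏ k, θ k g ^ s k =
        ∑ g, χ g⁻¹ * ∏ k, θ k g ^ s k := by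
      rw [Finset.mul_sum]
      refine Fintype.sum_equiv (Equiv.mulLeft g0) _ _ fun g => ?_
      rw [Equiv.coe_mulLeft, mul_inv_rev, map_mul]
      have h3 : ∏ k, θ k (g0 * g) ^ s k = (∏ k, θ k g0 ^ s k) * ∏ k, θ k g ^ s k := by
        rw [← Finset.prod_mul_distrib]
        refine Finset.prod_congr rfl fun k _ => ?_
        rw [map_mul, mul_pow]
      rw [h3]
      ring
    have h4 : (χ g0⁻¹ * ∏ k, θ k g0 ^ s k - 1) * ∑ g, χ g⁻¹ * ∏ k, θ k g ^ s k = 0 := by
      rw [sub_mul, h2, one_mul, sub_self]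
    rcases mul_eq_zero.1 h4 with h5 | h5
    · exfalso
      apply hg0
      have h6 : χ g0⁻¹ * ∏ k, θ k g0 ^ s k = 1 := sub_eq_zero.1 h5
      calc χ g0 = χ g0 * (χ g0⁻¹ * ∏ k, θ k g0 ^ s k) := by rw [h6, mul_one]
        _ = (χ g0 * χ g0⁻¹) * ∏ k, θ k g0 ^ s k := by ring
        _ = ∏ k, θ k g0 ^ s k := by rw [hinv, one_mul]
    · exact h5
  have h2 : ∑ s ∈ Fintype.piFinset (fun k => Finset.range (N k)),
      ∑ g, χ g⁻¹ * ∏ k, θ k g ^ s k = 0 := Finset.sum_eq_zero h1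
  rw [Finset.sum_comm] at h2
  have h3 : ∀ g, ∑ s ∈ Fintype.piFinset (fun k => Finset.range (N k)), χ g⁻¹ * ∏ k, θ k g ^ s k =
      χ g⁻¹ * ∏ k, ∑ j ∈ Finset.range (N k), θ k g ^ j := by
    intro g
    rw [← Finset.mul_sum, Finset.prod_univ_sum]
  rw [Finset.sum_congr rfl fun g _ => h3 g, Finset.sum_eq_single 1] at h2
  · rw [inv_one, map_one, one_mul, Finset.prod_eq_zero_iff] at h2
    obtain ⟨k, -, hk⟩ := h2
    rw [Finset.sum_congr rfl fun j _ => by rw [map_one, one_pow], Finset.sum_const,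
      Finset.card_range, nsmul_eq_mul, mul_one] at hk
    exact (hN k).ne' (by exact_mod_cast hk)
  · intro g _ hg
    have h4 : ∃ k, θ k g ≠ 1 := by
      by_contra h5
      push Not at h5
      exact hg (hsep g h5)
    obtain ⟨k, hk⟩ := h4
    have h5 : ∑ j ∈ Finset.range (N k), θ k g ^ j = 0 := by
      have h6 := mul_geom_sum (θ k g) (N k)
      rw [hθ, sub_self] at h6
      exact (mul_eq_zero.1 h6).resolve_left (sub_ne_zero.2 hk)
    rw [Finset.prod_eq_zero (Finset.mem_univ k) h5, mul_zero]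
  · intro h
    exact absurd (Finset.mem_univ _) h

/-- multiplication by a unit -/
theorem exists_unit {N D s : ℕ} (hD : 0 < D) (hND : N ∣ D) (hs : ¬ N ∣ s) :
    ∃ t : ℕ, t.Coprime D ∧ 0 < t * s % N ∧ t * s % N ≤ N / N.minFac := by
  have hN : 0 < N := Nat.pos_of_dvd_of_pos hND hD
  have hD0 : NeZero D := ⟨hD.ne'⟩
  obtain ⟨d, hd⟩ : ∃ d, d = s.gcd N := ⟨_, rfl⟩
  have hdpos : 0 < d := by
    rw [hd]
    exact Nat.gcd_pos_of_pos_right _ hN
  obtain ⟨s', hs'⟩ : d ∣ s := by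
    rw [hd]
    exact Nat.gcd_dvd_left _ _
  obtain ⟨m, hm⟩ : d ∣ N := by
    rw [hd]
    exact Nat.gcd_dvd_right _ _
  have hcop : s'.Coprime m := by
    have h1 : s.gcd N = d * s'.gcd m := by
      rw [hs', hm, Nat.gcd_mul_left]
    rw [← hd] at h1
    have h2 : d * 1 = d * s'.gcd m := by omega
    exact (Nat.eq_of_mul_eq_mul_left hdpos h2).symm
  have hmpos : 0 < m := by
    rcases Nat.eq_zero_or_pos m with h | h
    · rw [h, mul_zero] at hm
      omega
    · exact h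
  have hm2 : 2 ≤ m := by
    by_contra h
    have h1 : m = 1 := by omega
    apply hs
    rw [hm, h1, mul_one, hs']
    exact dvd_mul_right _ _
  have hmD : m ∣ D := (Dvd.intro_left d hm.symm).trans hND
  obtain ⟨v, hv⟩ := ZMod.unitsMap_surjective hmD (ZMod.unitOfCoprime s' hcop)⁻¹
  refine ⟨(v : ZMod D).val, ZMod.val_coe_unit_coprime v, ?_⟩
  have h1 : (((v : ZMod D).val * s' : ℕ) : ZMod m) = ((1 : ℕ) : ZMod m) := by
    have h2 : ((ZMod.unitsMap hmD v : (ZMod m)ˣ) : ZMod m) * ((ZMod.unitOfCoprime s' hcop :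
        (ZMod m)ˣ) : ZMod m) = 1 := by
      rw [hv, ← Units.val_mul, inv_mul_cancel, Units.val_one]
    rw [ZMod.coe_unitOfCoprime, ZMod.unitsMap_val] at h2
    rw [Nat.cast_mul, ZMod.natCast_val, h2, Nat.cast_one]
  have h3 : (v : ZMod D).val * s' ≡ 1 [MOD m] := (ZMod.natCast_eq_natCast_iff _ _ _).1 h1
  have h4 : (v : ZMod D).val * s % N = d := by
    have h5 : (v : ZMod D).val * s' * d ≡ 1 * d [MOD m * d] := Nat.ModEq.mul_right' d h3
    have h6 : (v : ZMod D).val * s' * d = (v : ZMod D).val * s := by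
      rw [hs']
      ring
    rw [h6, one_mul, mul_comm m d, ← hm] at h5
    have h7 : d < N := by
      rw [hm]
      nlinarith
    have h8 : (v : ZMod D).val * s % N = d % N := h5
    rw [h8, Nat.mod_eq_of_lt h7]
  rw [h4]
  refine ⟨hdpos, ?_⟩
  have h5 : N / m = d := by
    rw [hm]
    exact Nat.mul_div_cancel _ hmpos
  rw [← h5]
  exact Nat.div_le_div_left (Nat.minFac_le_of_dvd hm2 (Dvd.intro_left d hm.symm))
    (Nat.minFac_pos N)

end Pool.Agent.K6.H68.CC
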