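import Pool.Agent.N364.GP.CIA
import Pool.Agent.K6.H68.CC.Kum
import Pool.Agent.K6.H68.CC.Mono
import Pool.Agent.K6.H68.CC.CoverB
import Pool.Agent.K6.H68.CC.Abel2

/-!
Smooth complete intersections which are abelian covers of projective space.
-/

set_option autoImplicit false
set_option linter.overlappingInstances false
set_option linter.unusedSectionVars false
set_option linter.unusedVariables false
set_option maxHeartbeats 4000000
set_option synthInstance.maxHeartbeats 400000

open FF Module MvPolynomial Pool.Agent.W602.GT Pool.Agent.N162.BC Pool.Agent.N162.GP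
  Pool.Agent.N364.GP

namespace Pool.Agent.K6.H68.CC

section

variable {K : Type} [Field K] [Algebra ℂ K]

/-- `Unit ⊕ Fin n ≃ Fin (n + 1)` -/
def ue (n : ℕ) : Unit ⊕ Fin n ≃ Fin (n + 1) where
  toFun := Sum.elim (fun _ => 0) Fin.succ
  invFun := Fin.cases (Sum.inl ()) Sum.inr
  left_inv := by
    rintro (⟨⟩ | l)
    · rfl
    · rfl
  right_inv := fun j => by
    refine Fin.cases ?_ (fun i => ?_) j
    · rfl
    · rfl

/-- the coordinates of the library -/
def ee {n c M : ℕ} (e : Fin (n + 1) ⊕ Fin c ≃ Fin (M + 2)) :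
    Fin c ⊕ (Unit ⊕ Fin n) ≃ Fin (M + 2) :=
  (Equiv.sumCongr (Equiv.refl _) (ue n)).trans ((Equiv.sumComm _ _).trans e)

/-- the equations -/
noncomputable def eqs {n c M : ℕ} (e : Fin (n + 1) ⊕ Fin c ≃ Fin (M + 2))
    (f : Fin c → MvPolynomial (Fin (n + 1)) ℂ) (N : Fin c → ℕ) (k : Fin c) :
    MvPolynomial (Fin (M + 2)) ℂ :=
  X (e (Sum.inr k)) ^ N k - rename (fun l => e (Sum.inl l)) (f k)

theorem det_mm {n c M : ℕ} (e : Fin (n + 1) ⊕ Fin c ≃ Fin (M + 2))
    (R : Unit ⊕ Fin n → Fin (M + 2) → K) :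
    (mm (ee e) (sr fun k => e (Sum.inr k)) R).det =
      (Matrix.of fun r s : Unit ⊕ Fin n => R r (e (Sum.inl (ue n s)))).det := by
  have h1 : mm (ee e) (sr fun k => e (Sum.inr k)) R = Matrix.fromBlocks 1 0
      (Matrix.of fun r k => R r (e (Sum.inr k)))
      (Matrix.of fun r s : Unit ⊕ Fin n => R r (e (Sum.inl (ue n s)))) := by
    ext a b
    rcases a with k | r
    · rcases b with k' | s
      · change (Pi.single (e (Sum.inr k)) 1 : Fin (M + 2) → K) (e (Sum.inr k')) =
          (1 : Matrix (Fin c) (Fin c) K) k k'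
        rw [Pi.single_apply, Matrix.one_apply]
        by_cases h : k = k'
        · rw [if_pos (by rw [h]), if_pos h]
        · rw [if_neg (fun h2 => h (Sum.inr_injective (e.injective h2)).symm), if_neg h]
      · change (Pi.single (e (Sum.inr k)) 1 : Fin (M + 2) → K) (e (Sum.inl (ue n s))) = 0
        rw [Pi.single_apply, if_neg]
        intro h2
        exact Sum.inl_ne_inr (e.injective h2)
    · rcases b with k' | s
      · rfl
      · rfl
  rw [h1, Matrix.det_fromBlocks_zero₁₂, Matrix.det_one, one_mul]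

theorem mnr_eq {n c M : ℕ} (e : Fin (n + 1) ⊕ Fin c ≃ Fin (M + 2))
    (f : Fin c → MvPolynomial (Fin (n + 1)) ℂ) (N : Fin c → ℕ) (x : Fin (M + 2) → K) :
    mnr (gr (eqs e f N) x) (fun k => e (Sum.inr k)) =
      ∏ k, ((N k : K) * x (e (Sum.inr k)) ^ (N k - 1)) := by
  have h1 : (Matrix.of fun k i => gr (eqs e f N) x (e (Sum.inr k)) i) =
      Matrix.diagonal fun k => ((N k : K) * x (e (Sum.inr k)) ^ (N k - 1)) := by
    ext k i
    rw [Matrix.of_apply, Matrix.diagonal_apply]
    unfold gr eqs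
    have h2 : pderiv (e (Sum.inr k)) (rename (fun l => e (Sum.inl l)) (f i)) = 0 := by
      refine pderiv_eq_zero_of_notMem_vars fun h3 => ?_
      have h4 := vars_rename _ _ h3
      rw [Finset.mem_image] at h4
      obtain ⟨l, -, hl⟩ := h4
      exact Sum.inl_ne_inr (e.injective hl)
    rw [map_sub, h2, sub_zero, Derivation.leibniz_pow, pderiv_X]
    by_cases h : k = i
    · subst h
      rw [if_pos rfl]
      simp
    · rw [if_neg h, Pi.single_apply, if_neg]
      · simp
      · intro h5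
        exact h (Sum.inr_injective (e.injective h5.symm))
  unfold mnr
  rw [h1, Matrix.det_diagonal]

/-- the eigenforms -/
theorem eigen_om {n c M : ℕ} (e : Fin (n + 1) ⊕ Fin c ≃ Fin (M + 2)) (he : e (Sum.inl 0) = 0)
    (f : Fin c → MvPolynomial (Fin (n + 1)) ℂ) (N : Fin c → ℕ) (hN : ∀ k, 0 < N k)
    {x : Fin (M + 2) → K} (hx0 : x 0 = 1) (hw0 : ∀ k, x (e (Sum.inr k)) ≠ 0)
    {E : IntermediateField ℂ K} (hE : ∀ l, x (e (Sum.inl l)) ∈ E)
    (D : Fin n → Derivation ℂ E E) (D' : Fin n → Derivation ℂ K K)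
    (hD : ∀ i (f : E), D' i (f : K) = (D i f : K)) (g : K ≃ₐ[E] K) {θ : Fin c → ℂ}
    (hθ : ∀ k, θ k ^ N k = 1) (hg : ∀ k, g (x (e (Sum.inr k))) =
      algebraMap ℂ K (θ k) * x (e (Sum.inr k))) (v : Fin c → ℕ) :
    g ((∏ k, x (e (Sum.inr k)) ^ v k) * om (ee e) (eqs e f N) x (fun k => e (Sum.inr k)) D') =
      algebraMap ℂ K (∏ k, θ k ^ (v k + 1)) *
        ((∏ k, x (e (Sum.inr k)) ^ v k) *
          om (ee e) (eqs e f N) x (fun k => e (Sum.inr k)) D') := by
  classical
  unfold om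
  rw [det_mm, mnr_eq]
  obtain ⟨T, hT⟩ : ∃ T : Fin c → K, ∀ k, T k = algebraMap ℂ K (θ k) := ⟨_, fun _ => rfl⟩
  have hTN : ∀ k, T k * T k ^ (N k - 1) = 1 := by
    intro k
    rw [← pow_succ', Nat.sub_add_cancel (hN k), hT, ← map_pow, hθ, map_one]
  -- the determinant
  have hdet : g (Matrix.of fun r s : Unit ⊕ Fin n => RR x D' r (e (Sum.inl (ue n s)))).det =
      (Matrix.of fun r s : Unit ⊕ Fin n => RR x D' r (e (Sum.inl (ue n s)))).det := by
    have hmem : ∀ r s : Unit ⊕ Fin n, RR x D' r (e (Sum.inl (ue n s))) ∈ E := by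
      intro r s
      rcases r with u | i
      · exact hE _
      · change D' i (x (e (Sum.inl (ue n s)))) ∈ E
        rw [hD i ⟨x (e (Sum.inl (ue n s))), hE _⟩]
        exact (D i _).2
    let A : Matrix (Unit ⊕ Fin n) (Unit ⊕ Fin n) E := Matrix.of fun r s => ⟨_, hmem r s⟩
    have hA : (Matrix.of fun r s : Unit ⊕ Fin n => RR x D' r (e (Sum.inl (ue n s)))) =
        (algebraMap E K).mapMatrix A := by
      ext r s
      rfl
    rw [hA, ← RingHom.map_det]
    exact g.commutes _
  have hmn : g (∏ k, ((N k : K) * x (e (Sum.inr k)) ^ (N k - 1))) =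
      (∏ k, T k ^ (N k - 1)) * ∏ k, ((N k : K) * x (e (Sum.inr k)) ^ (N k - 1)) := by
    rw [map_prod, ← Finset.prod_mul_distrib]
    refine Finset.prod_congr rfl fun k _ => ?_
    rw [map_mul, map_natCast, map_pow, hg, ← hT, mul_pow]
    ring
  have hinv : (∏ k, T k ^ (N k - 1))⁻¹ = ∏ k, T k := by
    refine inv_eq_of_mul_eq_one_left ?_
    rw [← Finset.prod_mul_distrib]
    exact Finset.prod_eq_one fun k _ => hTN k
  have hv : g (∏ k, x (e (Sum.inr k)) ^ v k) = (∏ k, T k ^ v k) * ∏ k, x (e (Sum.inr k)) ^ v k := by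
    rw [map_prod, ← Finset.prod_mul_distrib]
    refine Finset.prod_congr rfl fun k _ => ?_
    rw [map_pow, hg, ← hT, mul_pow]
  have hth : algebraMap ℂ K (∏ k, θ k ^ (v k + 1)) = (∏ k, T k ^ v k) * ∏ k, T k := by
    rw [map_prod, ← Finset.prod_mul_distrib]
    refine Finset.prod_congr rfl fun k _ => ?_
    rw [map_pow, ← hT, pow_succ]
  rw [map_mul, map_mul, map_inv₀, hmn, hdet, hv, hth, mul_inv, hinv]
  ring

theorem pow_mod_natCard_aux {a : ℂ} {N : ℕ} (h : a ^ N = 1) (m : ℕ) : a ^ (m % N) = a ^ m := by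
  conv_rhs => rw [← Nat.mod_add_div m N, pow_add, pow_mul, h, one_pow, mul_one]

/-- **Smooth complete intersections which are abelian covers of projective space.** -/
theorem ci_main {n c M B : ℕ} (hn : 1 ≤ n) {e : Fin (n + 1) ⊕ Fin c ≃ Fin (M + 2)}
    (he : e (Sum.inl 0) = 0) {f : Fin c → MvPolynomial (Fin (n + 1)) ℂ} {N : Fin c → ℕ}
    {x : Fin (M + 2) → K} (h : SmoothCI (eqs e f N) N x) (hK : Algebra.trdeg ℂ K = (n : ℕ))
    (hw0 : ∀ k, x (e (Sum.inr k)) ≠ 0) (hB : ∀ k, B + n + 1 ≤ N k - N k / (N k).minFac)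
    {E : IntermediateField ℂ K}
    (hE : E = IntermediateField.adjoin ℂ (Set.range fun l : Fin n => x (e (Sum.inl l.succ)))) :
    FiniteDimensional E K ∧ IsGalois E K ∧ (∀ g h : K ≃ₐ[E] K, g * h = h * g) ∧
    (∃ (F : IntermediateField ℂ E) (t : E), Transcendental F t ∧
      IntermediateField.adjoin F {t} = ⊤) ∧
    ∀ χ : (K ≃ₐ[E] K) →* ℂ, χ ≠ 1 → ∃ t : ℕ, t.Coprime (Module.finrank E K) ∧
      ∃ ω : (Fin n → Derivation ℂ K K) → K, ω ≠ 0 ∧
        (∀ (D : Fin n → Derivation ℂ E E) (D' : Fin n → Derivation ℂ K K),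
          (∀ i (f : E), D' i (f : K) = (D i f : K)) →
            ∀ g : K ≃ₐ[E] K, g (ω D') = algebraMap ℂ K (χ g ^ t) * ω D') ∧
        ∀ a : Fin n → ℕ, ∑ l, a l ≤ B →
          GlobalForm n (fun D => (∏ l, x (e (Sum.inl l.succ)) ^ a l) * ω D) := by
  classical
  have hN : ∀ k, 0 < N k := fun k => by
    have h1 := hB k
    obtain ⟨i, hi⟩ : ∃ i, i = N k / (N k).minFac := ⟨_, rfl⟩
    rw [← hi] at h1
    omega
  have hcardM : n + 1 + c = M + 2 := by
    have h1 := Fintype.card_congr e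
    simpa using h1
  have hx : ∀ i, aeval x (eqs e f N i) = 0 := fun i =>
    (h.generic (N i) (eqs e f N i) (h.hom i)).2 (Ideal.le_radical (Ideal.subset_span ⟨i, rfl⟩))
  have hxE : ∀ l, x (e (Sum.inl l)) ∈ E := by
    intro l
    rw [hE]
    refine Fin.cases ?_ (fun i => ?_) l
    · rw [he, h.one]
      exact one_mem _
    · exact IntermediateField.subset_adjoin ℂ _ ⟨i, rfl⟩
  have hwE : ∀ k, x (e (Sum.inr k)) ^ N k ∈ E := by
    intro k
    have h1 := hx k
    unfold eqs at h1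
    rw [map_sub, map_pow, aeval_X, sub_eq_zero, aeval_rename] at h1
    rw [h1]
    have h2 := MvPolynomial.aeval_algebraMap_apply (R := ℂ) (A := E) K
      (fun l => (⟨x (e (Sum.inl l)), hxE l⟩ : E)) (f k)
    have h3 : (x ∘ fun l => e (Sum.inl l)) =
        ((algebraMap E K : E → K) ∘ fun l => (⟨x (e (Sum.inl l)), hxE l⟩ : E)) := rfl
    rw [h3, h2]
    exact (aeval (fun l => (⟨x (e (Sum.inl l)), hxE l⟩ : E)) (f k)).2
  have hgen : ∀ a : K, a ∈ IntermediateField.adjoin E (Set.range fun k => x (e (Sum.inr k))) := by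
    intro a
    have h1 : IntermediateField.adjoin ℂ (Set.range x) ≤
        (IntermediateField.adjoin E (Set.range fun k => x (e (Sum.inr k)))).restrictScalars ℂ := by
      rw [IntermediateField.adjoin_le_iff]
      rintro _ ⟨j, rfl⟩
      obtain ⟨s, rfl⟩ := e.surjective j
      rcases s with l | k
      · exact (IntermediateField.adjoin E (Set.range fun k => x (e (Sum.inr k)))).algebraMap_mem
          ⟨x (e (Sum.inl l)), hxE l⟩
      · exact IntermediateField.subset_adjoin E _ ⟨k, rfl⟩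
    rw [h.gen] at h1
    exact h1 (IntermediateField.mem_top (x := a))
  obtain ⟨hfin, hgal, hcomm, θ, hθ1, hθ2, hθ3⟩ := kummer E hN hw0 hwE hgen
  -- the base
  have hind : AlgebraicIndependent ℂ (fun l : Fin n => x (e (Sum.inl l.succ))) := by
    have halg : ∀ τ : K, IsAlgebraic (IntermediateField.adjoin ℂ
        (Set.range fun l : Fin n => x (e (Sum.inl l.succ)))) τ := fun τ => by
      rw [← hE]
      exact (Algebra.IsIntegral.isIntegral τ).isAlgebraic
    have h1 := Pool.Agent.W619.PQ.alg_adjoin halg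
    exact (Algebra.IsAlgebraic.isTranscendenceBasis_of_lift_le_trdeg_of_finite ℂ
      (fun l : Fin n => x (e (Sum.inl l.succ))) (by rw [hK]; simp)).1
  have hruled : ∃ (F : IntermediateField ℂ E) (t : E), Transcendental F t ∧
      IntermediateField.adjoin F {t} = ⊤ := by
    have h1 := ruled_of_indep hn hind
    rw [← hE] at h1
    exact h1
  refine ⟨hfin, hgal, hcomm, hruled, fun χ hχ => ?_⟩
  have hcardG : Fintype.card (K ≃ₐ[E] K) = Module.finrank E K := by
    rw [← Nat.card_eq_fintype_card]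
    exact IsGalois.card_aut_eq_finrank E K
  obtain ⟨s, hs, hχs⟩ := char_mono θ N hN hθ1 hθ3 χ
  have hex : ∃ k, s k ≠ 0 := by
    by_contra hcon
    push Not at hcon
    apply hχ
    ext g
    rw [hχs, MonoidHom.one_apply]
    exact Finset.prod_eq_one fun k _ => by rw [hcon k, pow_zero]
  obtain ⟨k0, hk0⟩ := hex
  have hfr : 0 < Module.finrank E K := Module.finrank_pos
  obtain ⟨t, htc, ht0, htle⟩ := exists_unit (N := N k0) (D := N k0 * Module.finrank E K)
    (s := s k0) (Nat.mul_pos (hN k0) hfr) (dvd_mul_right _ _) (fun hdvd => by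
      have := Nat.le_of_dvd (Nat.pos_of_ne_zero hk0) hdvd
      have := hs k0
      omega)
  obtain ⟨v, hv⟩ : ∃ v : Fin c → ℕ, ∀ k, v k = (t * s k + (N k - 1)) % N k := ⟨_, fun _ => rfl⟩
  have hvlt : ∀ k, v k ≤ N k - 1 := fun k => by
    rw [hv]
    have := Nat.mod_lt (t * s k + (N k - 1)) (hN k)
    omega
  have hvk0 : v k0 + 1 ≤ N k0 / (N k0).minFac := by
    have h1 : v k0 + 1 = t * s k0 % N k0 := by
      obtain ⟨r, hr⟩ : ∃ r, r = t * s k0 % N k0 := ⟨_, rfl⟩
      rw [← hr] at ht0 ⊢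
      have hrlt : r < N k0 := by
        rw [hr]
        exact Nat.mod_lt _ (hN k0)
      have h2 : (t * s k0 + (N k0 - 1)) % N k0 = (r + (N k0 - 1)) % N k0 := by
        rw [hr, Nat.mod_add_mod]
      have h3 : r + (N k0 - 1) = (r - 1) + N k0 := by
        have := hN k0
        omega
      rw [hv, h2, h3, Nat.add_mod_right, Nat.mod_eq_of_lt (by omega)]
      omega
    rw [h1]
    exact htle
  -- the character
  have hchar : ∀ g, ∏ k, θ k g ^ (v k + 1) = χ g ^ t := by
    intro g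
    rw [hχs, ← Finset.prod_pow]
    refine Finset.prod_congr rfl fun k _ => ?_
    have h1 : (v k + 1) % N k = (t * s k) % N k := by
      have h2 : v k + 1 ≡ t * s k + (N k - 1) + 1 [MOD N k] := by
        rw [hv]
        exact Nat.ModEq.add_right 1 (Nat.mod_modEq _ _)
      have h3 : t * s k + (N k - 1) + 1 = t * s k + N k := by
        have := hN k
        omega
      rw [h3] at h2
      have h4 : t * s k + N k ≡ t * s k [MOD N k] := by
        unfold Nat.ModEq
        rw [Nat.add_mod_right]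
      exact h2.trans h4
    rw [← pow_mod_natCard_aux (hθ1 k g) (v k + 1), h1, pow_mod_natCard_aux (hθ1 k g), mul_comm,
      pow_mul]
  -- the degrees
  obtain ⟨V, hV⟩ : ∃ V, V = ∑ k, v k := ⟨_, rfl⟩
  have hsumN : B + V + (M + 2) ≤ ∑ k, N k := by
    have h1 : ∑ k, N k = ∑ k, (N k - 1 - v k) + ∑ k, v k + c := by
      have h2 : ∀ k, N k = (N k - 1 - v k) + v k + 1 := fun k => by
        have := hvlt k
        have := hN k
        omega
      calc ∑ k, N k = ∑ k, ((N k - 1 - v k) + v k + 1) := Finset.sum_congr rfl fun k _ => h2 k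
        _ = _ := by
          rw [Finset.sum_add_distrib, Finset.sum_add_distrib, Finset.sum_const, Finset.card_univ,
            Fintype.card_fin, smul_eq_mul, mul_one]
    have h3 : N k0 - 1 - v k0 ≤ ∑ k, (N k - 1 - v k) :=
      Finset.single_le_sum (f := fun k => N k - 1 - v k) (fun _ _ => Nat.zero_le _)
        (Finset.mem_univ k0)
    have h4 := hB k0
    obtain ⟨i, hi⟩ : ∃ i, i = N k0 / (N k0).minFac := ⟨_, rfl⟩
    rw [← hi] at h4 hvk0
    rw [h1, ← hV]
    omega
  obtain ⟨m, hm⟩ : ∃ m, m + M + 2 = ∑ k, N k := ⟨∑ k, N k - (M + 2), by omega⟩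
  have hcK : CharZero K := charZero_of_injective_algebraMap (algebraMap ℂ _).injective
  have hI : mnr (gr (eqs e f N) x) (fun k => e (Sum.inr k)) ≠ 0 := by
    rw [mnr_eq]
    exact Finset.prod_ne_zero_iff.2 fun k _ => mul_ne_zero (Nat.cast_ne_zero.2 (hN k).ne')
      (pow_ne_zero _ (hw0 k))
  refine ⟨t, Nat.Coprime.coprime_mul_left_right htc, fun D => (∏ k, x (e (Sum.inr k)) ^ v k) *
    om (ee e) (eqs e f N) x (fun k => e (Sum.inr k)) D, ?_, ?_, ?_⟩
  · intro h0
    obtain ⟨z', D0, -, hD0⟩ := Pool.Agent.Y944.NT.exists_crd hK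
    have h1 := om_ne (ee e) h.hom hx h.one h.gen hI hD0
    have h2 := congrFun h0 D0
    exact mul_ne_zero (Finset.prod_ne_zero_iff.2 fun k _ => pow_ne_zero _ (hw0 k)) h1 h2
  · intro D D' hDD g
    have h1 := eigen_om e he f N hN h.one hw0 hxE D D' hDD g (fun k => hθ1 k g)
      (fun k => hθ2 k g) v
    rw [hchar g] at h1
    exact h1
  · intro a ha
    obtain ⟨s', hs'⟩ : ∃ s', s' = m - ∑ l, a l - V := ⟨_, rfl⟩
    obtain ⟨A, hA⟩ : ∃ A : MvPolynomial (Fin (M + 2)) ℂ,
      A = (∏ l : Fin n, X (e (Sum.inl l.succ)) ^ a l) * (∏ k, X (e (Sum.inr k)) ^ v k) *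
        X 0 ^ s' := ⟨_, rfl⟩
    have hAh : A.IsHomogeneous m := by
      have h1 : (∏ l : Fin n, (X (e (Sum.inl l.succ)) : MvPolynomial (Fin (M + 2)) ℂ) ^
          a l).IsHomogeneous (∑ l, a l) :=
        IsHomogeneous.prod _ _ _ fun l _ => isHomogeneous_X_pow _ _
      have h2 : (∏ k : Fin c, (X (e (Sum.inr k)) : MvPolynomial (Fin (M + 2)) ℂ) ^
          v k).IsHomogeneous (∑ k, v k) :=
        IsHomogeneous.prod _ _ _ fun l _ => isHomogeneous_X_pow _ _
      have h3 := (h1.mul h2).mul (isHomogeneous_X_pow (R := ℂ) (0 : Fin (M + 2)) s')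
      rw [← hA, ← hV] at h3
      have h4 : ∑ l, a l + V + s' = m := by omega
      rw [h4] at h3
      exact h3
    have h5 : aeval x A = (∏ l : Fin n, x (e (Sum.inl l.succ)) ^ a l) *
        ∏ k, x (e (Sum.inr k)) ^ v k := by
      rw [hA, map_mul, map_mul, map_prod, map_prod, map_pow, aeval_X, h.one, one_pow, mul_one]
      congr 1
      · exact Finset.prod_congr rfl fun l _ => by rw [map_pow, aeval_X]
      · exact Finset.prod_congr rfl fun l _ => by rw [map_pow, aeval_X]
    have h6 : (fun D : Fin n → Derivation ℂ K K => (∏ l, x (e (Sum.inl l.succ)) ^ a l) *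
        ((∏ k, x (e (Sum.inr k)) ^ v k) *
          om (ee e) (eqs e f N) x (fun k => e (Sum.inr k)) D)) =
        fun D => aeval x A * om (ee e) (eqs e f N) x (fun k => e (Sum.inr k)) D := by
      funext D
      rw [h5]
      ring
    rw [h6]
    exact ⟨om_pluri (ee e) _ x _ _, fun P _ => om_reg (ee e) h.hom h.smooth hm (by omega) hx
      (by rw [h.one]; exact one_ne_zero) hI hAh P⟩

end

end Pool.Agent.K6.H68.CC
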