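import Mathlib

/-!
Integral relations between the powers of the roots of unity.
-/

set_option autoImplicit false

open Polynomial

namespace Pool.Agent.K6.H68.CC

/-- If the integers `a i` satisfy `∑ a_i ζ ^ (i b / m) = 0` for all divisors `m > 1` of `b`, then they are
all equal. -/
theorem all_equal {Ω : Type} [Field Ω] [CharZero Ω] {b : ℕ} (hb : 0 < b) {ζ : Ω}
    (hζ : IsPrimitiveRoot ζ b) (a : ℕ → ℤ)
    (h : ∀ m, m ∣ b → 1 < m → ∑ i ∈ Finset.range b, (a i : Ω) * (ζ ^ i) ^ (b / m) = 0) :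
    ∀ i < b, ∀ j < b, a i = a j := by
  classical
  obtain ⟨A, hA⟩ : ∃ A : ℚ[X], A = ∑ i ∈ Finset.range b, C (a i : ℚ) * X ^ i := ⟨_, rfl⟩
  have hdiv : ∀ m ∈ b.divisors.erase 1, cyclotomic m ℚ ∣ A := by
    intro m hm
    rw [Finset.mem_erase, Nat.mem_divisors] at hm
    obtain ⟨hm1, hmb, hb0⟩ := hm
    have hmpos : 0 < m := Nat.pos_of_dvd_of_pos hmb hb
    have hprim : IsPrimitiveRoot (ζ ^ (b / m)) m :=
      hζ.pow hb (Nat.div_mul_cancel hmb).symm
    rw [cyclotomic_eq_minpoly_rat hprim hmpos]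
    refine minpoly.dvd ℚ _ ?_
    rw [hA, map_sum, ← h m hmb (by omega)]
    refine Finset.sum_congr rfl fun i _ => ?_
    rw [map_mul, map_pow, aeval_X, aeval_C, ← pow_mul, ← pow_mul, mul_comm (b / m) i]
    congr 1
    simp
  have hprod : ∏ m ∈ b.divisors.erase 1, cyclotomic m ℚ ∣ A := by
    refine Finset.prod_dvd_of_coprime ?_ hdiv
    intro m _ m' _ hne
    exact cyclotomic.isCoprime_rat hne
  rw [prod_cyclotomic_eq_geom_sum hb] at hprod
  obtain ⟨q, hq⟩ := hprod
  have hcoefA : ∀ j < b, A.coeff j = (a j : ℚ) := by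
    intro j hj
    rw [hA, finset_sum_coeff]
    rw [Finset.sum_eq_single j]
    · rw [coeff_C_mul, coeff_X_pow, if_pos rfl, mul_one]
    · intro i _ hij
      rw [coeff_C_mul, coeff_X_pow, if_neg (Ne.symm hij), mul_zero]
    · intro hn
      exact absurd (Finset.mem_range.2 hj) hn
  have hcoefG : ∀ j < b, (∑ i ∈ Finset.range b, (X : ℚ[X]) ^ i).coeff j = 1 := by
    intro j hj
    rw [finset_sum_coeff, Finset.sum_eq_single j]
    · rw [coeff_X_pow, if_pos rfl]
    · intro i _ hij
      rw [coeff_X_pow, if_neg (Ne.symm hij)]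
    · intro hn
      exact absurd (Finset.mem_range.2 hj) hn
  have hdegA : A.degree < b := by
    rw [hA]
    refine lt_of_le_of_lt (degree_sum_le _ _) ?_
    rw [Finset.sup_lt_iff (by exact WithBot.bot_lt_coe b)]
    intro i hi
    refine lt_of_le_of_lt (degree_C_mul_X_pow_le _ _) ?_
    exact_mod_cast Finset.mem_range.1 hi
  have hconst : ∃ r : ℚ, q = C r := by
    by_cases hq0 : q = 0
    · exact ⟨0, by rw [hq0, C_0]⟩
    · have hG0 : (∑ i ∈ Finset.range b, (X : ℚ[X]) ^ i) ≠ 0 := by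
        intro h0
        have h1 := hcoefG 0 hb
        rw [h0, coeff_zero] at h1
        exact zero_ne_one h1
      have hdG : b - 1 ≤ (∑ i ∈ Finset.range b, (X : ℚ[X]) ^ i).natDegree := by
        refine le_natDegree_of_ne_zero ?_
        rw [hcoefG _ (by omega)]
        exact one_ne_zero
      have hA0 : A ≠ 0 := by
        rw [hq]
        exact mul_ne_zero hG0 hq0
      have h1 : A.natDegree < b := (natDegree_lt_iff_degree_lt hA0).2 hdegA
      rw [hq, natDegree_mul hG0 hq0] at h1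
      have h2 : q.natDegree = 0 := by omega
      exact ⟨q.coeff 0, eq_C_of_natDegree_eq_zero h2⟩
  obtain ⟨r, hr⟩ := hconst
  have hall : ∀ j < b, (a j : ℚ) = r := by
    intro j hj
    rw [← hcoefA j hj, hq, hr, coeff_mul_C, hcoefG j hj, one_mul]
  intro i hi j hj
  have h1 := (hall i hi).trans (hall j hj).symm
  exact_mod_cast h1

end Pool.Agent.K6.H68.CC
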