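import Pool.Agent.K6.H68.CC.Main

/-!
Correspondences which hit few fibres of a generically finite map: cycles which are pulled back from a
ruled variety.
-/

set_option autoImplicit false
set_option linter.overlappingInstances false
set_option linter.unusedSectionVars false
set_option linter.unusedDecidableInType false
set_option linter.unusedFintypeInType false
set_option linter.unusedVariables false
set_option maxHeartbeats 4000000
set_option synthInstance.maxHeartbeats 400000

open FF Module Pool.Agent.W602.GT Pool.Agent.N162.BC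

namespace Pool.Agent.K6.H68.CC

section

variable {K Ω : Type} [Field K] [Algebra ℂ K] [Field Ω] [Algebra ℂ Ω]

/-- Cycles which are pulled back from a ruled variety. -/
theorem rat_pulled [IsAlgClosed Ω] [Algebra.EssFiniteType ℂ K] (Ef : IntermediateField ℂ K)
    [FiniteDimensional Ef K] (F : IntermediateField ℂ Ef) (t : Ef) (ht : Transcendental F t)
    (htop : IntermediateField.adjoin F {t} = ⊤) {c : (K →ₐ[ℂ] Ω) →₀ ℤ}
    (hc : ∀ σ τ : K →ₐ[ℂ] Ω, (∀ e : Ef, σ (e : K) = τ (e : K)) → c σ = c τ) : c ∈ Rat K Ω := by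
  classical
  have hcF : CharZero F := charZero_of_injective_algebraMap (algebraMap ℂ F).injective
  obtain ⟨L, hL⟩ : ∃ L : IntermediateField ℂ K,
    ∀ a : K, a ∈ L ↔ IsAlgebraic F a := by
    refine ⟨(algebraicClosure F K).restrictScalars ℂ, fun a => ?_⟩
    rw [← mem_algebraicClosure_iff (F := F) (E := K)]
    rfl
  have hFL : ∀ f : F, ((f : Ef) : K) ∈ L := fun f => by
    rw [hL]
    exact isAlgebraic_algebraMap f
  -- algebraic elements over `L`
  have hLF : ∀ a : K, IsAlgebraic L a → IsAlgebraic F a := by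
    intro a ha
    let j : F →+* L := ((algebraMap Ef K).comp (algebraMap F Ef)).codRestrict L.toSubfield hFL
    let i1 : Algebra F L := j.toAlgebra
    have i2 : IsScalarTower F L K := IsScalarTower.of_algebraMap_eq fun f => rfl
    have i3 : Algebra.IsAlgebraic F L := ⟨fun l => by
      have h1 := (hL (l : K)).1 l.2
      exact (isAlgebraic_algebraMap_iff (algebraMap L K).injective).1 h1⟩
    exact IsAlgebraic.restrictScalars F ha
  have hLK : ∀ a : K, IsAlgebraic L a → a ∈ L := fun a ha => (hL a).2 (hLF a ha)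
  have htK : Transcendental L (t : K) := by
    intro h
    apply ht
    exact (isAlgebraic_algebraMap_iff (algebraMap Ef K).injective).1 (hLF _ h)
  have hmem : ∀ e : Ef, (e : K) ∈ IntermediateField.adjoin L {(t : K)} := by
    intro e
    have he : e ∈ IntermediateField.adjoin F {t} := by
      rw [htop]
      trivial
    induction he using IntermediateField.adjoin_induction with
    | mem e he =>
      rw [Set.mem_singleton_iff.1 he]
      exact IntermediateField.mem_adjoin_simple_self L _
    | algebraMap f =>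
      exact (IntermediateField.adjoin L {(t : K)}).algebraMap_mem ⟨((f : Ef) : K), hFL f⟩
    | add a b _ _ ha hb => exact add_mem ha hb
    | inv a _ ha => exact inv_mem ha
    | mul a b _ _ ha hb => exact mul_mem ha hb
  have hfin : Module.Finite (IntermediateField.adjoin L {(t : K)}) K := by
    let j : Ef →+* IntermediateField.adjoin L {(t : K)} :=
      (algebraMap Ef K).codRestrict (IntermediateField.adjoin L {(t : K)}).toSubfield hmem
    let i1 : Algebra Ef (IntermediateField.adjoin L {(t : K)}) := j.toAlgebra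
    have i2 : IsScalarTower Ef (IntermediateField.adjoin L {(t : K)}) K :=
      IsScalarTower.of_algebraMap_eq fun f => rfl
    exact Module.Finite.of_restrictScalars_finite Ef _ K
  have hFF : IsFF L K := IsFF.of_finite (f := (t : K)) htK hfin
  refine rat_const L hLK htK fun σ τ h1 h2 => hc σ τ fun e => ?_
  have he : e ∈ IntermediateField.adjoin F {t} := by
    rw [htop]
    trivial
  induction he using IntermediateField.adjoin_induction with
  | mem e he =>
    rw [Set.mem_singleton_iff.1 he]
    exact h2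
  | algebraMap f =>
    have h3 := congrArg (fun g : L →ₐ[ℂ] Ω => g ⟨((f : Ef) : K), hFL f⟩) h1
    exact h3
  | add a b _ _ ha hb =>
    have h4 : ((a + b : Ef) : K) = (a : K) + (b : K) := rfl
    rw [h4, map_add, map_add, ha, hb]
  | inv a _ ha =>
    have h4 : ((a⁻¹ : Ef) : K) = (a : K)⁻¹ := rfl
    rw [h4, map_inv₀, map_inv₀, ha]
  | mul a b _ _ ha hb =>
    have h4 : ((a * b : Ef) : K) = (a : K) * (b : K) := rfl
    rw [h4, map_mul, map_mul, ha, hb]

/-- **Few fibres of a generically finite map.** -/
theorem main [IsAlgClosed Ω] [Algebra.EssFiniteType ℂ K] {n : ℕ}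
    (hK : Algebra.trdeg ℂ K = (n : ℕ)) {q M : ℕ} {z : Fin q → K}
    [FiniteDimensional (IntermediateField.adjoin ℂ (Set.range z)) K]
    (hruled : ∃ (F : IntermediateField ℂ (IntermediateField.adjoin ℂ (Set.range z)))
      (t : IntermediateField.adjoin ℂ (Set.range z)), Transcendental F t ∧
        IntermediateField.adjoin F {t} = ⊤)
    (hmon : (Module.finrank (IntermediateField.adjoin ℂ (Set.range z)) K).Prime ∨
      DoublyTransitive (IntermediateField.adjoin ℂ (Set.range z)) K)
    {ω : (Fin n → Derivation ℂ K K) → K} (hω0 : ω ≠ 0)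
    (hglob : ∀ a : Fin q → ℕ, ∑ l, a l ≤ M →
      GlobalForm n (fun D => (∏ l, z l ^ a l) * ω D))
    {c : (K →ₐ[ℂ] Ω) →₀ ℤ} (hc : NullTrace n c)
    (hcard : Set.ncard {u : Fin q → Ω | ∃ σ : K →ₐ[ℂ] Ω, c σ ≠ 0 ∧ u = fun l => σ (z l)} ≤ M + 1) :
    (∀ σ τ : K →ₐ[ℂ] Ω, (∀ l, σ (z l) = τ (z l)) → c σ = c τ) ∧ c ∈ Rat K Ω := by
  classical
  have hEn : Algebra.trdeg ℂ (IntermediateField.adjoin ℂ (Set.range z)) = (n : ℕ) :=
    Pool.Agent.Y184.NT.trdeg_below (K := K) hK
  have hessE : Algebra.EssFiniteType ℂ (IntermediateField.adjoin ℂ (Set.range z)) :=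
    Pool.Agent.TH466.QG.ess_below (K := K)
  have hpg : GenusZero (IntermediateField.adjoin ℂ (Set.range z)) n := by
    refine genusZero_of_uniruled hEn (Pool.Agent.TH466.QG.uniruled_below
      (F := IntermediateField.adjoin ℂ (Set.range z))
      (K := IntermediateField.adjoin ℂ (Set.range z)) hEn ?_)
    obtain ⟨F, t, ht, htop⟩ := hruled
    exact ⟨F, t, ht, htop⟩
  have hcard' : (c.support.image fun σ l => σ (z l)).card ≤ M + 1 := by
    refine le_trans (le_of_eq ?_) hcard
    rw [← Set.ncard_coe_finset]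
    congr 1
    ext u
    rw [Finset.coe_image, Set.mem_image, Set.mem_ofPred_eq]
    constructor
    · rintro ⟨σ, hσ, rfl⟩
      exact ⟨σ, Finsupp.mem_support_iff.1 hσ, rfl⟩
    · rintro ⟨σ, hσ, rfl⟩
      exact ⟨σ, Finsupp.mem_support_iff.2 hσ, rfl⟩
  have h1 : ∀ σ τ : K →ₐ[ℂ] Ω, (∀ l, σ (z l) = τ (z l)) → c σ = c τ := fun σ τ h =>
    step hK hpg hmon hω0 hglob hc hcard' h
  refine ⟨h1, ?_⟩
  obtain ⟨F, t, ht, htop⟩ := hruled
  refine rat_pulled (IntermediateField.adjoin ℂ (Set.range z)) F t ht htop fun σ τ h => ?_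
  exact h1 σ τ fun l => h ⟨z l, IntermediateField.subset_adjoin _ _ ⟨l, rfl⟩⟩

end

end Pool.Agent.K6.H68.CC
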