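import Pool.Agent.K6.H68.CC.Perm

/-!
Integral relations between the conjugates of an element of an extension of prime degree, or of an
extension with doubly transitive Galois group.
-/

set_option autoImplicit false

open Polynomial

namespace Pool.Agent.K6.H68.CC

/-- The Galois group of the Galois closure of the finite extension `K` of `E` is doubly transitive on
the embeddings of `K`. -/
def DoublyTransitive (E K : Type) [Field E] [Field K] [Algebra E K] : Prop :=
  ∀ σ τ σ' τ' : K →ₐ[E] AlgebraicClosure E, σ ≠ τ → σ' ≠ τ' →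
    ∃ g : AlgebraicClosure E ≃ₐ[E] AlgebraicClosure E,
      (∀ a, g (σ a) = σ' a) ∧ ∀ a, g (τ a) = τ' a

section

variable {E K : Type} [Field E] [Field K] [Algebra E K]

theorem exists_conj (σ τ : K →ₐ[E] AlgebraicClosure E) :
    ∃ g : AlgebraicClosure E ≃ₐ[E] AlgebraicClosure E, ∀ a, g (σ a) = τ a := by
  let χ : σ.fieldRange ≃ₐ[E] τ.fieldRange :=
    (AlgEquiv.ofInjectiveField σ).symm.trans (AlgEquiv.ofInjectiveField τ)
  refine ⟨χ.liftNormal (AlgebraicClosure E), fun a => ?_⟩
  have h1 := χ.liftNormal_commutes (AlgebraicClosure E) (AlgEquiv.ofInjectiveField σ a)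
  have h2 : algebraMap σ.fieldRange (AlgebraicClosure E) (AlgEquiv.ofInjectiveField σ a) = σ a :=
    rfl
  rw [h2] at h1
  rw [h1]
  have h3 : χ (AlgEquiv.ofInjectiveField σ a) = AlgEquiv.ofInjectiveField τ a := by
    change AlgEquiv.ofInjectiveField τ ((AlgEquiv.ofInjectiveField σ).symm
      (AlgEquiv.ofInjectiveField σ a)) = _
    rw [AlgEquiv.symm_apply_apply]
  rw [h3]
  rfl

/-- the permutation of the embeddings -/
noncomputable def perm (g : AlgebraicClosure E ≃ₐ[E] AlgebraicClosure E) :
    Equiv.Perm (K →ₐ[E] AlgebraicClosure E) where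
  toFun σ := (g : AlgebraicClosure E →ₐ[E] AlgebraicClosure E).comp σ
  invFun σ := (g.symm : AlgebraicClosure E →ₐ[E] AlgebraicClosure E).comp σ
  left_inv σ := by
    ext a
    exact g.symm_apply_apply _
  right_inv σ := by
    ext a
    exact g.apply_symm_apply _

/-- the homomorphism to the group of permutations -/
noncomputable def permHom : (AlgebraicClosure E ≃ₐ[E] AlgebraicClosure E) →*
    Equiv.Perm (K →ₐ[E] AlgebraicClosure E) where
  toFun := perm
  map_one' := by
    ext σ a
    rfl
  map_mul' g g' := by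
    ext σ a
    rfl

/-- **Integral relations between conjugates.** -/
theorem core [CharZero E] [FiniteDimensional E K]
    (hmon : (Module.finrank E K).Prime ∨ DoublyTransitive E K)
    (hζ : ∀ N : ℕ, 0 < N → ∃ ζ : AlgebraicClosure E, IsPrimitiveRoot ζ N) {w : K} (hw : w ≠ 0)
    (htr : Algebra.trace E K w = 0) (a : (K →ₐ[E] AlgebraicClosure E) → ℤ)
    (h : ∑ σ, (a σ : AlgebraicClosure E) * σ w = 0) (σ τ : K →ₐ[E] AlgebraicClosure E) :
    a σ = a τ := by
  classical
  have hcA : CharZero (AlgebraicClosure E) := charZero_of_injective_algebraMap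
    (algebraMap E (AlgebraicClosure E)).injective
  have hv : ∀ σ : K →ₐ[E] AlgebraicClosure E, σ w ≠ 0 := fun σ => (map_ne_zero σ).2 hw
  have hs : ∑ σ : K →ₐ[E] AlgebraicClosure E, σ w = 0 := by
    have h1 := trace_eq_sum_embeddings (K := E) (L := K) (AlgebraicClosure E) (x := w)
    rw [← h1, htr, map_zero]
  have hrel : ∀ p ∈ (permHom (E := E) (K := K)).range, ∑ σ, (a σ : AlgebraicClosure E) *
      (p σ) w = 0 := by
    rintro _ ⟨g, rfl⟩
    have h1 : g (∑ σ, (a σ : AlgebraicClosure E) * σ w) = 0 := by rw [h, map_zero]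
    rw [← h1, map_sum]
    refine Finset.sum_congr rfl fun σ _ => ?_
    rw [map_mul, map_intCast]
    rfl
  rcases hmon with hp | h2
  · have hcard : Fintype.card (K →ₐ[E] AlgebraicClosure E) = Module.finrank E K :=
      AlgHom.card _ _ _
    obtain ⟨ζ, hz⟩ := hζ _ hp.pos
    rw [← hcard] at hz hp
    refine const_of_prime (permHom (E := E) (K := K)).range (fun σ τ => ?_) hp hz
      (v := fun σ => σ w) hv hs hrel σ τ
    obtain ⟨g, hg⟩ := exists_conj σ τ
    refine ⟨permHom g, ⟨g, rfl⟩, ?_⟩
    ext a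
    exact hg a
  · refine const_of_two (permHom (E := E) (K := K)).range (fun σ τ σ' τ' h1 h3 => ?_)
      (v := fun σ => σ w) hv hs hrel σ τ
    obtain ⟨g, hg, hg'⟩ := h2 σ τ σ' τ' h1 h3
    refine ⟨permHom g, ⟨g, rfl⟩, ?_, ?_⟩
    · ext a
      exact hg a
    · ext a
      exact hg' a

end

end Pool.Agent.K6.H68.CC
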