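import Pool.Agent.K6.H68.CC.CI

/-!
Kummer covers of projective space with normal crossings: the canonical forms.
-/

set_option autoImplicit false
set_option linter.overlappingInstances false
set_option linter.unusedSectionVars false
set_option linter.unusedVariables false
set_option maxHeartbeats 4000000
set_option synthInstance.maxHeartbeats 400000

open FF Module MvPolynomial Pool.Agent.W602.GT Pool.Agent.N162.BC Pool.Agent.N162.GP
  Pool.Agent.N364.GP

namespace Pool.Agent.K6.H68.CC

section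

variable {K : Type} [Field K] [Algebra ℂ K]

/-- all coordinates -/
def allc {n c M : ℕ} (e : Fin (n + 1) ⊕ Fin c ≃ Fin (M + 2)) {R : Type} (x : Fin (n + 1) → R)
    (w : Fin c → R) (l : Fin (M + 2)) : R := Sum.elim x w (e.symm l)

theorem allc_inl {n c M : ℕ} (e : Fin (n + 1) ⊕ Fin c ≃ Fin (M + 2)) {R : Type}
    (x : Fin (n + 1) → R) (w : Fin c → R) (l : Fin (n + 1)) :
    allc e x w (e (Sum.inl l)) = x l := by
  unfold allc
  rw [Equiv.symm_apply_apply]
  rfl

theorem allc_inr {n c M : ℕ} (e : Fin (n + 1) ⊕ Fin c ≃ Fin (M + 2)) {R : Type}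
    (x : Fin (n + 1) → R) (w : Fin c → R) (k : Fin c) :
    allc e x w (e (Sum.inr k)) = w k := by
  unfold allc
  rw [Equiv.symm_apply_apply]
  rfl

theorem gr_inr {n c M : ℕ} (e : Fin (n + 1) ⊕ Fin c ≃ Fin (M + 2))
    (f : Fin c → MvPolynomial (Fin (n + 1)) ℂ) (N : Fin c → ℕ) (x : Fin (n + 1) → K)
    (w : Fin c → K) (k i : Fin c) :
    gr (eqs e f N) (allc e x w) (e (Sum.inr k)) i =
      if k = i then (N k : K) * w k ^ (N k - 1) else 0 := by
  unfold gr eqs
  have h2 : pderiv (e (Sum.inr k)) (rename (fun l => e (Sum.inl l)) (f i)) = 0 := by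
    refine pderiv_eq_zero_of_notMem_vars fun h3 => ?_
    have h4 := vars_rename _ _ h3
    rw [Finset.mem_image] at h4
    obtain ⟨l, -, hl⟩ := h4
    exact Sum.inl_ne_inr (e.injective hl)
  rw [map_sub, h2, sub_zero, Derivation.leibniz_pow, pderiv_X]
  by_cases h : k = i
  · subst h
    rw [if_pos rfl]
    simp [allc_inr]
  · rw [if_neg h, Pi.single_apply, if_neg]
    · simp
    · intro h5
      exact h (Sum.inr_injective (e.injective h5.symm))

theorem gr_inl {n c M : ℕ} (e : Fin (n + 1) ⊕ Fin c ≃ Fin (M + 2))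
    (f : Fin c → MvPolynomial (Fin (n + 1)) ℂ) (N : Fin c → ℕ) (x : Fin (n + 1) → K)
    (w : Fin c → K) (l : Fin (n + 1)) (i : Fin c) :
    gr (eqs e f N) (allc e x w) (e (Sum.inl l)) i = - aeval x (pderiv l (f i)) := by
  unfold gr eqs
  have hinj : Function.Injective fun l => e (Sum.inl l) := fun a b h =>
    Sum.inl_injective (e.injective h)
  have h1 : pderiv (e (Sum.inl l)) (rename (fun l => e (Sum.inl l)) (f i)) =
      rename (fun l => e (Sum.inl l)) (pderiv l (f i)) :=
    pderiv_rename hinj l (f i)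
  have h2 : pderiv (e (Sum.inl l)) (X (e (Sum.inr i)) ^ N i : MvPolynomial (Fin (M + 2)) ℂ) =
      0 := by
    rw [Derivation.leibniz_pow, pderiv_X_of_ne (fun h => Sum.inl_ne_inr (e.injective h).symm),
      smul_zero, smul_zero]
  have hx : (allc e x w ∘ fun l => e (Sum.inl l)) = x := funext fun j => allc_inl e x w j
  rw [map_sub, h1, h2, zero_sub, map_neg, aeval_rename, hx]

theorem aeval_eqs {n c M : ℕ} (e : Fin (n + 1) ⊕ Fin c ≃ Fin (M + 2))
    (f : Fin c → MvPolynomial (Fin (n + 1)) ℂ) (N : Fin c → ℕ) (x : Fin (n + 1) → K)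
    (w : Fin c → K) (i : Fin c) :
    aeval (allc e x w) (eqs e f N i) = w i ^ N i - aeval x (f i) := by
  unfold eqs
  have hx : (allc e x w ∘ fun l => e (Sum.inl l)) = x := funext fun j => allc_inl e x w j
  rw [map_sub, map_pow, aeval_X, allc_inr, aeval_rename, hx]

/-- smoothness -/
theorem smooth_of_nc {n c M : ℕ} (e : Fin (n + 1) ⊕ Fin c ≃ Fin (M + 2))
    {f : Fin c → MvPolynomial (Fin (n + 1)) ℂ} {N b : Fin c → ℕ} (hN : ∀ k, 0 < N k)
    (hb : ∀ k, 0 < b k) (hf : ∀ k, (f k).IsHomogeneous (N k * b k))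
    (hnc : ∀ p : Fin (n + 1) → ℂ, p ≠ 0 → LinearIndependent ℂ
      fun (k : {k : Fin c // eval p (f k) = 0}) (l : Fin (n + 1)) => eval p (pderiv l (f k))) :
    ∀ z : Fin (M + 2) → ℂ, z ≠ 0 → (∀ i, eval z (eqs e f N i) = 0) →
      LinearIndependent ℂ fun (i : Fin c) (l : Fin (M + 2)) => eval z (pderiv l (eqs e f N i)) := by
  classical
  intro z hz0 hz
  obtain ⟨p, hp⟩ : ∃ p : Fin (n + 1) → ℂ, p = fun l => z (e (Sum.inl l)) := ⟨_, rfl⟩
  obtain ⟨u, hu⟩ : ∃ u : Fin c → ℂ, u = fun k => z (e (Sum.inr k)) := ⟨_, rfl⟩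
  have hzz : z = allc e p u := by
    funext l
    obtain ⟨s, rfl⟩ := e.surjective l
    rcases s with l | k
    · rw [allc_inl, hp]
    · rw [allc_inr, hu]
  have hev : ∀ (q : ℕ) (y : Fin q → ℂ) (F : MvPolynomial (Fin q) ℂ), eval y F = aeval y F :=
    fun q y F => rfl
  have heq : ∀ i, u i ^ N i = eval p (f i) := by
    intro i
    have h1 := hz i
    rw [hev, hzz, aeval_eqs, sub_eq_zero] at h1
    exact h1
  have hp0 : p ≠ 0 := by
    intro h0
    apply hz0
    have h1 : ∀ i, u i = 0 := by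
      intro i
      have h2 := heq i
      have h3 : eval p (f i) = 0 := by
        have h4 := Pool.Agent.Y988.NT.aeval_smul_form (K := ℂ) (hf i) 0 p
        rw [zero_pow (Nat.mul_pos (hN i) (hb i)).ne', zero_mul] at h4
        rw [hev, ← h4]
        congr 2
        rw [h0]
        funext j
        simp
      rw [h3] at h2
      exact (pow_eq_zero_iff (hN i).ne').1 h2
    rw [hzz]
    funext l
    obtain ⟨s, rfl⟩ := e.surjective l
    rcases s with l | k
    · rw [allc_inl, h0]
      rfl
    · rw [allc_inr, h1]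
      rfl
  have hli := hnc p hp0
  rw [Fintype.linearIndependent_iff] at hli ⊢
  intro g hg
  have hg' : ∀ l, ∑ i, g i * gr (eqs e f N) (allc e p u) l i = 0 := by
    intro l
    have h1 := congrFun hg l
    rw [Finset.sum_apply] at h1
    rw [← hzz]
    exact h1
  have hne : ∀ k, eval p (f k) ≠ 0 → g k = 0 := by
    intro k hk
    have h1 := hg' (e (Sum.inr k))
    rw [Finset.sum_eq_single k] at h1
    · rw [gr_inr, if_pos rfl] at h1
      have h2 : u k ≠ 0 := by
        intro h3
        apply hk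
        rw [← heq, h3, zero_pow (hN k).ne']
      have h3 : (N k : ℂ) * u k ^ (N k - 1) ≠ 0 :=
        mul_ne_zero (Nat.cast_ne_zero.2 (hN k).ne') (pow_ne_zero _ h2)
      exact (mul_eq_zero.1 h1).resolve_right h3
    · intro i _ hi
      rw [gr_inr, if_neg hi.symm, mul_zero]
    · intro h2
      exact absurd (Finset.mem_univ _) h2
  have hsub := hli (fun k => g k) (by
    funext l
    rw [Finset.sum_apply]
    have h1 := hg' (e (Sum.inl l))
    have h2 : ∑ i, g i * eval p (pderiv l (f i)) = 0 := by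
      have h3 : ∑ i, g i * eval p (pderiv l (f i)) =
          - ∑ i, g i * gr (eqs e f N) (allc e p u) (e (Sum.inl l)) i := by
        rw [← Finset.sum_neg_distrib]
        refine Finset.sum_congr rfl fun i _ => ?_
        rw [gr_inl, hev]
        ring
      rw [h3, h1, neg_zero]
    have h4 : ∑ k : {k : Fin c // eval p (f k) = 0}, g k * eval p (pderiv l (f k)) =
        ∑ k ∈ Finset.univ.filter (fun k => eval p (f k) = 0), g k * eval p (pderiv l (f k)) :=
      (Finset.sum_subtype (Finset.univ.filter fun k => eval p (f k) = 0) (by simp)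
        (fun k => g k * eval p (pderiv l (f k)))).symm
    change ∑ k : {k : Fin c // eval p (f k) = 0}, g k * eval p (pderiv l (f k)) = 0
    rw [h4, Finset.sum_filter]
    refine Eq.trans (Finset.sum_congr rfl fun k _ => ?_) h2
    by_cases h5 : eval p (f k) = 0
    · rw [if_pos h5]
    · rw [if_neg h5, hne k h5, zero_mul])
  intro k
  by_cases h5 : eval p (f k) = 0
  · exact hsub ⟨k, h5⟩
  · exact hne k h5

end

end Pool.Agent.K6.H68.CC
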