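import Pool.Agent.K6.H68.CC.KC

/-!
Kummer covers of projective space with normal crossings: regularity of the forms.
-/

set_option autoImplicit false
set_option linter.overlappingInstances false
set_option linter.unusedSectionVars false
set_option linter.unusedVariables false
set_option maxHeartbeats 4000000
set_option synthInstance.maxHeartbeats 400000

open FF Module MvPolynomial Pool.Agent.W602.GT Pool.Agent.N162.BC Pool.Agent.N162.GP
  Pool.Agent.N364.GP

namespace Pool.Agent.K6.H68.CC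

section

variable {K : Type} [Field K] [Algebra ℂ K]

/-- the weights -/
def wtc {n c M : ℕ} (e : Fin (n + 1) ⊕ Fin c ≃ Fin (M + 2)) (b : Fin c → ℕ) (l : Fin (M + 2)) :
    ℕ := allc e (fun _ => 1) b l

/-- the rows of the weighted Euler field and the derivatives -/
def RW {n c M : ℕ} (e : Fin (n + 1) ⊕ Fin c ≃ Fin (M + 2)) (b : Fin c → ℕ)
    (y : Fin (M + 2) → K) (D : Fin n → Derivation ℂ K K) : Unit ⊕ Fin n → Fin (M + 2) → K :=
  Sum.elim (fun _ l => (wtc e b l : K) * y l) fun i l => D i (y l)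

theorem RW_G {n c M : ℕ} (e : Fin (n + 1) ⊕ Fin c ≃ Fin (M + 2))
    {f : Fin c → MvPolynomial (Fin (n + 1)) ℂ} {N b : Fin c → ℕ} (hN : ∀ k, 0 < N k)
    (hf : ∀ k, (f k).IsHomogeneous (N k * b k)) {x : Fin (n + 1) → K} {w : Fin c → K}
    (hw : ∀ k, w k ^ N k = aeval x (f k)) (D : Fin n → Derivation ℂ K K) (k : Unit ⊕ Fin n)
    (g : Fin c) : ∑ l, RW e b (allc e x w) D k l * gr (eqs e f N) (allc e x w) l g = 0 := by
  classical
  rcases k with u | i
  · change ∑ l, (wtc e b l : K) * allc e x w l * gr (eqs e f N) (allc e x w) l g = 0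
    rw [← Equiv.sum_comp e, Fintype.sum_sum_type]
    have h1 : ∑ l : Fin (n + 1), (wtc e b (e (Sum.inl l)) : K) * allc e x w (e (Sum.inl l)) *
        gr (eqs e f N) (allc e x w) (e (Sum.inl l)) g = - ((N g * b g : ℕ) : K) *
          aeval x (f g) := by
      have h2 := congrArg (aeval x) (hf g).sum_X_mul_pderiv
      rw [map_sum, map_nsmul, nsmul_eq_mul] at h2
      rw [neg_mul, ← h2, ← Finset.sum_neg_distrib]
      refine Finset.sum_congr rfl fun l _ => ?_
      rw [wtc, allc_inl, allc_inl, gr_inl, map_mul, aeval_X]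
      push_cast
      ring
    have h3 : ∑ k : Fin c, (wtc e b (e (Sum.inr k)) : K) * allc e x w (e (Sum.inr k)) *
        gr (eqs e f N) (allc e x w) (e (Sum.inr k)) g = ((N g * b g : ℕ) : K) * w g ^ N g := by
      rw [Finset.sum_eq_single g]
      · rw [wtc, allc_inr, allc_inr, gr_inr, if_pos rfl]
        have h4 : w g ^ N g = w g * w g ^ (N g - 1) := by
          rw [← pow_succ', Nat.sub_add_cancel (hN g)]
        rw [h4]
        push_cast
        ring
      · intro k _ hk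
        rw [gr_inr, if_neg hk, mul_zero]
      · intro h
        exact absurd (Finset.mem_univ _) h
    rw [h1, h3, hw]
    ring
  · have h := Pool.Agent.Y988.NT.der_aeval (D i) (allc e x w) (eqs e f N g)
    rw [aeval_eqs, hw, sub_self, map_zero] at h
    rw [h]
    exact Finset.sum_congr rfl fun l _ => mul_comm _ _

/-- regularity -/
theorem kum_reg {n c M : ℕ} (e : Fin (n + 1) ⊕ Fin c ≃ Fin (M + 2))
    {f : Fin c → MvPolynomial (Fin (n + 1)) ℂ} {N b : Fin c → ℕ} (hN : ∀ k, 0 < N k)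
    (hb : ∀ k, 0 < b k) (hf : ∀ k, (f k).IsHomogeneous (N k * b k))
    (hs : ∀ z : Fin (M + 2) → ℂ, z ≠ 0 → (∀ i, eval z (eqs e f N i) = 0) →
      LinearIndependent ℂ fun (i : Fin c) (l : Fin (M + 2)) => eval z (pderiv l (eqs e f N i)))
    {x : Fin (n + 1) → K} {w : Fin c → K} (hx0 : x 0 = 1) (hw0 : ∀ k, w k ≠ 0)
    (hw : ∀ k, w k ^ N k = aeval x (f k)) (a : Fin n → ℕ) (v : Fin c → ℕ)
    (hdeg : ∑ l, a l + ∑ k, b k * v k + (n + 1) ≤ ∑ k, b k * (N k - 1)) (P : Place ℂ K) :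
    RegAt P (fun D : Fin n → Derivation ℂ K K => ((∏ l, x l.succ ^ a l) * ∏ k, w k ^ v k) *
      om (ee e) (eqs e f N) (allc e x w) (fun k => e (Sum.inr k)) D) := by
  classical
  intro D hD
  have hcK : CharZero K := charZero_of_injective_algebraMap (algebraMap ℂ _).injective
  obtain ⟨j, hj, hmin⟩ := Finset.exists_min_image (Finset.univ.filter fun l => x l ≠ 0)
    (fun l => P.ord (x l)) ⟨0, by simp [hx0]⟩
  have hj0 : x j ≠ 0 := (Finset.mem_filter.1 hj).2
  obtain ⟨μ, hμ⟩ : ∃ μ : K, μ = x j := ⟨_, rfl⟩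
  have hμ0 : μ ≠ 0 := by rw [hμ]; exact hj0
  obtain ⟨y, hy⟩ : ∃ y : Fin (n + 1) → K, ∀ l, y l = μ⁻¹ * x l := ⟨_, fun _ => rfl⟩
  have hxy : ∀ l, x l = μ * y l := by
    intro l
    rw [hy, mul_inv_cancel_left₀ hμ0]
  have hxy' : x = fun l => μ * y l := funext hxy
  have hy1 : y j = 1 := by
    rw [hy, ← hμ, inv_mul_cancel₀ hμ0]
  have hyreg : ∀ l, P.Reg (y l) := by
    intro l
    rw [hy]
    by_cases h0 : x l = 0
    · left
      rw [h0, mul_zero]
    · right
      rw [P.ord_mul (inv_ne_zero hμ0) h0, P.ord_inv, hμ]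
      have h1 := hmin l (by simp [h0])
      omega
  obtain ⟨u, hu⟩ : ∃ u : Fin c → K, ∀ k, u k = (μ ^ b k)⁻¹ * w k := ⟨_, fun _ => rfl⟩
  have hwu : ∀ k, w k = μ ^ b k * u k := by
    intro k
    rw [hu, mul_inv_cancel_left₀ (pow_ne_zero _ hμ0)]
  have hu0 : ∀ k, u k ≠ 0 := by
    intro k
    rw [hu]
    exact mul_ne_zero (inv_ne_zero (pow_ne_zero _ hμ0)) (hw0 k)
  have huy : ∀ k, u k ^ N k = aeval y (f k) := by
    intro k
    have h1 := hw k
    rw [hxy', Pool.Agent.Y988.NT.aeval_smul_form (hf k), hwu, mul_pow, ← pow_mul,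
      mul_comm (b k) (N k)] at h1
    exact mul_left_cancel₀ (pow_ne_zero _ hμ0) h1
  have hureg : ∀ k, P.Reg (u k) := by
    intro k
    right
    have h1 : P.Reg (u k ^ N k) := by
      rw [huy]
      exact Pool.Agent.Y988.NT.reg_aeval hyreg _
    have h2 := h1.resolve_left (pow_ne_zero _ (hu0 k))
    rw [P.ord_pow] at h2
    have h3 : (0 : ℤ) < N k := by exact_mod_cast hN k
    exact nonneg_of_mul_nonneg_right h2 h3
  obtain ⟨Y, hY⟩ : ∃ Y : Fin (M + 2) → K, Y = allc e y u := ⟨_, rfl⟩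
  have hYreg : ∀ l, P.Reg (Y l) := by
    intro l
    rw [hY]
    obtain ⟨s, rfl⟩ := e.surjective l
    rcases s with l | k
    · rw [allc_inl]
      exact hyreg l
    · rw [allc_inr]
      exact hureg k
  have hFY : ∀ i, aeval Y (eqs e f N i) = 0 := by
    intro i
    rw [hY, aeval_eqs, huy, sub_self]
  obtain ⟨J, hJ1, hJ2⟩ := minor_unit hs hFY P hYreg (j := e (Sum.inl j)) (by
    rw [hY, allc_inl, hy1])
  -- the key identity
  have hkey := Pool.Agent.N364.GP.key (ee e) (gr (eqs e f N) Y) (sr fun k => e (Sum.inr k)) (sr J)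
    (RW e b Y D) (by
      rw [hY]
      exact RW_G e hN hf huy D)
  rw [pr_sr, pr_sr, det_mm] at hkey
  have hblock : (Matrix.of fun r s : Unit ⊕ Fin n => RW e b Y D r (e (Sum.inl (ue n s)))) =
      Matrix.of fun r s : Unit ⊕ Fin n => RR Y D r (e (Sum.inl (ue n s))) := by
    ext r s
    rcases r with u' | i
    · change (wtc e b (e (Sum.inl (ue n s))) : K) * Y (e (Sum.inl (ue n s))) =
        Y (e (Sum.inl (ue n s)))
      rw [wtc, allc_inl, Nat.cast_one, one_mul]
    · rfl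
  rw [hblock] at hkey
  have hmI : mnr (gr (eqs e f N) Y) (fun k => e (Sum.inr k)) = ∏ k, ((N k : K) *
      u k ^ (N k - 1)) := by
    rw [mnr_eq, hY]
    exact Finset.prod_congr rfl fun k _ => by rw [allc_inr]
  have hmI0 : mnr (gr (eqs e f N) Y) (fun k => e (Sum.inr k)) ≠ 0 := by
    rw [hmI]
    exact Finset.prod_ne_zero_iff.2 fun k _ => mul_ne_zero (Nat.cast_ne_zero.2 (hN k).ne')
      (pow_ne_zero _ (hu0 k))
  -- scaling of the base block
  have hscale : (Matrix.of fun r s : Unit ⊕ Fin n =>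
      RR (allc e x w) D r (e (Sum.inl (ue n s)))).det = μ ^ (n + 1) *
        (Matrix.of fun r s : Unit ⊕ Fin n => RR Y D r (e (Sum.inl (ue n s)))).det := by
    have h1 := mm_scale (ee e) (sr fun k => e (Sum.inr k)) Y D μ
    rw [det_mm, det_mm] at h1
    rw [← h1]
    congr 1
    ext r s
    rcases r with u' | i
    · change allc e x w (e (Sum.inl (ue n s))) = μ * Y (e (Sum.inl (ue n s)))
      rw [hY, allc_inl, allc_inl, hxy]
    · change D i (allc e x w (e (Sum.inl (ue n s)))) = D i (μ * Y (e (Sum.inl (ue n s))))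
      rw [hY, allc_inl, allc_inl, hxy]
  obtain ⟨s', hs'⟩ : ∃ s', ∑ l, a l + ∑ k, b k * v k + (n + 1) + s' = ∑ k, b k * (N k - 1) :=
    ⟨∑ k, b k * (N k - 1) - (∑ l, a l + ∑ k, b k * v k + (n + 1)), by omega⟩
  have hone : (μ * y 0) ^ s' = 1 := by
    rw [← hxy, hx0, one_pow]
  -- the value
  have hval : ((∏ l, x l.succ ^ a l) * ∏ k, w k ^ v k) *
      om (ee e) (eqs e f N) (allc e x w) (fun k => e (Sum.inr k)) D =
      (y 0 ^ s' * (∏ l, y l.succ ^ a l) * ∏ k, u k ^ v k) *
        ((mnr (gr (eqs e f N) Y) J)⁻¹ * (mm (ee e) (sr J) (RW e b Y D)).det) := by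
    unfold om
    rw [det_mm, mnr_eq, hscale]
    have h1 : ∏ l, x l.succ ^ a l = μ ^ (∑ l, a l) * ∏ l, y l.succ ^ a l := by
      rw [← Finset.prod_pow_eq_pow_sum, ← Finset.prod_mul_distrib]
      refine Finset.prod_congr rfl fun l _ => ?_
      rw [hxy, mul_pow]
    have h2 : ∏ k, w k ^ v k = μ ^ (∑ k, b k * v k) * ∏ k, u k ^ v k := by
      rw [← Finset.prod_pow_eq_pow_sum, ← Finset.prod_mul_distrib]
      refine Finset.prod_congr rfl fun k _ => ?_
      rw [hwu, mul_pow, ← pow_mul]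
    have h3 : ∏ k, ((N k : K) * allc e x w (e (Sum.inr k)) ^ (N k - 1)) =
        μ ^ (∑ k, b k * (N k - 1)) * ∏ k, ((N k : K) * u k ^ (N k - 1)) := by
      rw [← Finset.prod_pow_eq_pow_sum, ← Finset.prod_mul_distrib]
      refine Finset.prod_congr rfl fun k _ => ?_
      rw [allc_inr, hwu, mul_pow, ← pow_mul]
      ring
    have h4 : (mnr (gr (eqs e f N) Y) J)⁻¹ * (mm (ee e) (sr J) (RW e b Y D)).det =
        (∏ k, ((N k : K) * u k ^ (N k - 1)))⁻¹ *
          (Matrix.of fun r s : Unit ⊕ Fin n => RR Y D r (e (Sum.inl (ue n s)))).det := by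
      rw [← hmI]
      field_simp
      linear_combination -hkey
    rw [h1, h2, h3, h4, mul_inv, ← hs', pow_add, pow_add, pow_add]
    have h5 : (μ ^ s')⁻¹ = y 0 ^ s' := by
      rw [mul_pow] at hone
      exact inv_eq_of_mul_eq_one_right hone
    rw [mul_inv, mul_inv, mul_inv, h5]
    have h6 : μ ^ (∑ l, a l) ≠ 0 := pow_ne_zero _ hμ0
    have h7 : μ ^ (∑ k, b k * v k) ≠ 0 := pow_ne_zero _ hμ0
    have h8 : μ ^ (n + 1) ≠ 0 := pow_ne_zero _ hμ0
    field_simp
  show P.Reg (((∏ l, x l.succ ^ a l) * ∏ k, w k ^ v k) *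
      om (ee e) (eqs e f N) (allc e x w) (fun k => e (Sum.inr k)) D)
  rw [hval]
  have hregpow : ∀ (g : K) (m : ℕ), P.Reg g → P.Reg (g ^ m) := by
    intro g m hg
    induction m with
    | zero =>
      rw [pow_zero]
      exact P.reg_one
    | succ m ih =>
      rw [pow_succ]
      exact P.reg_mul ih hg
  have hregprod : ∀ {ι : Type} (s : Finset ι) (g : ι → K), (∀ i, P.Reg (g i)) →
      P.Reg (∏ i ∈ s, g i) := by
    intro ι s g hg
    induction s using Finset.induction_on with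
    | empty =>
      rw [Finset.prod_empty]
      exact P.reg_one
    | insert i s his ih =>
      rw [Finset.prod_insert his]
      exact P.reg_mul (hg i) ih
  refine P.reg_mul (P.reg_mul (P.reg_mul (hregpow _ _ (hyreg 0))
    (hregprod _ _ fun l => hregpow _ _ (hyreg _))) (hregprod _ _ fun k => hregpow _ _ (hureg _)))
    (P.reg_mul ?_ ?_)
  · right
    rw [P.ord_inv, hJ2]
    simp
  · refine Pool.Agent.Y988.NT.reg_det P _ fun r s => ?_
    rcases r with r | r | r
    · show P.Reg (sr J r (ee e s))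
      unfold sr
      rw [Pi.single_apply]
      split_ifs
      · exact P.reg_one
      · exact P.reg_zero
    · show P.Reg ((wtc e b (ee e s) : K) * Y (ee e s))
      refine P.reg_mul ?_ (hYreg _)
      have h1 : ((wtc e b (ee e s) : ℕ) : K) = aeval (fun _ : Fin 1 => (1 : K))
          (C ((wtc e b (ee e s) : ℕ) : ℂ) : MvPolynomial (Fin 1) ℂ) := by
        rw [aeval_C, map_natCast]
      rw [h1]
      exact Pool.Agent.Y988.NT.reg_aeval (fun _ => P.reg_one) _
    · exact hD r _ (hYreg (ee e s))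

end

end Pool.Agent.K6.H68.CC
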