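import Pool.Agent.K6.H68.CC.KC2

/-!
Kummer covers of projective space with normal crossings.
-/

set_option autoImplicit false
set_option linter.overlappingInstances false
set_option linter.unusedSectionVars false
set_option linter.unusedVariables false
set_option maxHeartbeats 4000000
set_option synthInstance.maxHeartbeats 400000

open FF Module MvPolynomial Pool.Agent.W602.GT Pool.Agent.N162.BC Pool.Agent.N162.GP
  Pool.Agent.N364.GP

namespace Pool.Agent.K6.H68.CC

section

variable {K : Type} [Field K] [Algebra ℂ K]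

/-- **Kummer covers of projective space with normal crossings.** -/
theorem kum_main {n c B : ℕ} (hn : 1 ≤ n) {f : Fin c → MvPolynomial (Fin (n + 1)) ℂ}
    {N b : Fin c → ℕ} {x : Fin (n + 1) → K} {w : Fin c → K}
    (hf : ∀ k, (f k).IsHomogeneous (N k * b k))
    (hnc : ∀ p : Fin (n + 1) → ℂ, p ≠ 0 → LinearIndependent ℂ
      fun (k : {k : Fin c // eval p (f k) = 0}) (l : Fin (n + 1)) => eval p (pderiv l (f k)))
    (hx0 : x 0 = 1) (hw : ∀ k, w k ^ N k = aeval x (f k)) (hw0 : ∀ k, w k ≠ 0)
    (hgen0 : IntermediateField.adjoin ℂ (Set.range x ∪ Set.range w) = ⊤)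
    (hK : Algebra.trdeg ℂ K = (n : ℕ))
    (hB : ∀ k, B + n + 1 ≤ b k * (N k - N k / (N k).minFac))
    {E : IntermediateField ℂ K}
    (hE : E = IntermediateField.adjoin ℂ (Set.range fun l : Fin n => x l.succ)) :
    FiniteDimensional E K ∧ IsGalois E K ∧ (∀ g h : K ≃ₐ[E] K, g * h = h * g) ∧
    (∃ (F : IntermediateField ℂ E) (t : E), Transcendental F t ∧
      IntermediateField.adjoin F {t} = ⊤) ∧
    ∀ χ : (K ≃ₐ[E] K) →* ℂ, χ ≠ 1 → ∃ t : ℕ, t.Coprime (Module.finrank E K) ∧
      ∃ ω : (Fin n → Derivation ℂ K K) → K, ω ≠ 0 ∧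
        (∀ (D : Fin n → Derivation ℂ E E) (D' : Fin n → Derivation ℂ K K),
          (∀ i (f : E), D' i (f : K) = (D i f : K)) →
            ∀ g : K ≃ₐ[E] K, g (ω D') = algebraMap ℂ K (χ g ^ t) * ω D') ∧
        ∀ a : Fin n → ℕ, ∑ l, a l ≤ B →
          GlobalForm n (fun D => (∏ l, x l.succ ^ a l) * ω D) := by
  classical
  have hN : ∀ k, 0 < N k := fun k => by
    rcases Nat.eq_zero_or_pos (N k) with h | h
    · have h1 := hB k
      rw [h] at h1
      simp at h1
    · exact h
  have hb : ∀ k, 0 < b k := fun k => by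
    rcases Nat.eq_zero_or_pos (b k) with h | h
    · have h1 := hB k
      rw [h, zero_mul] at h1
      omega
    · exact h
  obtain ⟨M, hM⟩ : ∃ M, n + 1 + c = M + 2 := ⟨n + c - 1, by omega⟩
  let e : Fin (n + 1) ⊕ Fin c ≃ Fin (M + 2) := finSumFinEquiv.trans (finCongr hM)
  have he : e (Sum.inl 0) = 0 := rfl
  have hxE : ∀ l, x l ∈ E := by
    intro l
    rw [hE]
    refine Fin.cases ?_ (fun i => ?_) l
    · rw [hx0]
      exact one_mem _
    · exact IntermediateField.subset_adjoin ℂ _ ⟨i, rfl⟩
  have hwE : ∀ k, w k ^ N k ∈ E := by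
    intro k
    rw [hw k]
    have h2 := MvPolynomial.aeval_algebraMap_apply (R := ℂ) (A := E) K
      (fun l => (⟨x l, hxE l⟩ : E)) (f k)
    have h3 : x = ((algebraMap E K : E → K) ∘ fun l => (⟨x l, hxE l⟩ : E)) := rfl
    rw [h3, h2]
    exact (aeval (fun l => (⟨x l, hxE l⟩ : E)) (f k)).2
  have hgen : ∀ a : K, a ∈ IntermediateField.adjoin E (Set.range w) := by
    intro a
    have h1 : IntermediateField.adjoin ℂ (Set.range x ∪ Set.range w) ≤
        (IntermediateField.adjoin E (Set.range w)).restrictScalars ℂ := by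
      rw [IntermediateField.adjoin_le_iff]
      rintro _ (⟨l, rfl⟩ | ⟨k, rfl⟩)
      · exact (IntermediateField.adjoin E (Set.range w)).algebraMap_mem ⟨x l, hxE l⟩
      · exact IntermediateField.subset_adjoin E _ ⟨k, rfl⟩
    rw [hgen0] at h1
    exact h1 (IntermediateField.mem_top (x := a))
  obtain ⟨hfin, hgal, hcomm, θ, hθ1, hθ2, hθ3⟩ := kummer E hN hw0 hwE hgen
  -- the base
  have hind : AlgebraicIndependent ℂ (fun l : Fin n => x l.succ) := by
    have halg : ∀ τ : K, IsAlgebraic (IntermediateField.adjoin ℂ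
        (Set.range fun l : Fin n => x l.succ)) τ := fun τ => by
      rw [← hE]
      exact (Algebra.IsIntegral.isIntegral τ).isAlgebraic
    have h1 := Pool.Agent.W619.PQ.alg_adjoin halg
    exact (Algebra.IsAlgebraic.isTranscendenceBasis_of_lift_le_trdeg_of_finite ℂ
      (fun l : Fin n => x l.succ) (by rw [hK]; simp)).1
  have hruled : ∃ (F : IntermediateField ℂ E) (t : E), Transcendental F t ∧
      IntermediateField.adjoin F {t} = ⊤ := by
    have h1 := ruled_of_indep hn hind
    rw [← hE] at h1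
    exact h1
  refine ⟨hfin, hgal, hcomm, hruled, fun χ hχ => ?_⟩
  obtain ⟨s, hs, hχs⟩ := char_mono θ N hN hθ1 hθ3 χ
  have hex : ∃ k, s k ≠ 0 := by
    by_contra hcon
    push Not at hcon
    apply hχ
    ext g
    rw [hχs, MonoidHom.one_apply]
    exact Finset.prod_eq_one fun k _ => by rw [hcon k, pow_zero]
  obtain ⟨k0, hk0⟩ := hex
  have hfr : 0 < Module.finrank E K := Module.finrank_pos
  obtain ⟨t, htc, ht0, htle⟩ := exists_unit (N := N k0) (D := N k0 * Module.finrank E K)
    (s := s k0) (Nat.mul_pos (hN k0) hfr) (dvd_mul_right _ _) (fun hdvd => by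
      have := Nat.le_of_dvd (Nat.pos_of_ne_zero hk0) hdvd
      have := hs k0
      omega)
  obtain ⟨v, hv⟩ : ∃ v : Fin c → ℕ, ∀ k, v k = (t * s k + (N k - 1)) % N k := ⟨_, fun _ => rfl⟩
  have hvlt : ∀ k, v k ≤ N k - 1 := fun k => by
    rw [hv]
    have := Nat.mod_lt (t * s k + (N k - 1)) (hN k)
    omega
  have hvk0 : v k0 + 1 ≤ N k0 / (N k0).minFac := by
    have h1 : v k0 + 1 = t * s k0 % N k0 := by
      obtain ⟨r, hr⟩ : ∃ r, r = t * s k0 % N k0 := ⟨_, rfl⟩
      rw [← hr] at ht0 ⊢
      have hrlt : r < N k0 := by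
        rw [hr]
        exact Nat.mod_lt _ (hN k0)
      have h2 : (t * s k0 + (N k0 - 1)) % N k0 = (r + (N k0 - 1)) % N k0 := by
        rw [hr, Nat.mod_add_mod]
      have h3 : r + (N k0 - 1) = (r - 1) + N k0 := by
        have := hN k0
        omega
      rw [hv, h2, h3, Nat.add_mod_right, Nat.mod_eq_of_lt (by omega)]
      omega
    rw [h1]
    exact htle
  -- the character
  have hchar : ∀ g, ∏ k, θ k g ^ (v k + 1) = χ g ^ t := by
    intro g
    rw [hχs, ← Finset.prod_pow]
    refine Finset.prod_congr rfl fun k _ => ?_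
    have h1 : (v k + 1) % N k = (t * s k) % N k := by
      have h2 : v k + 1 ≡ t * s k + (N k - 1) + 1 [MOD N k] := by
        rw [hv]
        exact Nat.ModEq.add_right 1 (Nat.mod_modEq _ _)
      have h3 : t * s k + (N k - 1) + 1 = t * s k + N k := by
        have := hN k
        omega
      rw [h3] at h2
      have h4 : t * s k + N k ≡ t * s k [MOD N k] := by
        unfold Nat.ModEq
        rw [Nat.add_mod_right]
      exact h2.trans h4
    rw [← pow_mod_natCard_aux (hθ1 k g) (v k + 1), h1, pow_mod_natCard_aux (hθ1 k g), mul_comm,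
      pow_mul]
  -- the degrees
  have hsumN : B + ∑ k, b k * v k + (n + 1) ≤ ∑ k, b k * (N k - 1) := by
    have h1 : ∑ k, b k * (N k - 1) = ∑ k, b k * (N k - 1 - v k) + ∑ k, b k * v k := by
      rw [← Finset.sum_add_distrib]
      refine Finset.sum_congr rfl fun k _ => ?_
      rw [← Nat.mul_add, Nat.sub_add_cancel (hvlt k)]
    have h3 : b k0 * (N k0 - 1 - v k0) ≤ ∑ k, b k * (N k - 1 - v k) :=
      Finset.single_le_sum (f := fun k => b k * (N k - 1 - v k)) (fun _ _ => Nat.zero_le _)
        (Finset.mem_univ k0)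
    have h4 := hB k0
    have h5 : N k0 - N k0 / (N k0).minFac ≤ N k0 - 1 - v k0 := by
      obtain ⟨i, hi⟩ : ∃ i, i = N k0 / (N k0).minFac := ⟨_, rfl⟩
      rw [← hi] at hvk0 ⊢
      omega
    have h6 := Nat.mul_le_mul_left (b k0) h5
    rw [h1]
    omega
  have hcK : CharZero K := charZero_of_injective_algebraMap (algebraMap ℂ _).injective
  have hI : mnr (gr (eqs e f N) (allc e x w)) (fun k => e (Sum.inr k)) ≠ 0 := by
    rw [mnr_eq]
    refine Finset.prod_ne_zero_iff.2 fun k _ => mul_ne_zero (Nat.cast_ne_zero.2 (hN k).ne')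
      (pow_ne_zero _ ?_)
    rw [allc_inr]
    exact hw0 k
  refine ⟨t, Nat.Coprime.coprime_mul_left_right htc, fun D => (∏ k, w k ^ v k) *
    om (ee e) (eqs e f N) (allc e x w) (fun k => e (Sum.inr k)) D, ?_, ?_, ?_⟩
  · intro h0
    obtain ⟨D0, hD0⟩ := exists_ders hind
    have h1 : om (ee e) (eqs e f N) (allc e x w) (fun k => e (Sum.inr k)) D0 ≠ 0 := by
      unfold om
      rw [det_mm]
      refine mul_ne_zero (inv_ne_zero hI) ?_
      have h2 : (Matrix.of fun r s : Unit ⊕ Fin n =>
          RR (allc e x w) D0 r (e (Sum.inl (ue n s)))) = Matrix.fromBlocks 1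
            (Matrix.of fun _ l => x l.succ) 0 1 := by
        ext r s
        rcases r with u | i
        · rcases s with u' | l
          · change allc e x w (e (Sum.inl 0)) = (1 : Matrix Unit Unit K) u u'
            rw [allc_inl, hx0, Matrix.one_apply, if_pos (Subsingleton.elim _ _)]
          · change allc e x w (e (Sum.inl l.succ)) = x l.succ
            rw [allc_inl]
        · rcases s with u' | l
          · change D0 i (allc e x w (e (Sum.inl 0))) = 0
            rw [allc_inl, hx0, Derivation.map_one_eq_zero]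
          · change D0 i (allc e x w (e (Sum.inl l.succ))) = (1 : Matrix (Fin n) (Fin n) K) i l
            rw [allc_inl, hD0, Matrix.one_apply]
      rw [h2, Matrix.det_fromBlocks_zero₂₁, Matrix.det_one, Matrix.det_one, one_mul]
      exact one_ne_zero
    have h2 := congrFun h0 D0
    exact mul_ne_zero (Finset.prod_ne_zero_iff.2 fun k _ => pow_ne_zero _ (hw0 k)) h1 h2
  · intro D D' hDD g
    have h1 := eigen_om e he f N hN (x := allc e x w) (by rw [← he, allc_inl, hx0])
      (fun k => by rw [allc_inr]; exact hw0 k) (fun l => by rw [allc_inl]; exact hxE l) D D' hDD g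
      (fun k => hθ1 k g) (fun k => by rw [allc_inr]; exact hθ2 k g) v
    rw [hchar g] at h1
    simp only [allc_inr] at h1
    exact h1
  · intro a ha
    have h6 : (fun D : Fin n → Derivation ℂ K K => (∏ l, x l.succ ^ a l) *
        ((∏ k, w k ^ v k) *
          om (ee e) (eqs e f N) (allc e x w) (fun k => e (Sum.inr k)) D)) =
        fun D => ((∏ l, x l.succ ^ a l) * ∏ k, w k ^ v k) *
          om (ee e) (eqs e f N) (allc e x w) (fun k => e (Sum.inr k)) D := by
      funext D
      ring
    rw [h6]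
    exact ⟨om_pluri (ee e) _ _ _ _, fun P _ => kum_reg e hN hb hf
      (smooth_of_nc e hN hb hf hnc) hx0 hw0 hw a v (by omega) P⟩

end

end Pool.Agent.K6.H68.CC
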