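import Pool.Agent.K6.H68.CC.Gal

/-!
Polynomials of small degree with integral values at all conjugates of an element are constant.
-/

set_option autoImplicit false

open Polynomial

namespace Pool.Agent.K6.H68.CC

/-- the group theoretic part -/
theorem no_poly {S A : Type} [Fintype S] [Field A] [Algebra ℂ A]
    (Γ : Subgroup (Equiv.Perm S)) (htr : ∀ s t : S, ∃ π : Γ, (π : Equiv.Perm S) s = t)
    {x : S → A} (hx : Function.Injective x) (v : S → ℤ) {e : ℕ} (he : 1 ≤ e)
    (hN : 2 * e < Fintype.card S) (p : Γ → A[X])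
    (hp : ∀ (π : Γ) (s : S), (p π).eval (x s) = (v ((π : Equiv.Perm S)⁻¹ s) : A))
    (hdeg : ∀ π, (p π).natDegree ≤ e) {l : A} (hl : l ≠ 0) (χ : Γ →* ℂ)
    (hcoef : ∀ π, (p π).coeff e = algebraMap ℂ A (χ π) * l) : False := by
  classical
  have hcA : CharZero A := charZero_of_injective_algebraMap (algebraMap ℂ A).injective
  let i1 : Fintype Γ := Fintype.ofFinite Γ
  have hnorm : ∀ π : Γ, ‖χ π‖ = 1 := by
    intro π
    refine Complex.norm_eq_one_of_pow_eq_one (n := Fintype.card Γ) ?_ Fintype.card_ne_zero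
    rw [← map_pow, pow_card_eq_one, map_one]
  have hinv : ∀ π : Γ, χ π⁻¹ = (χ π)⁻¹ := by
    intro π
    refine eq_inv_of_mul_eq_one_left ?_
    rw [← map_mul, inv_mul_cancel, map_one]
  have hconj : ∀ π : Γ, (starRingEnd ℂ) (χ π⁻¹) = χ π := by
    intro π
    rw [hinv, Complex.inv_eq_conj (hnorm π), Complex.conj_conj]
  obtain ⟨V, hV⟩ : ∃ V : S → ℂ, ∀ s, V s = ∑ π : Γ, χ π⁻¹ * (v ((π : Equiv.Perm S)⁻¹ s) : ℂ) :=
    ⟨_, fun _ => rfl⟩
  obtain ⟨W, hW⟩ : ∃ W : S → ℂ, ∀ s, W s = ∑ π : Γ, χ π * (v ((π : Equiv.Perm S)⁻¹ s) : ℂ) :=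
    ⟨_, fun _ => rfl⟩
  have hVW : ∀ s, W s = (starRingEnd ℂ) (V s) := by
    intro s
    rw [hV, hW, map_sum]
    refine Finset.sum_congr rfl fun π _ => ?_
    rw [map_mul, hconj, map_intCast]
  have hVρ : ∀ (ρ : Γ) (s : S), V ((ρ : Equiv.Perm S) s) = χ ρ⁻¹ * V s := by
    intro ρ s
    rw [hV, hV, Finset.mul_sum]
    refine (Fintype.sum_equiv (Equiv.mulLeft ρ) _ _ fun π => ?_).symm
    have h1 : ((ρ : Equiv.Perm S))⁻¹ ((ρ : Equiv.Perm S) s) = s := Equiv.symm_apply_apply _ _
    rw [Equiv.coe_mulLeft, mul_inv_rev, map_mul, Subgroup.coe_mul, mul_inv_rev,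
      Equiv.Perm.mul_apply, h1]
    ring
  have hsq : ∀ s t : S, Complex.normSq (V s) = Complex.normSq (V t) := by
    intro s t
    obtain ⟨ρ, hρ⟩ := htr t s
    rw [← hρ, hVρ, Complex.normSq_mul, Complex.normSq_eq_norm_sq, hnorm, one_pow, one_mul]
  have hne : Nonempty S := Fintype.card_pos_iff.1 (by omega)
  obtain ⟨s0⟩ := hne
  obtain ⟨κ, hκ⟩ : ∃ κ : ℂ, κ = (Complex.normSq (V s0) : ℂ) := ⟨_, rfl⟩
  have hVWκ : ∀ s, V s * W s = κ := by
    intro s
    rw [hVW, Complex.mul_conj, hκ, hsq s s0]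
  obtain ⟨P, hP⟩ : ∃ P : A[X], P = ∑ π : Γ, C (algebraMap ℂ A (χ π⁻¹)) * p π := ⟨_, rfl⟩
  obtain ⟨Q, hQ⟩ : ∃ Q : A[X], Q = ∑ π : Γ, C (algebraMap ℂ A (χ π)) * p π := ⟨_, rfl⟩
  have hPe : ∀ s, P.eval (x s) = algebraMap ℂ A (V s) := by
    intro s
    rw [hP, hV, eval_finsetSum, map_sum]
    refine Finset.sum_congr rfl fun π _ => ?_
    rw [eval_mul, eval_C, hp, map_mul, map_intCast]
  have hQe : ∀ s, Q.eval (x s) = algebraMap ℂ A (W s) := by
    intro s
    rw [hQ, hW, eval_finsetSum, map_sum]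
    refine Finset.sum_congr rfl fun π _ => ?_
    rw [eval_mul, eval_C, hp, map_mul, map_intCast]
  have hPd : P.natDegree ≤ e := by
    rw [hP]
    refine natDegree_sum_le_of_forall_le _ _ fun π _ => ?_
    exact le_trans (natDegree_C_mul_le _ _) (hdeg π)
  have hQd : Q.natDegree ≤ e := by
    rw [hQ]
    refine natDegree_sum_le_of_forall_le _ _ fun π _ => ?_
    exact le_trans (natDegree_C_mul_le _ _) (hdeg π)
  have hPc : P.coeff e ≠ 0 := by
    have h1 : P.coeff e = (Fintype.card Γ : A) * l := by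
      rw [hP, finsetSum_coeff]
      rw [Finset.sum_congr rfl fun π _ => by
        rw [coeff_C_mul, hcoef, ← mul_assoc, ← map_mul, ← map_mul, inv_mul_cancel, map_one,
          map_one, one_mul]]
      rw [Finset.sum_const, nsmul_eq_mul, Finset.card_univ]
    rw [h1]
    exact mul_ne_zero (Nat.cast_ne_zero.2 Fintype.card_ne_zero) hl
  have hP0 : P ≠ 0 := by
    rintro h0
    rw [h0, coeff_zero] at hPc
    exact hPc rfl
  have hPQ : P * Q - C (algebraMap ℂ A κ) = 0 := by
    refine eq_zero_of_natDegree_lt_card_of_eval_eq_zero _ hx (fun s => ?_) ?_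
    · rw [eval_sub, eval_mul, hPe, hQe, eval_C, ← map_mul, hVWκ, sub_self]
    · refine lt_of_le_of_lt ?_ hN
      refine le_trans (natDegree_sub_le _ _) ?_
      rw [natDegree_C, max_eq_left (Nat.zero_le _)]
      refine le_trans natDegree_mul_le ?_
      omega
  rw [sub_eq_zero] at hPQ
  by_cases h0 : κ = 0
  · have h1 : P = 0 := by
      refine eq_zero_of_natDegree_lt_card_of_eval_eq_zero _ hx (fun s => ?_) (by omega)
      have h2 : V s = 0 := by
        rw [← Complex.normSq_eq_zero, hsq s s0]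
        have h3 := hκ.symm.trans h0
        exact_mod_cast h3
      rw [hPe, h2, map_zero]
    exact hP0 h1
  · have hκ0 : algebraMap ℂ A κ ≠ 0 := (_root_.map_ne_zero _).2 h0
    have hQ0 : Q ≠ 0 := by
      rintro h1
      rw [h1, mul_zero] at hPQ
      exact hκ0 (C_eq_zero.1 hPQ.symm)
    have h2 := congrArg natDegree hPQ
    rw [natDegree_mul hP0 hQ0, natDegree_C] at h2
    have h3 : P.natDegree = 0 := by omega
    have h4 : P.coeff e = 0 := coeff_eq_zero_of_natDegree_lt (by omega)
    exact hPc h4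

/-- the polynomial with the derivatives of the coefficients -/
noncomputable def pD {A : Type} [Field A] [Algebra ℂ A] (D : Derivation ℂ A A) (q : A[X]) : A[X] :=
  ∑ i ∈ Finset.range (q.natDegree + 1), C (D (q.coeff i)) * X ^ i

theorem pD_eval {A : Type} [Field A] [Algebra ℂ A] (D : Derivation ℂ A A) (q : A[X]) (x : A) :
    D (q.eval x) = (pD D q).eval x + (derivative q).eval x * D x := by
  rw [pD, eval_finsetSum, eval_eq_sum_range, map_sum, derivative_eval,
    sum_over_range _ (fun n => by simp), Finset.sum_mul, ← Finset.sum_add_distrib]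
  refine Finset.sum_congr rfl fun i _ => ?_
  rw [Derivation.leibniz, Derivation.leibniz_pow, eval_mul, eval_C, eval_pow, eval_X]
  simp only [smul_eq_mul, nsmul_eq_mul]
  ring

theorem pD_coeff {A : Type} [Field A] [Algebra ℂ A] (D : Derivation ℂ A A) (q : A[X]) :
    (pD D q).coeff q.natDegree = D q.leadingCoeff := by
  rw [pD, finsetSum_coeff, Finset.sum_eq_single q.natDegree]
  · rw [coeff_C_mul, coeff_X_pow, if_pos rfl, mul_one]
    rfl
  · intro i _ hi
    rw [coeff_C_mul, coeff_X_pow, if_neg (Ne.symm hi), mul_zero]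
  · intro h
    exact absurd (Finset.mem_range.2 (Nat.lt_succ_self _)) h

theorem pD_natDegree {A : Type} [Field A] [Algebra ℂ A] (D : Derivation ℂ A A) (q : A[X]) :
    (pD D q).natDegree ≤ q.natDegree := by
  rw [pD]
  refine natDegree_sum_le_of_forall_le _ _ fun i hi => ?_
  refine le_trans (natDegree_C_mul_X_pow_le _ _) ?_
  have := Finset.mem_range.1 hi
  omega

/-- two polynomials with constant values at the same points -/
theorem wronsk {A S : Type} [Fintype S] [Field A] [CharZero A] [Algebra ℂ A]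
    (D : Derivation ℂ A A) {x : S → A}
    (hx : Function.Injective x) {p q : A[X]} {e : ℕ} (he : 1 ≤ e) (hpe : p.natDegree = e)
    (hqe : q.natDegree = e) (hN : 2 * e < Fintype.card S + 1)
    (hp : ∀ s, D (p.eval (x s)) = 0) (hq : ∀ s, D (q.eval (x s)) = 0) :
    D p.leadingCoeff * q.leadingCoeff = D q.leadingCoeff * p.leadingCoeff := by
  have h0 : pD D p * derivative q - pD D q * derivative p = 0 := by
    refine eq_zero_of_natDegree_lt_card_of_eval_eq_zero _ hx (fun s => ?_) ?_
    · have h1 := pD_eval D p (x s)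
      have h2 := pD_eval D q (x s)
      rw [hp] at h1
      rw [hq] at h2
      rw [eval_sub, eval_mul, eval_mul]
      linear_combination (-(derivative q).eval (x s)) * h1 + ((derivative p).eval (x s)) * h2
    · have h1 := pD_natDegree D p
      have h2 := pD_natDegree D q
      have h3 := natDegree_derivative_le p
      have h4 := natDegree_derivative_le q
      have h5 : (pD D p * derivative q - pD D q * derivative p).natDegree ≤ 2 * e - 1 := by
        refine le_trans (natDegree_sub_le _ _) (max_le ?_ ?_)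
        · refine le_trans natDegree_mul_le ?_
          omega
        · refine le_trans natDegree_mul_le ?_
          omega
      omega
  obtain ⟨e', rfl⟩ : ∃ e', e = e' + 1 := ⟨e - 1, by omega⟩
  have h1 : ∀ a b : A[X], a.natDegree = e' + 1 → b.natDegree = e' + 1 →
      (pD D a * derivative b).coeff ((e' + 1) + e') = D a.leadingCoeff * (b.leadingCoeff * (e' + 1)) := by
    intro a b ha hb
    have h2 := pD_natDegree D a
    have h3 := natDegree_derivative_le b
    rw [coeff_mul_add_eq_of_natDegree_le (by omega : (pD D a).natDegree ≤ e' + 1)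
      (by omega : (derivative b).natDegree ≤ e')]
    have h4 := pD_coeff D a
    rw [ha] at h4
    rw [h4, coeff_derivative]
    congr 2
    rw [leadingCoeff, hb]
  have h2 := congrArg (fun r => r.coeff ((e' + 1) + e')) h0
  simp only [coeff_sub, coeff_zero] at h2
  rw [h1 p q hpe hqe, h1 q p hqe hpe] at h2
  have h3 : ((e' : A) + 1) ≠ 0 := by exact_mod_cast Nat.succ_ne_zero e'
  have h4 : (D p.leadingCoeff * q.leadingCoeff - D q.leadingCoeff * p.leadingCoeff) *
      ((e' : A) + 1) = 0 := by linear_combination h2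
  rcases mul_eq_zero.1 h4 with h5 | h5
  · exact sub_eq_zero.1 h5
  · exact absurd h5 h3

/-- **Polynomials with integral values at all conjugates of an element.** -/
theorem key {E K : Type} [Field E] [Field K] [Algebra E K] [Algebra ℂ E] [CharZero E]
    [FiniteDimensional E K] {y : K}
    (hy : ∀ σ τ : K →ₐ[E] AlgebraicClosure E, σ y = τ y → σ = τ)
    (hder : ∀ a : AlgebraicClosure E,
      (∀ D : Derivation ℂ (AlgebraicClosure E) (AlgebraicClosure E), D a = 0) →
      ∃ b : ℂ, algebraMap ℂ (AlgebraicClosure E) b = a)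
    (v : (K →ₐ[E] AlgebraicClosure E) → ℤ) {p : (AlgebraicClosure E)[X]}
    (hp : ∀ σ : K →ₐ[E] AlgebraicClosure E, p.eval (σ y) = v σ)
    (hN : 2 * p.natDegree < Module.finrank E K) (σ τ : K →ₐ[E] AlgebraicClosure E) :
    v σ = v τ := by
  classical
  have hcA : CharZero (AlgebraicClosure E) := charZero_of_injective_algebraMap
    (algebraMap E (AlgebraicClosure E)).injective
  have hcard : Fintype.card (K →ₐ[E] AlgebraicClosure E) = Module.finrank E K :=
    AlgHom.card _ _ _
  have hx : Function.Injective (fun σ : K →ₐ[E] AlgebraicClosure E => σ y) :=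
    fun σ τ h => hy σ τ h
  by_cases he : p.natDegree = 0
  · rw [natDegree_eq_zero] at he
    obtain ⟨a, ha⟩ := he
    have h1 := hp σ
    have h2 := hp τ
    rw [← ha, eval_C] at h1 h2
    have h3 : (v σ : AlgebraicClosure E) = v τ := h1.symm.trans h2
    exact_mod_cast h3
  exfalso
  obtain ⟨l, hl⟩ : ∃ l, l = p.leadingCoeff := ⟨_, rfl⟩
  have hl0 : l ≠ 0 := by
    rw [hl, Ne, leadingCoeff_eq_zero]
    rintro rfl
    exact he natDegree_zero
  obtain ⟨P, hP⟩ : ∃ P : (AlgebraicClosure E ≃ₐ[E] AlgebraicClosure E) → (AlgebraicClosure E)[X],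
      ∀ g, P g = p.map (g : AlgebraicClosure E →+* AlgebraicClosure E) := ⟨_, fun _ => rfl⟩
  have hPd : ∀ g, (P g).natDegree = p.natDegree := fun g => by
    rw [hP]
    exact natDegree_map _
  have hPl : ∀ g, (P g).leadingCoeff = g l := fun g => by
    rw [hP, leadingCoeff_map, hl]
    rfl
  have hPe : ∀ (g : AlgebraicClosure E ≃ₐ[E] AlgebraicClosure E) (ρ : K →ₐ[E] AlgebraicClosure E),
      (P g).eval ((permHom g ρ) y) = v ρ := by
    intro g ρ
    have h1 : (permHom g ρ) y = (g : AlgebraicClosure E →+* AlgebraicClosure E) (ρ y) := rfl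
    rw [hP, h1, eval_map, eval₂_at_apply, hp, map_intCast]
  have hPe' : ∀ (g : AlgebraicClosure E ≃ₐ[E] AlgebraicClosure E) (ρ : K →ₐ[E] AlgebraicClosure E),
      (P g).eval (ρ y) = v ((permHom g)⁻¹ ρ) := by
    intro g ρ
    have h1 := hPe g ((permHom g)⁻¹ ρ)
    have h2 : (permHom g) ((permHom g)⁻¹ ρ) = ρ := Equiv.apply_symm_apply _ _
    rw [h2] at h1
    exact h1
  have hPu : ∀ g g' : AlgebraicClosure E ≃ₐ[E] AlgebraicClosure E,
      (permHom g : Equiv.Perm (K →ₐ[E] AlgebraicClosure E)) = permHom g' → P g = P g' := by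
    intro g g' h
    rw [← sub_eq_zero]
    refine eq_zero_of_natDegree_lt_card_of_eval_eq_zero _ hx (fun ρ => ?_) ?_
    · rw [eval_sub, hPe', hPe', h, sub_self]
    · rw [hcard]
      refine lt_of_le_of_lt (natDegree_sub_le _ _) ?_
      rw [hPd, hPd, max_self]
      omega
  -- the leading coefficients
  have hχ : ∀ g : AlgebraicClosure E ≃ₐ[E] AlgebraicClosure E, ∃ b : ℂ,
      algebraMap ℂ (AlgebraicClosure E) b * l = g l := by
    intro g
    obtain ⟨b, hb⟩ := hder (g l / l) fun D => by
      have h1 := wronsk D hx (p := p) (q := P g) (e := p.natDegree) (by omega) rfl (hPd g)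
        (by rw [hcard]; omega) (fun ρ => by rw [hp]; exact D.map_intCast _) (fun ρ => by
          rw [hPe']
          exact D.map_intCast _)
      rw [hPl, ← hl] at h1
      have h2 : D (g l) = (g l / l) * D l + l * D (g l / l) := by
        have h3 : g l = (g l / l) * l := by field_simp
        conv_lhs => rw [h3]
        rw [Derivation.leibniz]
        simp only [smul_eq_mul]
      have h4 : l ^ 2 * D (g l / l) = 0 := by
        rw [h2] at h1
        have h5 : g l / l * l = g l := by field_simp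
        linear_combination -h1 - (D l) * h5
      rcases mul_eq_zero.1 h4 with h5 | h5
      · exact absurd ((pow_eq_zero_iff (two_ne_zero)).1 h5) hl0
      · exact h5
    refine ⟨b, ?_⟩
    rw [hb]
    field_simp
  obtain ⟨Γ, hΓ⟩ : ∃ Γ : Subgroup (Equiv.Perm (K →ₐ[E] AlgebraicClosure E)),
      Γ = (permHom (E := E) (K := K)).range := ⟨_, rfl⟩
  have hsec : ∀ π : Γ, ∃ g : AlgebraicClosure E ≃ₐ[E] AlgebraicClosure E,
      permHom g = (π : Equiv.Perm (K →ₐ[E] AlgebraicClosure E)) := by
    rintro ⟨π, hπ⟩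
    rw [hΓ] at hπ
    exact hπ
  choose sec hsec using hsec
  choose b hb using hχ
  have hlg : ∀ g g' : AlgebraicClosure E ≃ₐ[E] AlgebraicClosure E,
      (permHom g : Equiv.Perm (K →ₐ[E] AlgebraicClosure E)) = permHom g' → g l = g' l := by
    intro g g' h
    rw [← hPl g, ← hPl g', hPu g g' h]
  have hinj : ∀ a a' : ℂ, algebraMap ℂ (AlgebraicClosure E) a * l = algebraMap ℂ _ a' * l →
      a = a' := by
    intro a a' h
    exact (algebraMap ℂ (AlgebraicClosure E)).injective (mul_right_cancel₀ hl0 h)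
  let χ : Γ →* ℂ :=
    { toFun := fun π => b (sec π)
      map_one' := by
        refine hinj _ _ ?_
        rw [hb, map_one, one_mul, hlg (sec 1) 1 (by rw [hsec, map_one]; rfl)]
        rfl
      map_mul' := fun π ρ => by
        refine hinj _ _ ?_
        rw [hb, hlg (sec (π * ρ)) (sec π * sec ρ) (by
          rw [hsec, map_mul, hsec, hsec]
          rfl), AlgEquiv.mul_apply, ← hb (sec ρ), map_mul, map_mul, ← hb (sec π)]
        have h1 : (sec π) (algebraMap ℂ (AlgebraicClosure E) (b (sec ρ))) =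
            algebraMap ℂ (AlgebraicClosure E) (b (sec ρ)) := by
          rw [IsScalarTower.algebraMap_apply ℂ E (AlgebraicClosure E), AlgEquiv.commutes]
        rw [h1]
        ring }
  refine no_poly Γ (fun σ τ => ?_) hx v (e := p.natDegree) (by omega) (by rw [hcard]; exact hN)
    (fun π => P (sec π)) (fun π ρ => ?_) (fun π => (hPd _).le) hl0 χ fun π => ?_
  · obtain ⟨g, hg⟩ := exists_conj σ τ
    refine ⟨⟨permHom g, ?_⟩, ?_⟩
    · rw [hΓ]
      exact ⟨g, rfl⟩
    · ext a
      exact hg a
  · rw [hPe', hsec]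
  · have h1 : (P (sec π)).coeff p.natDegree = (P (sec π)).leadingCoeff := by
      rw [leadingCoeff, hPd]
    rw [h1, hPl, ← hb]
    rfl

end Pool.Agent.K6.H68.CC
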