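import Pool.Agent.N162.BC.Fibre
import Pool.Agent.N162.BC.Defs

/-!
Pull-backs of cycles from a rational variety are rationally trivial: the model of the generic fibre.
-/

set_option autoImplicit false
set_option linter.overlappingInstances false
set_option linter.unusedSectionVars false
set_option linter.unusedDecidableInType false
set_option linter.unusedFintypeInType false
set_option linter.unusedVariables false
set_option maxHeartbeats 4000000
set_option synthInstance.maxHeartbeats 400000

open FF Polynomial Pool.Agent.W603.LV IntermediateField Pool.Agent.W619.PQ Pool.Agent.N162.BC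

namespace Pool.Agent.K6.H68.CC

theorem model_aux (L K Ω F : Type) [Field L] [Field K] [Field Ω] [Field F] [Algebra L K]
    [Algebra L Ω] [Algebra L F] [Algebra F Ω] [IsScalarTower L F Ω]
    [IsAlgClosed Ω] [CharZero Ω] [IsAlgClosed F] [Algebra.IsAlgebraic L F]
    [IsFF L K] (h : algebraicClosure L K = ⊥) :
    ∃ (M : Type) (_ : Field M) (_ : Algebra Ω M) (_ : Algebra K M) (_ : IsFF Ω M),
      (∀ l : L, algebraMap Ω M (algebraMap L Ω l) = algebraMap K M (algebraMap L K l)) ∧
      ∀ σ : K →ₐ[L] Ω, ∃ P : Place Ω M,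
        (∀ x : K, Transcendental L x →
          P.ord (algebraMap K M x - algebraMap Ω M (σ x)) = 1) ∧
        ∀ v : Place Ω M, (∀ κ : K, Ge v 1 (algebraMap K M κ - algebraMap Ω M (σ κ))) ↔
          v = P := by
  classical
  have hcL : CharZero L := (algebraMap L Ω).charZero
  have hcK : CharZero K := (algebraMap L K).charZero_iff (algebraMap L K).injective |>.1 hcL
  have hcF : CharZero F := charZero_of_injective_algebraMap (algebraMap L F).injective
  obtain ⟨K₁, hK₁, a1, a2, a3, a4, a5, hFF1, LD, FR⟩ := constr L K F h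
  have GEN := gen_of_fr (L := L) FR
  have hcK₁ : CharZero K₁ := charZero_of_injective_algebraMap (algebraMap F K₁).injective
  have h' : algebraicClosure F K₁ = ⊥ := by
    rw [eq_bot_iff]
    intro z hz
    rw [mem_algebraicClosure_iff] at hz
    obtain ⟨c, hc⟩ := Pool.Agent.W602.GT.const_of_algebraic hz
    rw [hc]
    exact IntermediateField.algebraMap_mem _ _
  obtain ⟨M, hMf, b1, b2, b3, b4, b5, hFF2, hlin, hM⟩ := constr F K₁ Ω h'
  have hcM : CharZero M := charZero_of_injective_algebraMap (algebraMap Ω M).injective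
  let b6 : Algebra K M := ((algebraMap K₁ M).comp (algebraMap K K₁)).toAlgebra
  have hb6 : ∀ κ : K, algebraMap K M κ = algebraMap K₁ M (algebraMap K K₁ κ) := fun κ => rfl
  have b7 : IsScalarTower K K₁ M := IsScalarTower.of_algebraMap_eq fun κ => rfl
  have halgK := alg_of_gen (L := L) GEN
  -- extension of points
  have hext : ∀ σ : K →ₐ[L] Ω, ∃ σ₁ : K₁ →ₐ[F] Ω, ∀ κ, σ₁ (algebraMap K K₁ κ) = σ κ := by
    intro σ
    obtain ⟨g, hg1, hg2⟩ := up (L := L) LD GEN (algebraMap F Ω) (σ : K →+* Ω) (fun l => by
      rw [← IsScalarTower.algebraMap_apply L F Ω]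
      exact (σ.commutes l).symm)
    exact ⟨{ g with commutes' := hg1 }, hg2⟩
  choose ext hext using hext
  have hextu : ∀ (τ : K₁ →ₐ[F] Ω) (σ : K →ₐ[L] Ω), (∀ κ, τ (algebraMap K K₁ κ) = σ κ) →
      τ = ext σ := by
    intro τ σ hτ
    have h1 : (τ : K₁ →+* Ω) = (ext σ : K₁ →+* Ω) := by
      refine up_unique GEN (fun α => ?_) (fun κ => ?_)
      · change τ (algebraMap F K₁ α) = ext σ (algebraMap F K₁ α)
        rw [AlgHom.commutes, AlgHom.commutes]
      · change τ (algebraMap K K₁ κ) = ext σ (algebraMap K K₁ κ)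
        rw [hτ, hext]
    ext z
    exact congrArg (fun g : K₁ →+* Ω => g z) h1
  refine ⟨M, hMf, b1, b6, hFF2, ?_, ?_⟩
  · intro l
    rw [hb6, ← IsScalarTower.algebraMap_apply L K K₁, IsScalarTower.algebraMap_apply L F K₁,
      ← tower (F := F) (K := K₁) (Ω := Ω) (M := M), ← IsScalarTower.algebraMap_apply L F Ω]
  · intro σ
    obtain ⟨P, hP⟩ := exists_place_cen hlin hM (ext σ)
    refine ⟨P, fun x hx => ?_, fun v => ?_⟩
    · have hx₁ : Transcendental F (algebraMap K K₁ x) := transc_up' LD hx
      have h1 := gen_unif hM hP hx₁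
      rw [hext] at h1
      exact h1
    constructor
    · intro hv
      have hgen0 : ∀ κ : K, κ ≠ 0 → v.ord (algebraMap K M κ) = 0 := by
        intro e he
        have h1 := hv e
        have h2 : σ e ≠ 0 := by simpa using he
        have h3 : algebraMap Ω M (σ e) ≠ 0 := by simpa using h2
        rcases h1 with h1 | h1
        · rw [sub_eq_zero.1 h1]
          exact v.ord_const h2
        · by_cases h0 : algebraMap K M e - algebraMap Ω M (σ e) = 0
          · rw [h0, v.ord_zero] at h1
            omega
          have h5 := v.ord_add_eq h3 h0 (by rw [v.ord_const h2]; omega)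
          rw [add_sub_cancel, v.ord_const h2] at h5
          exact h5.2
      let v' : Place K M :=
        { ord := v.ord
          ord_zero := v.ord_zero
          ord_mul := v.ord_mul
          ord_add := v.ord_add
          ord_const := fun {κ} hκ => hgen0 κ hκ
          surj := v.surj }
      have hgen : Gen K₁ v := by
        intro e he
        have h1 : IsAlgebraic K (algebraMap K₁ M e) := (halgK.isAlgebraic e).algebraMap
        exact v'.ord_eq_zero_of_isAlgebraic (by simpa using he) h1
      obtain ⟨τ, hτ⟩ := exists_cen (F := F) hgen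
      have h2 : τ = ext σ := by
        refine hextu τ σ fun κ => ?_
        have h3 := (hτ (algebraMap K K₁ κ)).sub (hv κ)
        rw [hb6, sub_sub_sub_cancel_left, ← map_sub] at h3
        exact (sub_eq_zero.1 (not_ge_const h3)).symm
      rw [h2] at hτ
      exact gen_unique hM hτ hP
    · rintro rfl κ
      have h1 := hP (algebraMap K K₁ κ)
      rw [hext] at h1
      exact h1

/-- The model of the generic fibre over `Ω`, and its generic points. -/
theorem model (L K Ω : Type) [Field L] [Field K] [Field Ω] [Algebra L K] [Algebra L Ω]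
    [IsAlgClosed Ω] [CharZero Ω] [IsFF L K] (h : algebraicClosure L K = ⊥) :
    ∃ (M : Type) (_ : Field M) (_ : Algebra Ω M) (_ : Algebra K M) (_ : IsFF Ω M),
      (∀ l : L, algebraMap Ω M (algebraMap L Ω l) = algebraMap K M (algebraMap L K l)) ∧
      ∀ σ : K →ₐ[L] Ω, ∃ P : Place Ω M,
        (∀ x : K, Transcendental L x →
          P.ord (algebraMap K M x - algebraMap Ω M (σ x)) = 1) ∧
        ∀ v : Place Ω M, (∀ κ : K, Ge v 1 (algebraMap K M κ - algebraMap Ω M (σ κ))) ↔
          v = P := by
  have hcL : CharZero L := (algebraMap L Ω).charZero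
  have hFc : IsAlgClosed (algebraicClosure L Ω) := IsAlgClosure.isAlgClosed L
  have hFa : Algebra.IsAlgebraic L (algebraicClosure L Ω) := IsAlgClosure.isAlgebraic
  exact model_aux L K Ω (algebraicClosure L Ω) h

section

variable {K Ω : Type} [Field K] [Algebra ℂ K] [Field Ω] [Algebra ℂ Ω] [IsAlgClosed Ω]

/-- **One fibre.** The part of a cycle over a point of `B × ℙ¹`, if its coefficients are equal. -/
theorem part_const (L : IntermediateField ℂ K) [IsFF L K] (hLK : ∀ a : K, IsAlgebraic L a → a ∈ L)
    {x : K} (hx : Transcendental L x) {c : (K →ₐ[ℂ] Ω) →₀ ℤ} (u : L →ₐ[ℂ] Ω) (s : Ω) (a : ℤ)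
    (hc1 : ∀ σ : K →ₐ[ℂ] Ω, σ.comp L.val = u → σ x = s → c σ = a)
    (hc0 : ∀ σ : K →ₐ[ℂ] Ω, ¬ (σ.comp L.val = u ∧ σ x = s) → c σ = 0) : c ∈ Rat K Ω := by
  classical
  have hcΩ : CharZero Ω := charZero_of_injective_algebraMap (algebraMap ℂ Ω).injective
  have hac : algebraicClosure L K = ⊥ := by
    rw [eq_bot_iff]
    intro a ha
    rw [mem_algebraicClosure_iff] at ha
    exact IntermediateField.mem_bot.2 ⟨⟨a, hLK a ha⟩, rfl⟩
  let i1 : Algebra L Ω := u.toRingHom.toAlgebra
  have hi1 : ∀ l : L, algebraMap L Ω l = u l := fun l => rfl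
  obtain ⟨M, hM, a1, a2, hMF, hLM, hP⟩ := model L K Ω hac
  have hrs' : ∀ σ : K →ₐ[ℂ] Ω, σ.comp L.val = u → ∃ σ' : K →ₐ[L] Ω, ∀ κ, σ' κ = σ κ := by
    intro σ hσ
    refine ⟨{ σ with commutes' := fun l => ?_ }, fun κ => rfl⟩
    have h1 := congrArg (fun g : L →ₐ[ℂ] Ω => g l) hσ
    exact h1
  by_cases hex : ∃ σ : K →ₐ[ℂ] Ω, σ.comp L.val = u ∧ σ x = s
  · obtain ⟨σ0, hσ0, hσ0x⟩ := hex
    obtain ⟨f0, hf0⟩ : ∃ f0 : M, f0 = algebraMap K M x - algebraMap Ω M s := ⟨_, rfl⟩
    have hf0ne : f0 ≠ 0 := by
      obtain ⟨σ', hσ'⟩ := hrs' σ0 hσ0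
      obtain ⟨P, hP1, -⟩ := hP σ'
      have h1 := hP1 x hx
      rw [hσ', hσ0x, ← hf0] at h1
      rintro rfl
      rw [P.ord_zero] at h1
      exact zero_ne_one h1
    refine AddSubgroup.subset_closure ⟨M, hM, a1, hMF, algebraMap K M, f0 ^ a, ?_,
      zpow_ne_zero _ hf0ne, ?_⟩
    · intro z
      have h1 := hLM (algebraMap ℂ L z)
      rw [hi1, u.commutes] at h1
      rw [h1]
      rfl
    · intro σ
      by_cases hσ : σ.comp L.val = u
      · obtain ⟨σ', hσ'⟩ := hrs' σ hσ
        obtain ⟨P, hP1, hPv⟩ := hP σ'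
        have h1 : {v : Place Ω M | CentredAt (algebraMap K M) v σ} = {P} := by
          ext v
          rw [Set.mem_ofPred_eq, Set.mem_singleton_iff, ← hPv v]
          unfold CentredAt Ge
          refine forall_congr' fun κ => ?_
          rw [← hσ' κ, sub_eq_zero]
          constructor
          · rintro (h | h)
            · exact Or.inl h
            · exact Or.inr (by omega)
          · rintro (h | h)
            · exact Or.inl h
            · exact Or.inr (by omega)
        rw [h1, finsum_mem_singleton, P.ord_zpow]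
        by_cases hs : σ x = s
        · rw [hc1 σ hσ hs]
          have h2 := hP1 x hx
          rw [hσ', hs, ← hf0] at h2
          rw [h2, mul_one]
        · rw [hc0 σ (fun h => hs h.2)]
          have h2 : P.ord f0 = 0 := by
            have h3 := ((hPv P).2 rfl) x
            rw [hσ'] at h3
            have h4 : f0 = algebraMap Ω M (σ x - s) +
                (algebraMap K M x - algebraMap Ω M (σ x)) := by
              rw [hf0, map_sub]
              ring
            have h5 : σ x - s ≠ 0 := sub_ne_zero.2 hs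
            have h6 : algebraMap Ω M (σ x - s) ≠ 0 := (map_ne_zero (algebraMap Ω M)).2 h5
            rcases h3 with h3 | h3
            · rw [h4, h3, add_zero]
              exact P.ord_const h5
            · by_cases h0 : algebraMap K M x - algebraMap Ω M (σ x) = 0
              · rw [h4, h0, add_zero]
                exact P.ord_const h5
              have h7 := P.ord_add_eq h6 h0 (by rw [P.ord_const h5]; omega)
              rw [h4, h7.2]
              exact P.ord_const h5
          rw [h2, mul_zero]
      · rw [hc0 σ (fun h => hσ h.1)]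
        have h1 : {v : Place Ω M | CentredAt (algebraMap K M) v σ} = ∅ := by
          rw [Set.eq_empty_iff_forall_notMem]
          intro v hv
          apply hσ
          ext l
          have h2 : algebraMap K M (l : K) = algebraMap Ω M (u l) := by
            rw [← hi1, hLM]
            rfl
          have h3 : Ge v 1 (algebraMap Ω M (u l - σ (l : K))) := by
            rw [map_sub, ← h2]
            rcases hv (l : K) with h | h
            · exact Or.inl (sub_eq_zero.2 h)
            · exact Or.inr (by omega)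
          exact (sub_eq_zero.1 (not_ge_const h3)).symm
        rw [h1, finsum_mem_empty]
  · have h1 : c = 0 := by
      ext σ
      rw [hc0 σ (fun h => hex ⟨σ, h⟩)]
      rfl
    rw [h1]
    exact zero_mem _

/-- Cycles which are pulled back from `B × ℙ¹`. -/
theorem rat_const (L : IntermediateField ℂ K) [IsFF L K] (hLK : ∀ a : K, IsAlgebraic L a → a ∈ L)
    {x : K} (hx : Transcendental L x) {c : (K →ₐ[ℂ] Ω) →₀ ℤ}
    (hc : ∀ σ τ : K →ₐ[ℂ] Ω, σ.comp L.val = τ.comp L.val → σ x = τ x → c σ = c τ) :
    c ∈ Rat K Ω := by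
  classical
  obtain ⟨pr, hpr⟩ : ∃ pr : (K →ₐ[ℂ] Ω) → (L →ₐ[ℂ] Ω) × Ω, pr = fun σ => (σ.comp L.val, σ x) :=
    ⟨_, rfl⟩
  have h1 : c = ∑ w ∈ c.support.image pr, c.filter (fun σ => pr σ = w) := by
    ext σ
    rw [Finset.sum_apply']
    simp only [Finsupp.filter_apply]
    rw [Finset.sum_ite_eq]
    split_ifs with h
    · rfl
    · by_contra hne
      exact h (Finset.mem_image_of_mem _ (Finsupp.mem_support_iff.2 hne))
  rw [h1]
  refine sum_mem fun w hw => ?_
  obtain ⟨σ0, hσ0, rfl⟩ := Finset.mem_image.1 hw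
  have h2 : ∀ σ, pr σ = pr σ0 ↔ σ.comp L.val = σ0.comp L.val ∧ σ x = σ0 x := by
    intro σ
    rw [hpr]
    exact Prod.mk_inj
  refine part_const L hLK hx (σ0.comp L.val) (σ0 x) (c σ0) (fun σ h3 h4 => ?_) fun σ h3 => ?_
  · rw [Finsupp.filter_apply, if_pos ((h2 σ).2 ⟨h3, h4⟩)]
    exact hc _ _ h3 h4
  · rw [Finsupp.filter_apply, if_neg (fun h => h3 ((h2 σ).1 h))]

end

end Pool.Agent.K6.H68.CC
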