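import Pool.Agent.K6.H68.CC.Gal
import Pool.Agent.K6.H68.CC.Model
import Pool.Agent.Y692.NT.Tr
import Pool.Agent.Y184.NT.Main2
import Pool.Agent.TH466.QG.Low
import Pool.Agent.W619.Y.Unir
import Pool.Agent.W602.GT.KPsefS

/-!
Correspondences which hit few fibres of a generically finite map: the main step.
-/

set_option autoImplicit false
set_option linter.overlappingInstances false
set_option linter.unusedSectionVars false
set_option linter.unusedDecidableInType false
set_option linter.unusedFintypeInType false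
set_option linter.unusedVariables false
set_option maxHeartbeats 4000000
set_option synthInstance.maxHeartbeats 400000

open FF Module Pool.Agent.W602.GT Pool.Agent.N162.BC

namespace Pool.Agent.K6.H68.CC

/-- interpolation (as in `Pool/Agent/R882/ZC.lean`) -/
theorem isolate {Ω : Type} [Field Ω] {ι : Type} {N M : ℕ} (s : Finset ι) (p : ι → Fin N → Ω)
    (v : ι → Ω) [DecidableEq (Fin N → Ω)]
    (h : ∀ a : Fin N → ℕ, ∑ l, a l ≤ M → ∑ i ∈ s, (∏ l, p i l ^ a l) * v i = 0)
    (P0 : Fin N → Ω) (hcard : (s.image p).card ≤ M + 1) :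
    ∑ i ∈ s with p i = P0, v i = 0 := by
  classical
  by_cases hP : P0 ∈ s.image p
  · have hQ : ((s.image p).erase P0).card ≤ M := by
      have h1 := Finset.card_erase_of_mem hP
      omega
    have hl : ∀ R : Fin N → Ω, R ≠ P0 → ∃ l, R l ≠ P0 l := fun R hR => by
      by_contra hcon
      push Not at hcon
      exact hR (funext hcon)
    rcases Nat.eq_zero_or_pos N with hN | hN
    · subst hN
      have h1 := h (fun _ => 0) (by simp)
      simp only [Finset.univ_eq_empty, Finset.prod_empty, one_mul] at h1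
      rw [← h1]
      refine Finset.sum_congr (Finset.filter_true_of_mem fun i _ => ?_) fun _ _ => rfl
      exact Subsingleton.elim _ _
    · choose l hl using fun R : {R : Fin N → Ω // R ≠ P0} => hl R.1 R.2
      let l' : (Fin N → Ω) → Fin N := fun R => if h : R ≠ P0 then l ⟨R, h⟩ else ⟨0, hN⟩
      have hl' : ∀ R, R ≠ P0 → R (l' R) ≠ P0 (l' R) := fun R hR => by
        simp only [l', dif_pos hR]
        exact hl ⟨R, hR⟩
      obtain ⟨Q, hQdef⟩ : ∃ Q, Q = (s.image p).erase P0 := ⟨_, rfl⟩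
      rw [← hQdef] at hQ
      -- the product of the linear forms
      have hexp : ∀ i, ∏ R ∈ Q, (p i (l' R) + -R (l' R)) =
          ∑ t ∈ Q.powerset, (∏ R ∈ t, p i (l' R)) * ∏ R ∈ Q \ t, -R (l' R) := fun i =>
        Finset.prod_add _ _ _
      have hmon : ∀ t ∈ Q.powerset, ∑ i ∈ s, (∏ R ∈ t, p i (l' R)) * v i = 0 := by
        intro t ht
        have h2 : ∀ i, ∏ R ∈ t, p i (l' R) =
            ∏ k, p i k ^ (t.filter fun R => l' R = k).card := by
          intro i
          rw [← Finset.prod_fiberwise t l']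
          refine Finset.prod_congr rfl fun k _ => ?_
          rw [Finset.prod_congr rfl fun R hR => by rw [(Finset.mem_filter.1 hR).2],
            Finset.prod_const]
        rw [Finset.sum_congr rfl fun i _ => by rw [h2 i]]
        refine h _ ?_
        rw [Finset.sum_card_fiberwise_eq_card_filter]
        refine le_trans (Finset.card_filter_le _ _) ?_
        exact le_trans (Finset.card_le_card (Finset.mem_powerset.1 ht)) hQ
      have hzero : ∑ i ∈ s, (∏ R ∈ Q, (p i (l' R) + -R (l' R))) * v i = 0 := by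
        have h3 : ∀ i ∈ s, (∏ R ∈ Q, (p i (l' R) + -R (l' R))) * v i =
            ∑ t ∈ Q.powerset, (∏ R ∈ Q \ t, -R (l' R)) * ((∏ R ∈ t, p i (l' R)) * v i) := by
          intro i _
          rw [hexp, Finset.sum_mul]
          refine Finset.sum_congr rfl fun t _ => ?_
          ring
        rw [Finset.sum_congr rfl h3, Finset.sum_comm]
        refine Finset.sum_eq_zero fun t ht => ?_
        rw [← Finset.mul_sum, hmon t ht, mul_zero]
      have hsplit : ∑ i ∈ s, (∏ R ∈ Q, (p i (l' R) + -R (l' R))) * v i =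
          (∏ R ∈ Q, (P0 (l' R) + -R (l' R))) * ∑ i ∈ s with p i = P0, v i := by
        rw [Finset.mul_sum, ← Finset.sum_filter_add_sum_filter_not s (fun i => p i = P0)]
        have h4 : ∑ i ∈ s with ¬ p i = P0, (∏ R ∈ Q, (p i (l' R) + -R (l' R))) * v i = 0 := by
          refine Finset.sum_eq_zero fun i hi => ?_
          rw [Finset.mem_filter] at hi
          have h5 : p i ∈ Q := by
            rw [hQdef]
            exact Finset.mem_erase.2 ⟨hi.2, Finset.mem_image_of_mem _ hi.1⟩
          rw [Finset.prod_eq_zero h5 (by rw [add_neg_cancel]), zero_mul]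
        rw [h4, add_zero]
        refine Finset.sum_congr rfl fun i hi => ?_
        rw [(Finset.mem_filter.1 hi).2]
      rw [hsplit] at hzero
      rcases mul_eq_zero.1 hzero with h6 | h6
      · exfalso
        rw [Finset.prod_eq_zero_iff] at h6
        obtain ⟨R, hR, h7⟩ := h6
        rw [hQdef] at hR
        exact hl' R (Finset.ne_of_mem_erase hR) (by linear_combination -h7)
      · exact h6
  · refine Finset.sum_eq_zero fun i hi => ?_
    rw [Finset.mem_filter] at hi
    exact absurd (hi.2 ▸ Finset.mem_image_of_mem p hi.1) hP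

section

variable {K Ω : Type} [Field K] [Algebra ℂ K] [Field Ω] [Algebra ℂ Ω]

/-- two embeddings which agree on `x` agree on `ℂ(x)` -/
theorem agree {N : ℕ} {x : Fin N → K} {σ τ : K →ₐ[ℂ] Ω} (h : ∀ l, σ (x l) = τ (x l)) {e : K}
    (he : e ∈ IntermediateField.adjoin ℂ (Set.range x)) : σ e = τ e := by
  induction he using IntermediateField.adjoin_induction with
  | mem e he =>
    obtain ⟨l, rfl⟩ := he
    exact h l
  | algebraMap c => rw [AlgHom.commutes, AlgHom.commutes]
  | add a b _ _ ha hb => rw [map_add, map_add, ha, hb]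
  | inv a _ ha => rw [map_inv₀, map_inv₀, ha]
  | mul a b _ _ ha hb => rw [map_mul, map_mul, ha, hb]

/-- derivations of `Ω` with given values on algebraically independent elements -/
theorem exists_ders {n : ℕ} {y : Fin n → Ω} (hy : AlgebraicIndependent ℂ y) :
    ∃ D : Fin n → Derivation ℂ Ω Ω, ∀ i j, D i (y j) = if i = j then 1 else 0 := by
  classical
  have hcharΩ : CharZero Ω := charZero_of_injective_algebraMap (algebraMap ℂ Ω).injective
  obtain ⟨t, ht, hb⟩ := exists_isTranscendenceBasis_superset (R := ℂ) (A := Ω)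
    (s := Set.range y) hy.coe_range
  choose D hD using fun i : Fin n => Pool.Agent.W602.GT.exists_der ((↑) : t → Ω) hb
    fun e => if (e : Ω) = y i then (1 : Ω) else 0
  refine ⟨D, fun i j => ?_⟩
  have h1 := hD i ⟨y j, ht ⟨j, rfl⟩⟩
  rw [h1]
  by_cases hij : i = j
  · rw [if_pos hij, if_pos (by rw [hij])]
  · rw [if_neg hij, if_neg fun h => hij (hy.injective h).symm]

/-- A variety of geometric genus zero. -/
def GenusZero (L : Type) [Field L] [Algebra ℂ L] (n : ℕ) : Prop :=
  ∀ ω : (Fin n → Derivation ℂ L L) → L, IsPluri 1 ω →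
    (∀ P : Place ℂ L, Divisorial n P → RegAt P ω) → ∀ D, ω D = 0

/-- uniruled varieties have geometric genus zero -/
theorem genusZero_of_uniruled {L : Type} [Field L] [Algebra ℂ L] [Algebra.EssFiniteType ℂ L]
    {n : ℕ} (htr : Algebra.trdeg ℂ L = (n : ℕ)) (h : Pool.Agent.W619.PQ.IsUniruled ℂ L n) :
    GenusZero L n := by
  have h3 : ¬ Psef ℂ L n (fun _ => False) := fun h' =>
    (Pool.Agent.W619.Y.uniruled_neg n htr h).1 ((Pool.Agent.TH466.QG.psef_iff n).1 h')
  have h2 : ¬ KodGe ℂ L n (fun _ => False) 0 := fun h' => h3 (psef_of_kodGe h')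
  intro ω hω hreg D
  by_contra hne
  refine h2 ⟨1, one_pos, fun _ => ω, fun _ => ⟨hω, fun P hP D' hD' => ?_, fun P hP _ => hreg P hP⟩,
    D, hne, ?_⟩
  · exact hreg P hP D' fun i => Pool.Agent.TH466.QG.derReg_of_log (hD' i)
  · exact algebraicIndependent_empty_type

/-- **The main step.** -/
theorem step [IsAlgClosed Ω] [Algebra.EssFiniteType ℂ K] {n : ℕ}
    (hK : Algebra.trdeg ℂ K = (n : ℕ)) {q M : ℕ} {z : Fin q → K}
    [FiniteDimensional (IntermediateField.adjoin ℂ (Set.range z)) K]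
    (hpg : GenusZero (IntermediateField.adjoin ℂ (Set.range z)) n)
    (hmon : (Module.finrank (IntermediateField.adjoin ℂ (Set.range z)) K).Prime ∨
      DoublyTransitive (IntermediateField.adjoin ℂ (Set.range z)) K)
    {ω : (Fin n → Derivation ℂ K K) → K} (hω0 : ω ≠ 0)
    (hglob : ∀ a : Fin q → ℕ, ∑ l, a l ≤ M →
      GlobalForm n (fun D => (∏ l, z l ^ a l) * ω D))
    {c : (K →ₐ[ℂ] Ω) →₀ ℤ} (hc : NullTrace n c) [DecidableEq (Fin q → Ω)]
    (hcard : (c.support.image fun σ l => σ (z l)).card ≤ M + 1)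
    {σ τ : K →ₐ[ℂ] Ω} (h : ∀ l, σ (z l) = τ (z l)) : c σ = c τ := by
  classical
  obtain ⟨Ef, hEf⟩ : ∃ Ef : IntermediateField ℂ K, Ef = IntermediateField.adjoin ℂ (Set.range z) :=
    ⟨_, rfl⟩
  have hzE : ∀ l, z l ∈ Ef := fun l => by
    rw [hEf]
    exact IntermediateField.subset_adjoin _ _ ⟨l, rfl⟩
  have hagree : ∀ {ρ ρ' : K →ₐ[ℂ] Ω}, (∀ l, ρ (z l) = ρ' (z l)) → ∀ e : Ef,
      ρ (e : K) = ρ' (e : K) := by
    intro ρ ρ' h e
    refine agree h ?_
    rw [← hEf]
    exact e.2
  have hωz := hglob (fun _ => 0) (by simp)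
  simp only [pow_zero, Finset.prod_const_one, one_mul] at hωz
  have hω : IsPluri 1 ω := hωz.1
  rw [← hEf] at hpg hmon
  have hfd : FiniteDimensional Ef K := by
    rw [hEf]
    infer_instance
  have hEn : Algebra.trdeg ℂ Ef = (n : ℕ) := Pool.Agent.Y184.NT.trdeg_below (K := K) hK
  have hessE : Algebra.EssFiniteType ℂ Ef := Pool.Agent.TH466.QG.ess_below (K := K)
  obtain ⟨y, E, hy, hE⟩ := Pool.Agent.Y172.exists_crd (k := ℂ) (K := Ef) hEn
  choose E' hE' using fun i => Pool.Agent.Y172.exists_lift (k := ℂ) (K := Ef) (L := K) hEn (E i)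
  have hyK : IsTranscendenceBasis ℂ (fun j => algebraMap Ef K (y j)) := hy.algebraMap_comp
  have hE'd := Pool.Agent.Y172.lift_dual hE hE'
  have hw : ω E' ≠ 0 := by
    intro h0
    apply hω0
    funext D
    rw [Pool.Agent.Y172.pluri_coord hyK hE'd hω D, h0, mul_zero]
    rfl
  have htr : Algebra.trace Ef K (ω E') = 0 :=
    Pool.Agent.Y692.NT.t_Tr Ef K n hEn hpg ω hω hωz.2 E E' hE'
  -- the vector fields on Ω
  have hcharΩ : CharZero Ω := charZero_of_injective_algebraMap (algebraMap ℂ Ω).injective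
  have hind : AlgebraicIndependent ℂ (fun j => σ (algebraMap Ef K (y j))) :=
    hyK.1.map' (f := σ) σ.injective
  obtain ⟨D, hD⟩ := exists_ders hind
  -- the relation
  have hrel : ∑ ρ ∈ c.support with (fun l => ρ (z l)) = fun l => σ (z l),
      (c ρ : Ω) * ρ (ω E') = 0 := by
    have h1 : ∀ a : Fin q → ℕ, ∑ l, a l ≤ M → ∑ ρ ∈ c.support, (∏ l, ρ (z l) ^ a l) *
        ((c ρ : Ω) * ((Matrix.of fun i j => D i (ρ (algebraMap Ef K (y j)))).det *
          ρ (ω E'))) = 0 := by
      intro a ha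
      have h2 := hc (fun D => (∏ l, z l ^ a l) * ω D) (hglob a ha) _ E' hyK hE'd D
      rw [← h2]
      refine Finset.sum_congr rfl fun ρ _ => ?_
      unfold pullback
      rw [map_mul, map_prod]
      simp only [map_pow]
      ring
    have h4 := isolate c.support (fun ρ l => ρ (z l)) _ h1 (fun l => σ (z l)) hcard
    rw [← h4]
    refine Finset.sum_congr rfl fun ρ hρ => ?_
    have h5 : ∀ l, ρ (z l) = σ (z l) := fun l => congrFun (Finset.mem_filter.1 hρ).2 l
    have h6 : (Matrix.of fun i j => D i (ρ (algebraMap Ef K (y j)))) = 1 := by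
      ext i j
      have h7 : ρ (algebraMap Ef K (y j)) = σ (algebraMap Ef K (y j)) := hagree h5 (y j)
      rw [Matrix.of_apply, Matrix.one_apply, h7, hD]
    rw [h6, Matrix.det_one, one_mul]
  -- the structure over ℂ(z)
  let i1 : Algebra Ef Ω := (σ.toRingHom.comp (algebraMap Ef K)).toAlgebra
  have hi1 : ∀ e : Ef, algebraMap Ef Ω e = σ (e : K) := fun e => rfl
  have i2 : IsScalarTower ℂ Ef Ω := IsScalarTower.of_algebraMap_eq fun c => by
    rw [hi1]
    exact (σ.commutes c).symm
  have hcE : CharZero Ef := charZero_of_injective_algebraMap (algebraMap ℂ _).injective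
  have hcA : CharZero (AlgebraicClosure Ef) := charZero_of_injective_algebraMap
    (algebraMap Ef (AlgebraicClosure Ef)).injective
  let ι : AlgebraicClosure Ef →ₐ[Ef] Ω := IsAlgClosed.lift
  let φ : (K →ₐ[Ef] AlgebraicClosure Ef) → (K →ₐ[ℂ] Ω) := fun ρ => (ι.comp ρ).restrictScalars ℂ
  have hφ : ∀ ρ (a : K), φ ρ a = ι (ρ a) := fun ρ a => rfl
  have hφinj : Function.Injective φ := by
    intro ρ ρ' hρ
    ext a
    have h1 : φ ρ a = φ ρ' a := by rw [hρ]
    rw [hφ, hφ] at h1
    exact ι.injective h1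
  have hφz : ∀ ρ (e : Ef), φ ρ (e : K) = σ (e : K) := by
    intro ρ e
    rw [hφ]
    have h1 : ρ (e : K) = algebraMap Ef _ e := ρ.commutes e
    rw [h1, ι.commutes, hi1]
  have hcardA : Fintype.card (K →ₐ[Ef] AlgebraicClosure Ef) = Module.finrank Ef K :=
    AlgHom.card _ _ _
  have hcardΩ : Fintype.card (K →ₐ[Ef] Ω) = Module.finrank Ef K := AlgHom.card _ _ _
  have hφsurj : ∀ ρ : K →ₐ[ℂ] Ω, (∀ l, ρ (z l) = σ (z l)) → ∃ ρ', φ ρ' = ρ := by
    intro ρ hρ
    let ρ1 : K →ₐ[Ef] Ω := { ρ with commutes' := fun e => (hagree hρ e).trans (hi1 e).symm }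
    have h1 : Function.Injective (fun ρ' : K →ₐ[Ef] AlgebraicClosure Ef => ι.comp ρ') := by
      intro ρ2 ρ3 h23
      apply hφinj
      change (ι.comp ρ2).restrictScalars ℂ = (ι.comp ρ3).restrictScalars ℂ
      exact congrArg (fun f : K →ₐ[Ef] Ω => f.restrictScalars ℂ) h23
    have h2 : Function.Bijective (fun ρ' : K →ₐ[Ef] AlgebraicClosure Ef => ι.comp ρ') := by
      rw [Fintype.bijective_iff_injective_and_card]
      exact ⟨h1, by rw [hcardA, hcardΩ]⟩
    obtain ⟨ρ', hρ'⟩ := h2.2 ρ1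
    refine ⟨ρ', ?_⟩
    ext a
    have h3 : (ι.comp ρ') a = ρ1 a := by
      have := congrArg (fun f : K →ₐ[Ef] Ω => f a) hρ'
      exact this
    exact h3
  have hsum : ∑ ρ : K →ₐ[Ef] AlgebraicClosure Ef, (c (φ ρ) : AlgebraicClosure Ef) * ρ (ω E') =
      0 := by
    refine (map_eq_zero ι).1 ?_
    rw [map_sum, ← hrel]
    have h1 : ∀ ρ : K →ₐ[Ef] AlgebraicClosure Ef,
        ι ((c (φ ρ) : AlgebraicClosure Ef) * ρ (ω E')) = (c (φ ρ) : Ω) * (φ ρ) (ω E') := by
      intro ρ
      rw [map_mul, map_intCast, hφ]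
    rw [Finset.sum_congr rfl fun ρ _ => h1 ρ]
    have h2 : ∑ ρ : K →ₐ[Ef] AlgebraicClosure Ef, (c (φ ρ) : Ω) * (φ ρ) (ω E') =
        ∑ ρ' ∈ Finset.univ.image φ, (c ρ' : Ω) * ρ' (ω E') :=
      (Finset.sum_image (f := fun ρ' : K →ₐ[ℂ] Ω => (c ρ' : Ω) * ρ' (ω E'))
        fun ρ _ ρ' _ h => hφinj h).symm
    rw [h2]
    symm
    refine Finset.sum_subset ?_ ?_
    · intro ρ hρ
      have h3 : ∀ l, ρ (z l) = σ (z l) := fun l => congrFun (Finset.mem_filter.1 hρ).2 l
      obtain ⟨ρ', hρ'⟩ := hφsurj ρ h3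
      exact Finset.mem_image.2 ⟨ρ', Finset.mem_univ _, hρ'⟩
    · intro ρ hρ hρn
      obtain ⟨ρ', -, rfl⟩ := Finset.mem_image.1 hρ
      have h3 : c (φ ρ') = 0 := by
        by_contra hne
        apply hρn
        refine Finset.mem_filter.2 ⟨Finsupp.mem_support_iff.2 hne, funext fun l => ?_⟩
        exact hφz ρ' ⟨z l, hzE l⟩
      rw [h3, Int.cast_zero, zero_mul]
  have hζ : ∀ N : ℕ, 0 < N → ∃ ζ : AlgebraicClosure Ef, IsPrimitiveRoot ζ N := by
    intro N hN
    let f : ℂ →+* AlgebraicClosure Ef := (algebraMap Ef (AlgebraicClosure Ef)).comp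
      (algebraMap ℂ Ef)
    exact ⟨_, (Complex.isPrimitiveRoot_exp N hN.ne').map_of_injective f.injective⟩
  obtain ⟨σ', hσ'⟩ := hφsurj σ fun _ => rfl
  obtain ⟨τ', hτ'⟩ := hφsurj τ fun l => (h l).symm
  have hfin := core hmon hζ hw htr (fun ρ => c (φ ρ)) hsum σ' τ'
  simp only [hσ', hτ'] at hfin
  exact hfin

end

end Pool.Agent.K6.H68.CC
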