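import Pool.Agent.K6.H68.CC.Cyc

/-!
Integral relations which are invariant under a transitive permutation group of prime degree, or under
a doubly transitive permutation group.
-/

set_option autoImplicit false

open Polynomial

namespace Pool.Agent.K6.H68.CC

section perm

variable {S A : Type} [Fintype S] [Field A] [CharZero A]

theorem const_of_two (H : Subgroup (Equiv.Perm S))
    (h2 : ∀ σ τ σ' τ' : S, σ ≠ τ → σ' ≠ τ' → ∃ h ∈ H, h σ = σ' ∧ h τ = τ') {v : S → A} {a : S → ℤ}
    (hv : ∀ σ, v σ ≠ 0) (hs : ∑ σ, v σ = 0) (hrel : ∀ h ∈ H, ∑ σ, (a σ : A) * v (h σ) = 0)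
    (σ τ : S) : a σ = a τ := by
  classical
  by_cases hστ : σ = τ
  · rw [hστ]
  have key : ∀ σ1 τ0 : S, τ0 ≠ σ1 → (Fintype.card S : ℤ) * a σ1 = ∑ τ, a τ := by
    intro σ1 τ0 hτ0
    obtain ⟨St, hSt⟩ : ∃ St : Finset (Equiv.Perm S),
      St = Finset.univ.filter (fun h => h ∈ H ∧ h σ1 = σ1) := ⟨_, rfl⟩
    have hmem : ∀ h, h ∈ St ↔ h ∈ H ∧ h σ1 = σ1 := by
      intro h
      rw [hSt, Finset.mem_filter]
      exact ⟨fun h => h.2, fun h => ⟨Finset.mem_univ _, h⟩⟩
    obtain ⟨B, hB⟩ : ∃ B : S → ℤ, B = fun τ => ∑ h ∈ St, a (h⁻¹ τ) := ⟨_, rfl⟩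
    have hB1 : B σ1 = St.card * a σ1 := by
      rw [hB]
      change ∑ h ∈ St, a (h⁻¹ σ1) = _
      rw [Finset.sum_congr rfl fun h hh => by
        rw [show h⁻¹ σ1 = σ1 from by
          rw [Equiv.Perm.inv_eq_iff_eq]
          exact ((hmem h).1 hh).2.symm], Finset.sum_const, nsmul_eq_mul]
    have hB2 : ∀ τ, τ ≠ σ1 → B τ = B τ0 := by
      intro τ hτ
      obtain ⟨h', hh', h1, h3⟩ := h2 σ1 τ0 σ1 τ (Ne.symm hτ0) (Ne.symm hτ)
      rw [hB]
      change ∑ h ∈ St, a (h⁻¹ τ) = ∑ h ∈ St, a (h⁻¹ τ0)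
      refine Finset.sum_bij (fun h _ => h'⁻¹ * h) ?_ ?_ ?_ ?_
      · intro h hh
        rw [hmem] at hh ⊢
        refine ⟨mul_mem (inv_mem hh') hh.1, ?_⟩
        rw [Equiv.Perm.mul_apply, hh.2, Equiv.Perm.inv_eq_iff_eq, h1]
      · intro h _ g _ hg
        exact mul_left_cancel hg
      · intro g hg
        refine ⟨h' * g, ?_, by group⟩
        rw [hmem] at hg ⊢
        refine ⟨mul_mem hh' hg.1, ?_⟩
        rw [Equiv.Perm.mul_apply, hg.2, h1]
      · intro h _
        congr 1
        rw [mul_inv_rev, inv_inv, Equiv.Perm.mul_apply, h3]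
    have hsum : ∑ τ, (B τ : A) * v τ = 0 := by
      have h4 : ∀ h ∈ St, ∑ τ, (a (h⁻¹ τ) : A) * v τ = 0 := by
        intro h hh
        rw [← hrel h ((hmem h).1 hh).1, ← Equiv.sum_comp h]
        refine Finset.sum_congr rfl fun σ _ => ?_
        have h8 : h⁻¹ (h σ) = σ := by
          rw [Equiv.Perm.inv_eq_iff_eq]
        rw [h8]
      have h5 : ∑ τ, (B τ : A) * v τ = ∑ h ∈ St, ∑ τ, (a (h⁻¹ τ) : A) * v τ := by
        rw [Finset.sum_comm]
        refine Finset.sum_congr rfl fun τ _ => ?_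
        rw [hB, Int.cast_sum, Finset.sum_mul]
      rw [h5]
      exact Finset.sum_eq_zero h4
    have heq : B σ1 = B τ0 := by
      rw [← Finset.add_sum_erase _ _ (Finset.mem_univ σ1)] at hsum hs
      have h4 : ∑ τ ∈ Finset.univ.erase σ1, (B τ : A) * v τ =
          (B τ0 : A) * ∑ τ ∈ Finset.univ.erase σ1, v τ := by
        rw [Finset.mul_sum]
        refine Finset.sum_congr rfl fun τ hτ => ?_
        rw [hB2 τ (Finset.ne_of_mem_erase hτ)]
      rw [h4] at hsum
      have h5 : ((B σ1 : A) - (B τ0 : A)) * v σ1 = 0 := by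
        linear_combination hsum - (B τ0 : A) * hs
      rcases mul_eq_zero.1 h5 with h6 | h6
      · exact_mod_cast sub_eq_zero.1 h6
      · exact absurd h6 (hv σ1)
    have htot : ∑ τ, B τ = St.card * ∑ τ, a τ := by
      rw [hB, Finset.sum_comm, Finset.sum_congr rfl fun h _ => Equiv.sum_comp h⁻¹ a,
        Finset.sum_const, nsmul_eq_mul]
    have hall : ∀ τ, B τ = B σ1 := by
      intro τ
      by_cases hτ : τ = σ1
      · rw [hτ]
      · rw [hB2 τ hτ, heq]
    rw [Finset.sum_congr rfl fun τ _ => hall τ, Finset.sum_const, hB1, nsmul_eq_mul,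
      Finset.card_univ] at htot
    have hpos : (0 : ℤ) < St.card := by
      have h6 : 0 < St.card := Finset.card_pos.2 ⟨1, (hmem 1).2 ⟨one_mem _, rfl⟩⟩
      exact_mod_cast h6
    have h7 : (St.card : ℤ) * ((Fintype.card S : ℤ) * a σ1) = St.card * ∑ τ, a τ := by
      rw [← htot]
      ring
    exact mul_left_cancel₀ hpos.ne' h7
  have h1 := (key σ τ (Ne.symm hστ)).trans (key τ σ hστ).symm
  have hN : (Fintype.card S : ℤ) ≠ 0 := by
    have : 0 < Fintype.card S := Fintype.card_pos_iff.2 ⟨σ⟩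
    exact_mod_cast this.ne'
  exact mul_left_cancel₀ hN h1

omit [CharZero A] in
/-- the sums over a period -/
theorem sum_period {N : ℕ} {g : ℕ → A} (hg : ∀ i, g (i + N) = g i) (i : ℕ) :
    ∑ j ∈ Finset.range N, g (i + j) = ∑ j ∈ Finset.range N, g j := by
  induction i with
  | zero => simp
  | succ i ih =>
    rw [← ih]
    have h1 : ∑ j ∈ Finset.range (N + 1), g (i + j) =
        ∑ j ∈ Finset.range N, g (i + j) + g (i + N) := Finset.sum_range_succ _ _
    have h2 : ∑ j ∈ Finset.range (N + 1), g (i + j) =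
        ∑ j ∈ Finset.range N, g (i + (j + 1)) + g (i + 0) := Finset.sum_range_succ' _ _
    have h3 : ∑ j ∈ Finset.range N, g (i + 1 + j) = ∑ j ∈ Finset.range N, g (i + (j + 1)) := by
      refine Finset.sum_congr rfl fun j _ => ?_
      congr 1
      ring
    rw [h3]
    rw [hg, add_zero] at *
    exact add_right_cancel (h2.symm.trans h1)

theorem const_of_prime (H : Subgroup (Equiv.Perm S)) (ht : ∀ σ τ : S, ∃ h ∈ H, h σ = τ)
    (hN : (Fintype.card S).Prime) {ζ : A} (hζ : IsPrimitiveRoot ζ (Fintype.card S)) {v : S → A}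
    {a : S → ℤ} (hv : ∀ σ, v σ ≠ 0) (hs : ∑ σ, v σ = 0)
    (hrel : ∀ h ∈ H, ∑ σ, (a σ : A) * v (h σ) = 0) (σ τ : S) : a σ = a τ := by
  classical
  obtain ⟨N, hNdef⟩ : ∃ N, N = Fintype.card S := ⟨_, rfl⟩
  rw [← hNdef] at hN hζ
  -- an element of order `N`
  have hdvd : N ∣ Fintype.card H := by
    have h1 := MulAction.card_orbit_mul_card_stabilizer_eq_card_group H σ
    have h2 : Fintype.card (MulAction.orbit H σ) = N := by
      rw [hNdef]
      refine Fintype.card_congr (Equiv.subtypeUnivEquiv fun τ => ?_)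
      obtain ⟨h, hh, hh'⟩ := ht σ τ
      exact ⟨⟨h, hh⟩, hh'⟩
    rw [← h1, h2]
    exact Dvd.intro _ rfl
  have hfact : Fact N.Prime := ⟨hN⟩
  obtain ⟨⟨h, hH⟩, hord⟩ := exists_prime_orderOf_dvd_card N hdvd
  have hord' : orderOf h = N := by
    rw [← hord]
    exact (Subgroup.orderOf_mk h hH).symm
  have hcyc : h.IsCycle := Equiv.Perm.isCycle_of_prime_order'' (by rw [← hNdef]; exact hN)
    (by rw [hord', hNdef])
  have hsupp : ∀ τ, h τ ≠ τ := by
    have h1 : h.support.card = Fintype.card S := by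
      rw [← hcyc.orderOf, hord', hNdef]
    intro τ
    have h2 : h.support = Finset.univ := (Finset.card_eq_iff_eq_univ _).1 h1
    have h3 : τ ∈ h.support := by
      rw [h2]
      exact Finset.mem_univ _
    exact Equiv.Perm.mem_support.1 h3
  obtain ⟨e, he⟩ : ∃ e : ℕ → S, e = fun i => (h ^ i) σ := ⟨_, rfl⟩
  have hpow : h ^ N = 1 := by
    rw [← hord']
    exact pow_orderOf_eq_one h
  have heN : ∀ i, e (i + N) = e i := by
    intro i
    rw [he]
    change (h ^ (i + N)) σ = (h ^ i) σ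
    rw [pow_add, hpow, mul_one]
  have hesurj : ∀ τ, ∃ i < N, e i = τ := by
    intro τ
    obtain ⟨i, hi⟩ := hcyc.exists_pow_eq (hsupp σ) (hsupp τ)
    refine ⟨i % N, Nat.mod_lt _ hN.pos, ?_⟩
    rw [he]
    change (h ^ (i % N)) σ = τ
    rw [← hord', pow_mod_orderOf]
    exact hi
  have himg : (Finset.range N).image e = Finset.univ := by
    ext τ
    simp only [Finset.mem_image, Finset.mem_range, Finset.mem_univ, iff_true]
    exact hesurj τ
  have hinj : Set.InjOn e (Finset.range N : Set ℕ) := by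
    rw [← Finset.card_image_iff, himg, Finset.card_univ, Finset.card_range, ← hNdef]
  have hsum : ∀ g : S → A, ∑ τ, g τ = ∑ i ∈ Finset.range N, g (e i) := by
    intro g
    rw [← himg, Finset.sum_image hinj]
  have hshift : ∀ i j, (h ^ j) (e i) = e (i + j) := by
    intro i j
    rw [he]
    change (h ^ j) ((h ^ i) σ) = (h ^ (i + j)) σ
    rw [← Equiv.Perm.mul_apply, ← pow_add, add_comm]
  have hrelj : ∀ j, ∑ i ∈ Finset.range N, (a (e i) : A) * v (e (i + j)) = 0 := by
    intro j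
    rw [← hrel (h ^ j) (pow_mem hH j), hsum]
    refine Finset.sum_congr rfl fun i _ => ?_
    rw [hshift]
  -- the discrete Fourier transform
  have hfour : ∀ z z' : A, z ^ N = 1 → z * z' = 1 →
      (∑ m ∈ Finset.range N, z ^ m * v (e m)) * ∑ i ∈ Finset.range N, (a (e i) : A) * z' ^ i =
        0 := by
    intro z z' hz hzz'
    have h1 : ∀ i, ∑ j ∈ Finset.range N, z ^ j * v (e (i + j)) =
        z' ^ i * ∑ m ∈ Finset.range N, z ^ m * v (e m) := by
      intro i
      have h2 := sum_period (N := N) (g := fun m => z ^ m * v (e m)) (fun m => by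
        rw [heN, pow_add, hz, mul_one]) i
      rw [← h2, Finset.mul_sum]
      refine Finset.sum_congr rfl fun j _ => ?_
      change z ^ j * v (e (i + j)) = z' ^ i * (z ^ (i + j) * v (e (i + j)))
      have h3 : z' ^ i * z ^ i = 1 := by
        rw [← mul_pow, mul_comm z' z, hzz', one_pow]
      rw [pow_add]
      linear_combination (-(z ^ j * v (e (i + j)))) * h3
    have h4 : ∑ j ∈ Finset.range N, z ^ j *
        ∑ i ∈ Finset.range N, (a (e i) : A) * v (e (i + j)) = 0 :=
      Finset.sum_eq_zero fun j _ => by rw [hrelj, mul_zero]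
    rw [← h4, Finset.mul_sum]
    simp only [Finset.mul_sum]
    rw [Finset.sum_comm]
    refine Finset.sum_congr rfl fun i _ => ?_
    have h5 := h1 i
    have h6 : ∑ j ∈ Finset.range N, z ^ j * ((a (e i) : A) * v (e (i + j))) =
        (a (e i) : A) * ∑ j ∈ Finset.range N, z ^ j * v (e (i + j)) := by
      rw [Finset.mul_sum]
      refine Finset.sum_congr rfl fun j _ => ?_
      ring
    rw [h6, h5]
    ring
  -- a transform which is not zero
  have hex : ∃ l < N, ∑ m ∈ Finset.range N, (ζ ^ l) ^ m * v (e m) ≠ 0 := by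
    by_contra hcon
    push Not at hcon
    have h1 : ∑ l ∈ Finset.range N, ∑ m ∈ Finset.range N, (ζ ^ l) ^ m * v (e m) = 0 :=
      Finset.sum_eq_zero fun l hl => hcon l (Finset.mem_range.1 hl)
    rw [Finset.sum_comm] at h1
    have h2 : ∀ m ∈ Finset.range N, m ≠ 0 →
        ∑ l ∈ Finset.range N, (ζ ^ l) ^ m * v (e m) = 0 := by
      intro m hm hm0
      rw [← Finset.sum_mul]
      have h3 : ∑ l ∈ Finset.range N, (ζ ^ l) ^ m = 0 := by
        have h4 : ζ ^ m ≠ 1 := hζ.pow_ne_one_of_pos_of_lt hm0 (Finset.mem_range.1 hm)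
        have h5 : ∑ l ∈ Finset.range N, (ζ ^ m) ^ l = 0 := by
          have h6 := mul_geom_sum (ζ ^ m) N
          rw [← pow_mul, mul_comm m N, pow_mul, hζ.pow_eq_one, one_pow, sub_self] at h6
          exact (mul_eq_zero.1 h6).resolve_left (sub_ne_zero.2 h4)
        rw [← h5]
        refine Finset.sum_congr rfl fun l _ => ?_
        rw [← pow_mul, ← pow_mul, mul_comm]
      rw [h3, zero_mul]
    rw [Finset.sum_eq_single_of_mem 0 (Finset.mem_range.2 hN.pos) h2] at h1
    simp only [pow_zero, one_mul, Finset.sum_const, Finset.card_range, nsmul_eq_mul] at h1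
    rcases mul_eq_zero.1 h1 with h3 | h3
    · exact hN.ne_zero (by exact_mod_cast h3)
    · exact hv _ h3
  obtain ⟨l, hl, hlne⟩ := hex
  have hl0 : l ≠ 0 := by
    rintro rfl
    apply hlne
    rw [← hs, hsum]
    refine Finset.sum_congr rfl fun m _ => ?_
    rw [pow_zero, one_pow, one_mul]
  have hprim : IsPrimitiveRoot (ζ ^ (N - l)) N := by
    refine hζ.pow_of_coprime (N - l) ?_
    exact ((Nat.Prime.coprime_iff_not_dvd hN).2 (Nat.not_dvd_of_pos_of_lt (by omega)
      (by omega))).symm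
  have hzero : ∑ i ∈ Finset.range N, (a (e i) : A) * (ζ ^ (N - l)) ^ i = 0 := by
    refine (mul_eq_zero.1 (hfour (ζ ^ l) (ζ ^ (N - l)) ?_ ?_)).resolve_left hlne
    · rw [← pow_mul, mul_comm, pow_mul, hζ.pow_eq_one, one_pow]
    · rw [← pow_add, Nat.add_sub_cancel' hl.le, hζ.pow_eq_one]
  have hall := all_equal hN.pos hprim (fun i => a (e i)) (by
    intro m hm hm1
    have h1 : m = N := (Nat.dvd_prime hN).1 hm |>.resolve_left (by omega)
    rw [h1, Nat.div_self hN.pos]
    simpa using hzero)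
  obtain ⟨i, hi, rfl⟩ := hesurj σ
  obtain ⟨j, hj, rfl⟩ := hesurj τ
  exact hall i hi j hj

end perm

end Pool.Agent.K6.H68.CC
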